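import Pool.Agent.CYS.ExDat

/-!
# The pair lemma for a covering of order six and a covering of order three or six

`Bi.main6`: a class function on the pairs of points of a covering of order `6` and a covering of order `3` or `6`, of the
types `χ` and `χ' ⁻¹`, `χ` injective, `χ'` its restriction, is zero if `e ≤ n` for both coverings.
-/

set_option autoImplicit false

noncomputable section

namespace Pool.Agent.CYS

open Pool.Agent.ZCyc Pool.Agent.Dess Pool.Agent.TInc Polynomial
open Pool.Agent.CYU (Cov Pt Mu mu hev Bi IsVal ctr Spec Inv)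
open Pool.Agent.VFP (Om tt)

variable {k : Type} [Field k] [IsAlgClosed k] [CharZero k] {m' : ℕ} [NeZero m']
  {V : Type} [AddCommGroup V] [Module k V] {χ : Mu k 6 →* kˣ} {χ' : Mu k m' →* kˣ}
  {W : Cov k 6} {W' : Cov k m'}

theorem main6 (G : Bi χ χ' W W' V) (hm' : m' = 3 ∨ m' = 6) (hχ : Function.Injective χ)
    (hχ' : Function.Injective χ') (hc : Cmp χ χ') (hn : W.e ≤ W.n) (hn' : W'.e ≤ W'.n)
    (z : Pt W k) (z' : Pt W' k) : G.F z z' = 0 := by
  by_cases hz : z.w = 0
  · exact G.zero1 (by norm_num) hχ hz z'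
  · obtain ⟨K, hK, ⟨D⟩⟩ := exists_dat hn hz
    exact glob G hm' hχ hχ' hc hn' hz hK K.val D z'

end Pool.Agent.CYS
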