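import Pool.Agent.CYS.RelF

/-!
# Coverings of order six: families over `k` with a constant ratio

Proof of `deg_c`. `β ^ 2 A ^ 3 = α ^ 3 B ^ 2`. `A ≠ 0`, because otherwise `B = 0`, but `A(0) ^ 3 + B(0) ^ 2 = z.w ^ 6 ≠ 0`
(`Fam.base`). In the fraction field of `k[T]` let `g = B α / (A β)`; then `g ^ 2 = A / α` is a polynomial, so `g` is
one (integrally closed), and `A = α g ^ 2`, `B = β g ^ 3`, `deg g ≤ e`. `g(0) ^ 6 = (α ^ 3 + β ^ 2) g(0) ^ 6 = z.w ^ 6`, so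
`g(0) = a z.w` for an `a : Mu k 6` (`CYU.exists_mu`). Let `s = tt k` and `K` a curve (`CYU.exists_curve`) which contains `s` and `w`
with `w ^ 6 = f(p(s))`. `ω = g(s)`, so `ω ^ 6 = A(s) ^ 3 + B(s) ^ 2`. `rel_fam` for `Φ.map`, `t = 1`, and the constant point
`z'` (`CYU.isVal_base`). By `over_not` and `over_zero` (where `s` vanishes `ω` has the value `g(0)`) and `CYU.over_fin`
(`n = 6 e`): `G.F (z.tw a) z' = 0`, `eq1`.
-/

set_option autoImplicit false

noncomputable section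

namespace Pool.Agent.CYS

open Pool.Agent.ZCyc Pool.Agent.Dess Pool.Agent.TInc Polynomial
open Pool.Agent.CYU (Cov Pt Mu mu hev Bi IsVal ctr Spec Inv)
open Pool.Agent.VFP (Om tt)

variable {k : Type} [Field k] [IsAlgClosed k] [CharZero k] {m' : ℕ} [NeZero m']
  {V : Type} [AddCommGroup V] [Module k V] {χ : Mu k 6 →* kˣ} {χ' : Mu k m' →* kˣ}
  {W : Cov k 6} {W' : Cov k m'}

omit [IsAlgClosed k] [CharZero k] in
/-- a square root and a cube root -/
theorem exists_g {α β : k} (hα : α ≠ 0) (hβ : β ≠ 0) {A B : k[X]} (hA : A ≠ 0)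
    (h : C (β ^ 2) * A ^ 3 = C (α ^ 3) * B ^ 2) :
    ∃ g : k[X], A = C α * g ^ 2 ∧ B = C β * g ^ 3 := by
  classical
  have hβ2 : (C (β ^ 2) : k[X]) ≠ 0 := C_ne_zero.2 (pow_ne_zero 2 hβ)
  have hα3 : (C (α ^ 3) : k[X]) ≠ 0 := C_ne_zero.2 (pow_ne_zero 3 hα)
  have hB : B ≠ 0 := by
    rintro rfl
    rw [zero_pow two_ne_zero, mul_zero, mul_eq_zero] at h
    rcases h with h | h
    · exact hβ2 h
    · exact hA (pow_eq_zero_iff (by norm_num) |>.1 h)
  -- `A` divides `B`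
  have hdvd : A ∣ B := by
    have h1 : A ^ 2 ∣ B ^ 2 := by
      have h2 : A ^ 2 ∣ C (α ^ 3) * B ^ 2 := by
        rw [← h]
        exact Dvd.intro_left (C (β ^ 2) * A) (by ring)
      exact (IsUnit.dvd_mul_left (isUnit_C.2 (pow_ne_zero 3 hα).isUnit)).1 h2
    exact (IsIntegrallyClosed.pow_dvd_pow_iff two_ne_zero).1 h1
  obtain ⟨q, rfl⟩ := hdvd
  have h1 : C (β ^ 2) * A = C (α ^ 3) * q ^ 2 := by
    have h2 : A ^ 2 * (C (β ^ 2) * A) = A ^ 2 * (C (α ^ 3) * q ^ 2) := by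
      linear_combination h
    exact mul_left_cancel₀ (pow_ne_zero 2 hA) h2
  have hcβ : (C β⁻¹ : k[X]) * C β = 1 := by
    rw [← C_mul, inv_mul_cancel₀ hβ, C_1]
  refine ⟨C (α * β⁻¹) * q, ?_, ?_⟩
  · rw [C_pow, C_pow] at h1
    rw [C_mul]
    linear_combination (C β⁻¹ ^ 2) * h1 - A * (C β⁻¹ * C β + 1) * hcβ
  · rw [C_pow, C_pow] at h1
    rw [C_mul]
    linear_combination (q * C β⁻¹ ^ 2) * h1 - q * A * (C β⁻¹ * C β + 1) * hcβ -
      (C α ^ 3 * q ^ 3 * C β⁻¹ ^ 2) * hcβ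

theorem deg_c (G : Bi χ χ' W W' V) (hχ : Function.Injective χ) {z : Pt W k} (hz : z.w ≠ 0)
    (Φ : Fam W z k) {α β : k} (hα : α ≠ 0) (hβ : β ≠ 0) (hE : α ^ 3 + β ^ 2 = 1)
    (h : Φ.Q α β = 0) (z' : Pt W' k) : G.F z z' = 0 := by
  have hm : 0 < 6 := by norm_num
  -- the constant
  have hbase := Φ.base
  rw [Algebra.algebraMap_self, RingHom.id_apply] at hbase
  have hQe : C (β ^ 2) * Φ.A ^ 3 = C (α ^ 3) * Φ.B ^ 2 := sub_eq_zero.1 h
  have hA : Φ.A ≠ 0 := by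
    intro h0
    rw [h0, zero_pow three_ne_zero, mul_zero] at hQe
    have h1 := (mul_eq_zero.1 hQe.symm).resolve_left (C_ne_zero.2 (pow_ne_zero 3 hα))
    have h2 : Φ.B = 0 := pow_eq_zero_iff two_ne_zero |>.1 h1
    rw [h0, h2, coeff_zero, zero_pow three_ne_zero, zero_pow two_ne_zero, add_zero] at hbase
    exact pow_ne_zero 6 hz hbase.symm
  obtain ⟨g, hgA, hgB⟩ := exists_g hα hβ hA hQe
  have hθα : (g.coeff 0) ^ 6 = z.w ^ 6 := by
    have h1 : Φ.A.coeff 0 = α * g.coeff 0 ^ 2 := by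
      rw [hgA, coeff_C_mul, coeff_zero_eq_eval_zero, coeff_zero_eq_eval_zero, eval_pow]
    have h2 : Φ.B.coeff 0 = β * g.coeff 0 ^ 3 := by
      rw [hgB, coeff_C_mul, coeff_zero_eq_eval_zero, coeff_zero_eq_eval_zero, eval_pow]
    rw [← hbase, h1, h2]
    linear_combination (-(g.coeff 0) ^ 6) * hE
  obtain ⟨a, ha⟩ := CYU.exists_tw (W := W) (p := z)
    (q := ⟨z.x, g.coeff 0, z.ne, by rw [hθα, z.on]⟩) rfl
  have ha' : g.coeff 0 = mu k a * z.w := congrArg Pt.w ha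
  -- the curve
  obtain ⟨w0, hw0⟩ := IsAlgClosed.exists_pow_nat_eq
    (MvPolynomial.aeval ((Φ.map (Algebra.ofId k (Om k))).p (tt k) 1) W.f) hm
  obtain ⟨K, hK, htt, hS⟩ := CYU.exists_curve (k := k) {w0} (Set.finite_singleton _)
  have hw0K : w0 ∈ K := hS rfl
  set s : K := ⟨tt k, htt⟩ with hs
  have hst : Transcendental k s := by
    intro h1
    exact CYU.transc_tt (k := k) (h1.algHom K.val)
  have hs0 : s ≠ 0 := by
    intro h1
    rw [h1] at hst
    exact hst isAlgebraic_zero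
  set Ψ := Φ.map (Algebra.ofId k K) with hΨ
  have hwK : (⟨w0, hw0K⟩ : K) ^ 6 = MvPolynomial.aeval (Ψ.p s 1) W.f := by
    apply K.val.injective
    have h1 : K.val (MvPolynomial.aeval (Ψ.p s 1) W.f) =
        MvPolynomial.aeval (fun i => K.val (Ψ.p s 1 i)) W.f :=
      DFunLike.congr_fun (MvPolynomial.comp_aeval (Ψ.p s 1) K.val) W.f
    show K.val (⟨w0, hw0K⟩ ^ 6) = K.val (MvPolynomial.aeval (Ψ.p s 1) W.f)
    rw [h1, map_pow]
    exact hw0
  have haE : Ψ.a s 1 = algebraMap k K α * aeval s g ^ 2 := by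
    have h1 : Ψ.a s 1 = (Φ.A.map (algebraMap k K)).eval s := CYU.hev_one Ψ.degA s
    rw [h1, eval_map_algebraMap, hgA, map_mul, aeval_C, map_pow]
  have hbE : Ψ.b s 1 = algebraMap k K β * aeval s g ^ 3 := by
    have h1 : Ψ.b s 1 = (Φ.B.map (algebraMap k K)).eval s := CYU.hev_one Ψ.degB s
    rw [h1, eval_map_algebraMap, hgB, map_mul, aeval_C, map_pow]
  have hω : (aeval s g) ^ 6 = Ψ.a s 1 ^ 3 + Ψ.b s 1 ^ 2 := by
    have h1 : algebraMap k K α ^ 3 + algebraMap k K β ^ 2 = 1 := by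
      rw [← map_pow, ← map_pow, ← map_add, hE, map_one]
    rw [haE, hbE]
    linear_combination (-(aeval s g) ^ 6) * h1
  obtain ⟨c', hc'⟩ := exists_ct hz Φ
  have hrel := rel_fam G hχ hK (P' := z'.base K) (p' := fun _ => z')
    (fun v => CYU.isVal_base v z') Ψ (hc'.map (Algebra.ofId k K)) hs0 hwK hω
  have hinv : Inv fun q => G.F q z' := fun b hb q => G.scale1 b hb q z'
  have hat : ∀ v : Place k K, v.Vanishes s →
      v.At (aeval s g) (mu k a * z.w) := by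
    intro v hv
    have h1 := (Place.at_zero_iff.2 hv).aeval g
    rw [← coeff_zero_eq_eval_zero, ha'] at h1
    exact h1
  have hzero := CYU.over_fin hK hst (n := 6 * W.e) (Nat.mul_pos hm W.pos)
    (F := fun v => ctr (fun q => G.F q z') v (Ψ.p s 1) (aeval s g)
      (algebraMap k K c' * s ^ (6 * W.e))) (x := G.F (z.tw a) z')
    (fun v hv => over_not hK Φ hv _ hc'.1 _)
    (fun v hv => by
      have h1 := over_zero hK hz Φ hv hs0 (hat v hv) hc'.1 hinv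
      push_cast
      exact h1) hrel.2
  rw [G.eq1] at hzero
  exact (smul_eq_zero.1 hzero).resolve_left (χ a).ne_zero

end Pool.Agent.CYS
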