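import Pool.Agent.CYS.SumN
import Pool.Agent.GT.RedC

/-!
# Coverings of order six: the second point

`e = (t, y)` is a point of `E : t ^ 3 + y ^ 2 = 1` over `Om k`, `t` not constant. The second point is `e - c`, `c` a general point of
`E` over `k`. We use the library on the elliptic curve `GT.Ec 0 1 : Y ^ 2 = X ^ 3 + 1`; the point `(t, y)` of `E` is the point
`(-t, y)` of this curve.

Proof of `exists_second`. Let `Γ` be the set of the points `p` of `Ec 0 1` over `k` which are `0` or whose coordinate `X` is in `-T`,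
in `-T' ` or satisfies `X = 0` or `X ^ 3 = -1`; here `T' = T ∪ {5}`. It is finite: there are at most two points
with a given `X`. The set of the differences of two elements of `Γ` is finite, `Ec 0 1` has infinitely many points over `k`
(`GT.infinite_points`, as in `GT/RedC.lean`); let `c` be a point which is not such a difference; `c ≠ 0`. Let `C` be the same point
over `Om k` and `P = (-t, y)`. For all places `V` of `Om k` the value of `C` is `c` (`GT.PRed`, `at_const`). `P ≠ C`, because `t` is not
constant, so `P - C` is a point `(-α, β)`, `α ^ 3 + β ^ 2 = 1`. Let `V` be a place, `p` the value of `P` at `V` (`GT.exists_pred`), so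
`p - c` is the value of `P - C` (`GT.pred_add`, `GT.pred_neg`).
If `t ∉ V.ring` then `p = 0`, and `p - c = -c ≠ 0`, so `α ∈ V.ring`. Let `t₀, y₀, α₀, β₀` be values as in `Sec`; `p = (-t₀, y₀)`,
`p - c = (-α₀, β₀)`.
* `α₀ = t₀`, `β₀ = y₀` implies `c = 0`: contradiction.
* Let `α₀ ^ 3 = t₀ ^ 3` and `t₀ = 0` or `y₀ = 0`. Then `p ∈ Γ` (`y₀ = 0` gives `t₀ ^ 3 = 1`), and `α₀ ^ 3 = t₀ ^ 3 ∈ {0, 1}`, so
  `p - c ∈ Γ`, and `c` is a difference of elements of `Γ`: contradiction.
* Let `t₀ ∈ T` and `α₀ = 0` or `β₀ = 0`: `p ∈ Γ` and `p - c ∈ Γ`, contradiction.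
`α ≠ 0`, `β ≠ 0`: take a place `V` with `V.At t 5` (`ZCyc.exists_place`, applied to `t - 5`); all coordinates are regular there (`α` is,
because otherwise `p = c`, but `p ∈ Γ` and `c = p - 0`), and the third argument shows that the values `α₀`, `β₀` are not zero.

`sec_restr`: the values at a place of `K` are the values at the place of `Om k` above it.
-/

set_option autoImplicit false
set_option linter.unusedSectionVars false

noncomputable section

namespace Pool.Agent.CYS

open Pool.Agent.ZCyc Pool.Agent.Dess Pool.Agent.TInc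
open Pool.Agent.VFP (Om tt)
open Pool.Agent.GT
open scoped Classical

variable {k : Type} [Field k] [IsAlgClosed k] [CharZero k]

private theorem disc_k {K : Type} [Field K] [CharZero K] : (1 : K) ^ 2 ≠ 4 * (0 : K) ^ 3 := by
  norm_num

private theorem cz_Om : CharZero (Om k) :=
  charZero_of_injective_algebraMap (algebraMap k (Om k)).injective

/-- the points with the coordinate in a finite set, and the point at infinity -/
private def bad (S : Finset k) : Set (Ec (0 : k) (1 : k)).Point :=
  {P | ∀ x y h, P = .some x y h → x ∈ S}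

private theorem bad_finite (S : Finset k) : (bad S).Finite := by
  let M : Mp k 0 := ⟨fun _ => ∏ s ∈ S, (Polynomial.X - Polynomial.C s), fun _ => 0⟩
  have h1 : ∃ i, M.G i ≠ 0 ∨ M.H i ≠ 0 :=
    ⟨0, Or.inl (Finset.prod_ne_zero_iff.2 fun s _ => Polynomial.X_sub_C_ne_zero s)⟩
  refine (finite_bad (α := (0 : k)) (B := (1 : k)) h1).subset ?_
  intro P hP
  cases P with
  | zero => exact fun h => h
  | some x y h =>
    intro hM
    apply hM
    funext i
    have hx : x ∈ S := hP x y h rfl
    show (M.G i).eval x + (M.H i).eval x * y = 0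
    have h2 : (M.G i).eval x = 0 := by
      show (∏ s ∈ S, (Polynomial.X - Polynomial.C s)).eval x = 0
      rw [Polynomial.eval_prod]
      exact Finset.prod_eq_zero hx (by simp)
    have h3 : (M.H i).eval x = 0 := by
      show (0 : Polynomial k).eval x = 0
      simp
    rw [h2, h3]
    ring

private theorem exists_general (S : Finset k) : ∃ c : (Ec (0 : k) (1 : k)).Point,
    ∀ p ∈ bad S, ∀ q ∈ bad S, c ≠ p - q := by
  have hinf := infinite_points (K := k) (α := 0) (B := 1) disc_k
  have hfin : (Set.image2 (fun p q => p - q) (bad S) (bad S)).Finite :=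
    (bad_finite S).image2 _ (bad_finite S)
  obtain ⟨c, hc⟩ := hfin.exists_notMem
  exact ⟨c, fun p hp q hq h => hc ⟨p, hp, q, hq, h.symm⟩⟩

private theorem zero_bad (S : Finset k) : (0 : (Ec (0 : k) (1 : k)).Point) ∈ bad S := by
  intro x y h h0
  exact absurd h0 (by
    rw [WeierstrassCurve.Affine.Point.zero_def]
    exact fun h => by cases h)

private theorem some_bad {S : Finset k} {x y : k} (h : (Ec (0 : k) (1 : k)).Nonsingular x y)
    (hx : x ∈ S) : (.some x y h : (Ec (0 : k) (1 : k)).Point) ∈ bad S := by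
  intro x' y' h' he
  cases he
  exact hx

private theorem at_one' (V : Place k (Om k)) : V.At (1 : Om k) (1 : k) := by
  have := Place.at_const (v := V) (1 : k)
  rwa [map_one] at this

private theorem at_zero' (V : Place k (Om k)) : V.At (0 : Om k) (0 : k) := by
  have := Place.at_const (v := V) (0 : k)
  rwa [map_zero] at this

theorem exists_second {T : Set k} (hT : T.Finite) {t y : Om k} (ht : Transcendental k t)
    (hE : t ^ 3 + y ^ 2 = 1) : ∃ α β : Om k, α ^ 3 + β ^ 2 = 1 ∧ α ≠ 0 ∧ β ≠ 0 ∧
      ∀ V : Place k (Om k), Sec T V t y α β := by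
  have hcz := cz_Om (k := k)
  set S : Finset k := hT.toFinset.image (fun x => -x) ∪
    ({-5, 0} ∪ (Polynomial.X ^ 3 - Polynomial.C (-1 : k)).roots.toFinset) with hS
  have hS1 : ∀ x ∈ T, -x ∈ S := by
    intro x hx
    rw [hS, Finset.mem_union]
    exact Or.inl (Finset.mem_image.2 ⟨x, hT.mem_toFinset.2 hx, rfl⟩)
  have hS2 : (-5 : k) ∈ S := by
    rw [hS, Finset.mem_union, Finset.mem_union]
    exact Or.inr (Or.inl (by simp))
  have hS3 : (0 : k) ∈ S := by
    rw [hS, Finset.mem_union, Finset.mem_union]
    exact Or.inr (Or.inl (by simp))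
  have hS4 : ∀ x : k, x ^ 3 = -1 → x ∈ S := by
    intro x hx
    rw [hS, Finset.mem_union, Finset.mem_union]
    refine Or.inr (Or.inr ?_)
    rw [Multiset.mem_toFinset, Polynomial.mem_roots (Polynomial.X_pow_sub_C_ne_zero three_pos _),
      Polynomial.IsRoot.def]
    simp only [Polynomial.eval_sub, Polynomial.eval_pow, Polynomial.eval_X, Polynomial.eval_C]
    rw [hx, sub_self]
  obtain ⟨c, hc⟩ := exists_general S
  have hc0 : c ≠ 0 := by
    have := hc 0 (zero_bad S) 0 (zero_bad S)
    rwa [sub_zero] at this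
  -- the constant point
  obtain ⟨C, hC, hCt⟩ : ∃ C : (Ec (0 : Om k) (1 : Om k)).Point,
      (∀ V : Place k (Om k), PRed V C c) ∧ ∀ (s z : Om k)
        (h : (Ec (0 : Om k) (1 : Om k)).Nonsingular s z), Transcendental k s →
          (.some s z h) ≠ C := by
    cases c with
    | zero => exact absurd rfl hc0
    | some x z h =>
      have hxz := eqn_iff.1 h.1
      have hE1 : (algebraMap k (Om k) z) ^ 2 = (algebraMap k (Om k) x) ^ 3 -
          3 * 0 * (algebraMap k (Om k) x) + 1 := by
        rw [← map_pow, hxz]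
        simp
      refine ⟨.some _ _ (nonsing disc_k hE1), fun V => ⟨Place.at_const x, Place.at_const z⟩, ?_⟩
      intro s w h' hs he
      have h1 : s = algebraMap k (Om k) x := by
        cases he
        rfl
      rw [h1] at hs
      exact hs (isAlgebraic_algebraMap x)
  -- the first point
  have hE1 : y ^ 2 = (-t) ^ 3 - 3 * 0 * (-t) + 1 := by linear_combination hE
  set P : (Ec (0 : Om k) (1 : Om k)).Point := .some (-t) y (nonsing disc_k hE1) with hP
  have htt : Transcendental k (-t) := fun h => ht (by simpa using h.neg)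
  have hPC : P - C ≠ 0 := fun h => hCt _ _ _ htt (sub_eq_zero.1 h)
  have hred : ∀ (V : Place k (Om k)) (p : (Ec (0 : k) (1 : k)).Point), PRed V P p →
      PRed V (P - C) (p - c) := by
    intro V p hp
    rw [sub_eq_add_neg, sub_eq_add_neg]
    exact pred_add (at_zero' V) (at_one' V) disc_k hp (pred_neg (hC V))
  obtain ⟨a, b, hab, hPCe⟩ : ∃ (a b : Om k) (h : (Ec (0 : Om k) (1 : Om k)).Nonsingular a b),
      P - C = .some a b h := by
    cases hq : P - C with
    | zero => exact absurd hq hPC
    | some a b h => exact ⟨a, b, h, rfl⟩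
  have hE2 := eqn_iff.1 hab.1
  have key : ∀ (V : Place k (Om k)) (t₀ y₀ : k), V.At t t₀ → V.At y y₀ →
      ∃ h : (Ec (0 : k) (1 : k)).Nonsingular (-t₀) y₀, PRed V P (.some (-t₀) y₀ h) := by
    intro V t₀ y₀ h1 h2
    have h3 : t₀ ^ 3 + y₀ ^ 2 = 1 := by
      have h4 := (h1.pow 3).add (h2.pow 2)
      rw [hE] at h4
      exact h4.unique (at_one' V)
    have h5 : y₀ ^ 2 = (-t₀) ^ 3 - 3 * 0 * (-t₀) + 1 := by linear_combination h3
    exact ⟨nonsing disc_k h5, h1.neg, h2⟩
  have key2 : ∀ (V : Place k (Om k)) (a₀ b₀ : k), V.At a a₀ → V.At b b₀ →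
      ∃ h : (Ec (0 : k) (1 : k)).Nonsingular a₀ b₀, PRed V (P - C) (.some a₀ b₀ h) := by
    intro V a₀ b₀ h1 h2
    have h3 : b₀ ^ 2 = a₀ ^ 3 - 3 * 0 * a₀ + 1 := by
      have h4 := ((h1.pow 3).sub (((at_zero' V).mul (at_zero' V)).mul h1)).add (at_one' V)
      have h5 := h2.pow 2
      rw [hE2] at h5
      have h6 : a ^ 3 - 3 * 0 * a + 1 = a ^ 3 - 0 * 0 * a + 1 := by ring
      rw [h6] at h5
      have h7 := h5.unique h4
      rw [h7]
      ring
    refine ⟨nonsing disc_k h3, ?_⟩
    rw [hPCe]
    exact ⟨h1, h2⟩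
  -- a place where the values are not special
  have hspec : ∃ (V : Place k (Om k)) (a₀ b₀ : k), V.At a a₀ ∧ V.At b b₀ ∧ a₀ ∉ S := by
    obtain ⟨V, hV⟩ := exists_place ht 5
    obtain ⟨p, hp⟩ := exists_pred (at_zero' V) (at_one' V) disc_k P
    have hpb : p ∈ bad S := by
      cases p with
      | zero => exact zero_bad S
      | some x' y' h' =>
        have h1 : x' = -5 := hp.1.unique hV.neg
        exact some_bad h' (by rw [h1]; exact hS2)
    have hq := hred V p hp
    cases hqq : p - c with
    | zero =>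
      have h1 := hc p hpb 0 (zero_bad S)
      rw [sub_zero] at h1
      exact absurd (sub_eq_zero.1 hqq).symm h1
    | some a₀ b₀ h =>
      rw [hqq, hPCe] at hq
      refine ⟨V, a₀, b₀, hq.1, hq.2, fun h2 => ?_⟩
      have h1 := hc p hpb _ (some_bad h h2)
      rw [← hqq] at h1
      exact h1 (by abel)
  obtain ⟨V₁, a₁, b₁, hV1, hV2, hV3⟩ := hspec
  refine ⟨-a, b, by linear_combination hE2, ?_, ?_, ?_⟩
  · intro h
    have ha : a = 0 := neg_eq_zero.1 h
    rw [ha] at hV1
    exact hV3 (by rw [hV1.unique (at_zero' V₁)]; exact hS3)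
  · intro h
    have h1 : a ^ 3 = -1 := by
      rw [h] at hE2
      linear_combination -hE2
    have h2 := hV1.pow 3
    rw [h1] at h2
    exact hV3 (hS4 _ (h2.unique (at_one' V₁).neg))
  · intro V
    refine ⟨?_, ?_⟩
    · by_contra hcon
      push Not at hcon
      obtain ⟨h1, h2⟩ := hcon
      have hp : PRed V P (0 : (Ec (0 : k) (1 : k)).Point) := fun h => h1 (by
        have := V.ring.neg_mem _ h
        rwa [neg_neg] at this)
      have hq := hred V 0 hp
      rw [zero_sub, hPCe] at hq
      cases hqq : -c with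
      | zero => exact hc0 (neg_eq_zero.1 hqq)
      | some a₀ b₀ h =>
        rw [hqq] at hq
        exact h2 (hq.1.neg.mem)
    · intro t₀ y₀ α₀ β₀ h1 h2 h3 h4
      obtain ⟨hp0, hp⟩ := key V t₀ y₀ h1 h2
      have h3' : V.At a (-α₀) := by
        have := h3.neg
        rwa [neg_neg] at this
      obtain ⟨hq0, hq⟩ := key2 V (-α₀) β₀ h3' h4
      have hpq := pred_unique hq (hred V _ hp)
      have h5 : t₀ ^ 3 + y₀ ^ 2 = 1 := by
        have h5 := eqn_iff.1 hp0.1
        linear_combination h5
      have h6 : α₀ ^ 3 + β₀ ^ 2 = 1 := by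
        have h5 := eqn_iff.1 hq0.1
        linear_combination h5
      have hcon : -t₀ ∈ S → -α₀ ∈ S → False := by
        intro h7 h8
        have h9 := hc _ (some_bad hp0 h7) _ (some_bad hq0 h8)
        rw [hpq] at h9
        exact h9 (by abel)
      refine ⟨?_, ?_, ?_⟩
      · rintro ⟨h7, h8⟩
        subst h7 h8
        exact hc0 (sub_eq_self.1 hpq.symm)
      · intro h7
        have h8 : t₀ = 0 ∨ y₀ = 0 → False := by
          intro h8
          apply hcon
          · rcases h8 with h8 | h8
            · rw [h8, neg_zero]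
              exact hS3
            · rw [h8] at h5
              exact hS4 _ (by linear_combination -h5)
          · rcases h8 with h8 | h8
            · rw [h8] at h7
              have h9 : α₀ = 0 := by
                have : α₀ ^ 3 = 0 := by rw [h7]; ring
                exact pow_eq_zero_iff three_ne_zero |>.1 this
              rw [h9, neg_zero]
              exact hS3
            · rw [h8] at h5
              exact hS4 _ (by linear_combination -h5 - h7)
        exact ⟨fun h => h8 (Or.inl h), fun h => h8 (Or.inr h)⟩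
      · intro h7
        refine ⟨fun h8 => hcon (hS1 _ h7) ?_, fun h8 => hcon (hS1 _ h7) ?_⟩
        · rw [h8, neg_zero]
          exact hS3
        · rw [h8] at h6
          exact hS4 _ (by linear_combination -h6)

theorem sec_restr {K : Type} [Field K] [Algebra k K] {φ : K →ₐ[k] Om k} {v : Place k K}
    {V : Place k (Om k)} (h : V.ring.comap (φ : K →+* Om k) = v.ring) {T : Set k} {t y α β : K}
    (hS : Sec T V (φ t) (φ y) (φ α) (φ β)) : Sec T v t y α β := by
  have hm : ∀ x : K, x ∈ v.ring ↔ φ x ∈ V.ring := by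
    intro x
    rw [← h]
    exact Iff.rfl
  have hv : ∀ x : K, v.Vanishes x → V.Vanishes (φ x) := by
    intro x hx
    rw [Place.vanishes_iff_or] at hx ⊢
    rcases hx with hx | hx
    · exact Or.inl (by rw [hx, map_zero])
    · refine Or.inr fun h' => hx ?_
      rw [hm, map_inv₀]
      exact h'
  have ha : ∀ (x : K) (x₀ : k), v.At x x₀ → V.At (φ x) x₀ := by
    intro x x₀ hx
    have h1 := hv _ hx
    rw [map_sub, AlgHom.commutes] at h1
    exact h1
  refine ⟨?_, fun t₀ y₀ α₀ β₀ h1 h2 h3 h4 =>
    hS.2 t₀ y₀ α₀ β₀ (ha _ _ h1) (ha _ _ h2) (ha _ _ h3) (ha _ _ h4)⟩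
  rw [hm, hm]
  exact hS.1

end Pool.Agent.CYS
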