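import Pool.Agent.CYS.Glob
import Pool.Agent.CYS.Geo

/-!
# Coverings of order six: existence of the data

Proof of `exists_fin`. Let `K₀` be a curve (`CYU.exists_curve`) which contains the finite set `S`.
For every `x ∈ S`, `x ≠ 0`, only
finitely many places `v` of `K₀` have `ord v x ≠ 0`; let `T` be the set of the values of `tt k` at
these places (where it is
regular). Let `V` be a place of `Om k` with `V.At (tt k) t₀`, `t₀ ∉ T`; `V.ring.comap` is the ring
of a place `v` of `K₀` (it is not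
everything, because `tt k - t₀` vanishes at `V`), with `v.At (tt k) t₀`, so `ord v x = 0` for all
these `x`, and `x`, `x⁻¹` are in
`v.ring`.

Proof of `exists_dat`. In the algebraically closed field `Om k` let `t = tt k`, `y` with `y ^ 2 = 1
- t ^ 3`;
`(z.w ^ 2 t) ^ 3 + (z.w ^ 3 y) ^ 2 = z.w ^ 6`, so `exists_fam` gives a family `Φ` over `Om k` with
these coefficients of index
`0`. Let `c'` be as in `exists_ct`. Let `T` be as in `exists_fin` for the set of all coefficients of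
`Φ` and `c'`, and `α`, `β` as in
`exists_second`. Let `S` be the finite set of `t`, `y`, `α`, `β`, the `x1 i`, the coefficients of
`A`, `B`, `c`, `c'`, the `i`-th roots
(one for each) of the coefficients of index `i > 0` (the coefficients of index `> 2 e`, `> 3 e` are
zero, root `0`), a
`(6 e)`-th root of `c`, the roots of `Φ.Q α β`, a sixth root of `f(Φ.p s 1)` for each of them, and
one of
`f(Φ.p 1 0)`. `CYU.exists_curve` gives `K`; `Fam.restr` gives the family over `K`. For `unr` and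
`sec` use a place of `Om k` above the
given place of `K` (`TInc.exists_above`) and `sec_restr`.
-/

set_option autoImplicit false

noncomputable section

namespace Pool.Agent.CYS

open Pool.Agent.ZCyc Pool.Agent.Dess Pool.Agent.TInc Polynomial
open Pool.Agent.CYU (Cov Pt Mu mu hev Bi IsVal ctr Spec Inv)
open Pool.Agent.VFP (Om tt)

variable {k : Type} [Field k] [IsAlgClosed k] [CharZero k]

omit [IsAlgClosed k] [CharZero k] in
private lemma mem_above {K : IntermediateField k (Om k)} {v : Place k K} {V : Place k (Om k)}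
    (h : V.ring.comap ((K.val : K →ₐ[k] Om k) : K →+* Om k) = v.ring) (x : K) :
    (x : Om k) ∈ V.ring ↔ x ∈ v.ring := by
  rw [← h, ValuationSubring.mem_comap]
  rfl

omit [IsAlgClosed k] [CharZero k] in
private lemma at_above {K : IntermediateField k (Om k)} {v : Place k K} {V : Place k (Om k)}
    (h : V.ring.comap ((K.val : K →ₐ[k] Om k) : K →+* Om k) = v.ring) (x : K) (c : k) :
    V.At (x : Om k) c ↔ v.At x c := by
  unfold Place.At
  rw [Place.vanishes_iff_or, Place.vanishes_iff_or]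
  have e1 : (x : Om k) - algebraMap k (Om k) c = ((x - algebraMap k K c : K) : Om k) := rfl
  rw [e1]
  have e2 : (((x - algebraMap k K c : K) : Om k))⁻¹ = (((x - algebraMap k K c)⁻¹ : K) : Om k) := rfl
  rw [e2, mem_above h]
  have e3 : ((x - algebraMap k K c : K) : Om k) = 0 ↔ x - algebraMap k K c = 0 := by
    constructor
    · intro h0
      exact Subtype.ext h0
    · intro h0
      rw [h0]
      rfl
  rw [e3]

theorem exists_fin {S : Set (Om k)} (hS : S.Finite) : ∃ T : Set k, T.Finite ∧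
    ∀ (V : Place k (Om k)) (t₀ : k), V.At (tt k) t₀ → t₀ ∉ T →
      ∀ x ∈ S, x ∈ V.ring ∧ (x ≠ 0 → x⁻¹ ∈ V.ring) := by
  classical
  obtain ⟨K, hK, htK, hSK⟩ := CYU.exists_curve S hS
  have hB : (⋃ x ∈ S, {v : Place k K | ∃ h : x ∈ K, ord v (⟨x, h⟩ : K) ≠ 0}).Finite := by
    refine hS.biUnion fun x hx => ?_
    refine (finite_ord hK (⟨x, hSK hx⟩ : K)).subset ?_
    rintro v ⟨_, hv⟩
    exact hv
  refine ⟨{t₀ | ∃ v ∈ (⋃ x ∈ S, {v : Place k K | ∃ h : x ∈ K, ord v (⟨x, h⟩ : K) ≠ 0}),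
    v.At (⟨tt k, htK⟩ : K) t₀}, ?_, ?_⟩
  · have hone : ∀ v : Place k K, {t₀ | v.At (⟨tt k, htK⟩ : K) t₀}.Finite := fun v =>
      Set.Subsingleton.finite fun a ha b hb => Place.At.unique ha hb
    refine (hB.biUnion fun v _ => hone v).subset ?_
    rintro t₀ ⟨v, hv, ht⟩
    exact Set.mem_biUnion hv ht
  · intro V t₀ hV ht₀ x hx
    obtain ⟨v, hv⟩ := exists_below hK V K.val
    have h1 : v.At (⟨tt k, htK⟩ : K) t₀ := (at_above hv _ _).1 hV
    have h2 : ord v (⟨x, hSK hx⟩ : K) = 0 := by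
      by_contra hne
      exact ht₀ ⟨v, Set.mem_biUnion hx ⟨hSK hx, hne⟩, h1⟩
    by_cases hx0 : x = 0
    · subst hx0
      exact ⟨zero_mem _, fun h => absurd rfl h⟩
    · have hne : (⟨x, hSK hx⟩ : K) ≠ 0 := fun h => hx0 (congrArg Subtype.val h)
      have h3 : (⟨x, hSK hx⟩ : K) ∈ v.ring := (mem_iff_ord hK hne).2 h2.ge
      have h4 : (⟨x, hSK hx⟩ : K)⁻¹ ∈ v.ring := by
        refine (mem_iff_ord hK (inv_ne_zero hne)).2 ?_
        rw [ord_inv hK, h2, neg_zero]
      refine ⟨(mem_above hv _).2 h3, fun _ => ?_⟩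
      exact (mem_above hv (⟨x, hSK hx⟩ : K)⁻¹).2 h4

theorem exists_dat {W : Cov k 6} (hn : W.e ≤ W.n) {z : Pt W k} (hz : z.w ≠ 0) :
    ∃ K : IntermediateField k (Om k), IsCurve k K ∧ Nonempty (Dat W z K) := by
  classical
  have hroot : ∀ (x : Om k) (n : ℕ), 0 < n → ∃ y : Om k, y ^ n = x := fun x n hn =>
    IsAlgClosed.exists_pow_nat_eq x hn
  obtain ⟨y, hy⟩ := hroot (1 - tt k ^ 3) 2 two_pos
  have hE : tt k ^ 3 + y ^ 2 = 1 := by
    rw [hy]
    ring
  have h0 : (algebraMap k (Om k) (z.w ^ 2) * tt k) ^ 3 + (algebraMap k (Om k) (z.w ^ 3) * y) ^ 2 =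
      algebraMap k (Om k) (z.w ^ 6) := by
    rw [mul_pow, mul_pow, ← map_pow, ← map_pow, ← pow_mul, ← pow_mul, ← mul_add, hE, mul_one]
  obtain ⟨Φ, hA, hB⟩ := exists_fam hn z h0
  obtain ⟨c', hc'⟩ := exists_ct hz Φ
  have ha := Set.finite_Iic (Φ.A.natDegree)
  have hb := Set.finite_Iic (Φ.B.natDegree)
  obtain ⟨T, hT, hTV⟩ := exists_fin (k := k)
    (S := {c'} ∪ (Set.range Φ.x1 ∪ (Φ.A.coeff '' Set.Iic (Φ.A.natDegree) ∪
      Φ.B.coeff '' Set.Iic (Φ.B.natDegree))))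
    ((Set.finite_singleton _).union ((Set.finite_range _).union ((ha.image _).union
      (hb.image _))))
  obtain ⟨α, β, hE', hα, hβ, hsec⟩ := exists_second hT CYU.transc_tt hE
  have hrA0 : ∀ i : ℕ, ∃ ρ : Om k, 0 < i → ρ ^ i = Φ.A.coeff i := fun i => by
    rcases Nat.eq_zero_or_pos i with h | h
    · exact ⟨0, fun h' => absurd h' (by omega)⟩
    · obtain ⟨ρ, hρ⟩ := hroot (Φ.A.coeff i) i h
      exact ⟨ρ, fun _ => hρ⟩
  have hrB0 : ∀ i : ℕ, ∃ ρ : Om k, 0 < i → ρ ^ i = Φ.B.coeff i := fun i => by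
    rcases Nat.eq_zero_or_pos i with h | h
    · exact ⟨0, fun h' => absurd h' (by omega)⟩
    · obtain ⟨ρ, hρ⟩ := hroot (Φ.B.coeff i) i h
      exact ⟨ρ, fun _ => hρ⟩
  choose rA hrA using hrA0
  choose rB hrB using hrB0
  obtain ⟨rc, hrc⟩ := hroot Φ.c (6 * W.e) (Nat.mul_pos (by norm_num) W.pos)
  choose ws hws using fun s : Om k => hroot (MvPolynomial.aeval (Φ.p s 1) W.f) 6 (by norm_num)
  obtain ⟨w0, hw0⟩ := hroot (MvPolynomial.aeval (Φ.p 1 0) W.f) 6 (by norm_num)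
  have hR := (Φ.Q α β).roots.toFinset.finite_toSet
  have hS0 : ({y, c', Φ.c, rc, w0, α, β} : Set (Om k)).Finite := Set.toFinite _
  obtain ⟨K, hK, htK, hSK⟩ := CYU.exists_curve
    (({y, c', Φ.c, rc, w0, α, β} : Set (Om k)) ∪ (Set.range Φ.x1 ∪
      (Φ.A.coeff '' Set.Iic (Φ.A.natDegree) ∪ (Φ.B.coeff '' Set.Iic (Φ.B.natDegree) ∪
        (rA '' Set.Iic (Φ.A.natDegree) ∪ (rB '' Set.Iic (Φ.B.natDegree) ∪
          (((Φ.Q α β).roots.toFinset : Set (Om k)) ∪
            ws '' ((Φ.Q α β).roots.toFinset : Set (Om k)))))))))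
    (hS0.union ((Set.finite_range _).union ((ha.image _).union ((hb.image _).union
      ((ha.image _).union ((hb.image _).union (hR.union (hR.image _))))))))
  obtain ⟨k0, k1⟩ := Set.union_subset_iff.1 hSK
  obtain ⟨k1, k2⟩ := Set.union_subset_iff.1 k1
  obtain ⟨k2, k3⟩ := Set.union_subset_iff.1 k2
  obtain ⟨k3, k4⟩ := Set.union_subset_iff.1 k3
  obtain ⟨k4, k5⟩ := Set.union_subset_iff.1 k4
  obtain ⟨k5, k6⟩ := Set.union_subset_iff.1 k5
  obtain ⟨k6, k7⟩ := Set.union_subset_iff.1 k6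
  have hyK : y ∈ K := k0 (by simp)
  have hc'K : c' ∈ K := k0 (by simp)
  have hcK : Φ.c ∈ K := k0 (by simp)
  have hrcK : rc ∈ K := k0 (by simp)
  have hw0K : w0 ∈ K := k0 (by simp)
  have hαK : α ∈ K := k0 (by simp)
  have hβK : β ∈ K := k0 (by simp)
  have hxK : ∀ i, Φ.x1 i ∈ K := fun i => k1 ⟨i, rfl⟩
  have hAK : ∀ i, Φ.A.coeff i ∈ K := fun i => by
    by_cases h : i ≤ Φ.A.natDegree
    · exact k2 ⟨i, h, rfl⟩
    · rw [coeff_eq_zero_of_natDegree_lt (by omega)]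
      exact zero_mem K
  have hBK : ∀ i, Φ.B.coeff i ∈ K := fun i => by
    by_cases h : i ≤ Φ.B.natDegree
    · exact k3 ⟨i, h, rfl⟩
    · rw [coeff_eq_zero_of_natDegree_lt (by omega)]
      exact zero_mem K
  obtain ⟨Ψ, e1, e2, e3, e4⟩ := Φ.restr hxK hAK hBK hcK
  have eA : Ψ.A.map (algebraMap K (Om k)) = Φ.A := by
    ext i
    rw [coeff_map]
    exact e2 i
  have eB : Ψ.B.map (algebraMap K (Om k)) = Φ.B := by
    ext i
    rw [coeff_map]
    exact e3 i
  have eQ : (Ψ.Q ⟨α, hαK⟩ ⟨β, hβK⟩).map (algebraMap K (Om k)) = Φ.Q α β := by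
    unfold Fam.Q
    rw [Polynomial.map_sub, Polynomial.map_mul, Polynomial.map_mul, Polynomial.map_pow,
      Polynomial.map_pow, map_C, map_C, eA, eB]
    rfl
  have ep : ∀ (s t : K), algebraMap K (Om k) (MvPolynomial.aeval (Ψ.p s t) W.f) =
      MvPolynomial.aeval (Φ.p s t) W.f := fun s t => by
    rw [← MvPolynomial.aeval_algebraMap_apply]
    congr 2
    funext i
    change ((algebraMap k K (z.x i) * t + Ψ.x1 i * s : K) : Om k) =
      algebraMap k (Om k) (z.x i) * t + Φ.x1 i * s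
    rw [← e1 i]
    rfl
  have hinj : Function.Injective (algebraMap K (Om k)) := (algebraMap K (Om k)).injective
  refine ⟨K, hK, ⟨{
    t := ⟨tt k, htK⟩
    y := ⟨y, hyK⟩
    ht := ?_
    hE := Subtype.ext hE
    α := ⟨α, hαK⟩
    β := ⟨β, hβK⟩
    hE' := Subtype.ext hE'
    hα := fun h => hα (congrArg Subtype.val h)
    hβ := fun h => hβ (congrArg Subtype.val h)
    Φ := Ψ
    hA := Subtype.ext ((e2 0).trans hA)
    hB := Subtype.ext ((e3 0).trans hB)
    c' := ⟨c', hc'K⟩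
    hc' := ?_
    rad := ⟨fun i hi => ?_, fun i hi => ?_, ⟨rc, hrcK⟩, ?_⟩
    T := T
    unr := fun v t₀ ht₀ hT₀ => ?_
    sec := fun v => ?_
    split := ?_
    six := fun s hs => ?_
    six' := ⟨⟨w0, hw0K⟩, ?_⟩ }⟩⟩
  · intro h
    exact CYU.transc_tt (k := k) (h.algHom K.val)
  · obtain ⟨h1, h2⟩ := hc'
    refine ⟨fun h => h1 (congrArg Subtype.val h), ?_⟩
    rcases h2 with h2 | ⟨h2, i, h3⟩
    · exact Or.inl (Subtype.ext (h2.trans e4.symm))
    · refine Or.inr ⟨Subtype.ext (e4.trans h2), i, Subtype.ext ?_⟩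
      change c' = ((Ψ.x1 i ^ (6 * W.e) : K) : Om k)
      rw [h3, ← e1 i]
      rfl
  · by_cases h : i ≤ Φ.A.natDegree
    · refine ⟨⟨rA i, k4 ⟨i, h, rfl⟩⟩, Subtype.ext ?_⟩
      exact (hrA i hi).trans (e2 i).symm
    · refine ⟨0, ?_⟩
      rw [zero_pow hi.ne']
      refine Subtype.ext ?_
      rw [e2 i, coeff_eq_zero_of_natDegree_lt (by omega)]
      rfl
  · by_cases h : i ≤ Φ.B.natDegree
    · refine ⟨⟨rB i, k5 ⟨i, h, rfl⟩⟩, Subtype.ext ?_⟩
      exact (hrB i hi).trans (e3 i).symm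
    · refine ⟨0, ?_⟩
      rw [zero_pow hi.ne']
      refine Subtype.ext ?_
      rw [e3 i, coeff_eq_zero_of_natDegree_lt (by omega)]
      rfl
  · exact Subtype.ext (hrc.trans e4.symm)
  · obtain ⟨V, hV⟩ := exists_above hK v K.val
    have h1 : V.At (tt k) t₀ := (at_above hV (⟨tt k, htK⟩ : K) t₀).2 ht₀
    have h2 := hTV V t₀ h1 hT₀
    refine ⟨fun i => ?_, fun i => ?_, fun i => ?_, ?_, ?_⟩
    · rw [← mem_above hV, e1 i]
      exact (h2 _ (Or.inr (Or.inl ⟨i, rfl⟩))).1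
    · rw [← mem_above hV, e2 i]
      by_cases h : i ≤ Φ.A.natDegree
      · exact (h2 _ (Or.inr (Or.inr (Or.inl ⟨i, h, rfl⟩)))).1
      · rw [coeff_eq_zero_of_natDegree_lt (by omega)]
        exact zero_mem _
    · rw [← mem_above hV, e3 i]
      by_cases h : i ≤ Φ.B.natDegree
      · exact (h2 _ (Or.inr (Or.inr (Or.inr ⟨i, h, rfl⟩)))).1
      · rw [coeff_eq_zero_of_natDegree_lt (by omega)]
        exact zero_mem _
    · exact (mem_above hV (⟨c', hc'K⟩ : K)).1 (h2 c' (Or.inl rfl)).1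
    · exact (mem_above hV (⟨c', hc'K⟩ : K)⁻¹).1 ((h2 c' (Or.inl rfl)).2 hc'.1)
  · obtain ⟨V, hV⟩ := exists_above hK v K.val
    exact sec_restr hV (hsec V)
  · refine (Splits.natDegree_eq_card_roots (Splits.of_splits_map (algebraMap K (Om k))
      (IsAlgClosed.splits _) fun a ha => ?_)).symm
    rw [eQ] at ha
    exact ⟨⟨a, k6 (by simpa using ha)⟩, rfl⟩
  · have hs' : (s : Om k) ∈ (Φ.Q α β).roots := by
      have h1 : Ψ.Q ⟨α, hαK⟩ ⟨β, hβK⟩ ≠ 0 := by
        intro h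
        rw [h, roots_zero] at hs
        exact absurd hs (Multiset.notMem_zero _)
      have h2 := (mem_roots h1).1 hs
      have h3 := IsRoot.map (f := algebraMap K (Om k)) h2
      rw [eQ] at h3
      refine (mem_roots ?_).2 h3
      rw [← eQ, Ne, Polynomial.map_eq_zero_iff hinj]
      exact h1
    refine ⟨⟨ws s, k7 ⟨s, by simpa using hs', rfl⟩⟩, hinj ?_⟩
    rw [ep, map_pow]
    exact hws s
  · apply hinj
    rw [ep, map_pow]
    exact hw0

end Pool.Agent.CYS
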