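import Pool.Agent.CYU.FamA

/-!
# Coverings of order six: lines `p(T)` with `f(p(T)) = A(T) ^ 3 + B(T) ^ 2 + c T ^ (6 e)`

`W` is a covering `w ^ 6 = f(x)` of the projective space of dimension `n`, `f` a form of degree
`6 e`. The elliptic curve is `α ^ 3 + β ^ 2 = 1`; the sixth roots of unity act on it by
`(α, β) ↦ (a ^ (-2) α, a ^ (-3) β)`.

Proof of `exists_fam`. As in `CYU.exists_fam`: the unknowns are the coordinates `x1 i`, `i ≠ i₀`,
and the coefficients of `A` with the indices `1, …, 2 e` and of `B` with the indices `1, …, 3 e`,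
`n + 5 e` unknowns; `6 e - 1` equations (use the general lemma on lines with `f(z.x + x1 T) = A ^ i
+ B ^ j + c T ^ D` of `CYU/FamA`).

`Fam.heval`: the homogeneous form of `eq`; for `t ≠ 0` it is `t ^ (6 e)` times `eq` at `s / t`,
for `t = 0` the coefficient of `T ^ (6 e)` in `eq`.
`Fam.om_spec`: if `a = 0` then `b = 0` (`α ≠ 0`) and `om = 0`; otherwise `om = b α / (a β)`,
`om ^ 2 = a / α` by `β ^ 2 a ^ 3 = α ^ 3 b ^ 2`, so `om ^ 3 = b / β`, and
`om ^ 6 = a ^ 3 / α ^ 3 = a ^ 3 + b ^ 2` by `α ^ 3 + β ^ 2 = 1`.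
`Fam.x1_ne`: if `c = 0` then `x1 ≠ 0`: otherwise `A ^ 3 + B ^ 2 = f(z.x) = z.w ^ 6` is constant, not
zero, so `A` and `B` are constant (`CYU.const_of`), contradiction to `nt`.
`exists_ct`: if `c ≠ 0` take `c`, otherwise `x1 i ≠ 0` for some `i` and `c' = x1 i ^ (6 e)`.
-/

set_option autoImplicit false

noncomputable section

namespace Pool.Agent.CYS

open Pool.Agent.ZCyc Pool.Agent.Dess Pool.Agent.TInc Polynomial
open Pool.Agent.CYU (Cov Pt Mu mu hev)

variable {k : Type} [Field k]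

/-- A line `p(T) = z.x + x1 T` through the point `z.x`, `x1 i₀ = 0`, and polynomials `A`, `B` of
degree at most `2 e`, `3 e`, with `f(p(T)) = A(T) ^ 3 + B(T) ^ 2 + c T ^ (6 e)`, not all
constant. -/
structure Fam (W : Cov k 6) (z : Pt W k) (K : Type) [Field K] [Algebra k K] where
  i₀ : Fin (W.n + 1)
  hi₀ : z.x i₀ ≠ 0
  x1 : Fin (W.n + 1) → K
  h1 : x1 i₀ = 0
  A : K[X]
  B : K[X]
  degA : A.natDegree ≤ 2 * W.e
  degB : B.natDegree ≤ 3 * W.e
  c : K
  eq : MvPolynomial.aeval (fun i => C (algebraMap k K (z.x i)) + C (x1 i) * X) W.f =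
    A ^ 3 + B ^ 2 + C c * X ^ (6 * W.e)
  nt : x1 ≠ 0 ∨ A.natDegree ≠ 0 ∨ B.natDegree ≠ 0

variable {W : Cov k 6} {z : Pt W k} {K : Type} [Field K] [Algebra k K]

/-- the point of the line with the parameter `(s : t)` -/
def Fam.p (Φ : Fam W z K) (s t : K) : Fin (W.n + 1) → K := fun i =>
  algebraMap k K (z.x i) * t + Φ.x1 i * s

/-- the form which belongs to `A` -/
def Fam.a (Φ : Fam W z K) (s t : K) : K := hev Φ.A (2 * W.e) s t

/-- the form which belongs to `B` -/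
def Fam.b (Φ : Fam W z K) (s t : K) : K := hev Φ.B (3 * W.e) s t

/-- the polynomial whose roots are the `s` with `β ^ 2 A(s) ^ 3 = α ^ 3 B(s) ^ 2` -/
def Fam.Q (Φ : Fam W z K) (α β : K) : K[X] := C (β ^ 2) * Φ.A ^ 3 - C (α ^ 3) * Φ.B ^ 2

/-- the number `ω` with `a = α ω ^ 2`, `b = β ω ^ 3` -/
def Fam.om (Φ : Fam W z K) (α β s t : K) : K := Φ.b s t * α / (Φ.a s t * β)

theorem Fam.heval (Φ : Fam W z K) (s t : K) :
    MvPolynomial.aeval (Φ.p s t) W.f =
      Φ.a s t ^ 3 + Φ.b s t ^ 2 + Φ.c * s ^ (6 * W.e) := by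
  have h1 := CYU.aeval_line W.hom (fun i => algebraMap k K (z.x i)) Φ.x1 s t
  have h2 : MvPolynomial.aeval (Φ.p s t) W.f =
      hev (Φ.A ^ 3 + Φ.B ^ 2 + C Φ.c * X ^ (6 * W.e)) (6 * W.e) s t := by
    rw [← Φ.eq, ← h1]
    rfl
  have h3 := CYU.hev_pow Φ.degA 3 s t
  have h4 := CYU.hev_pow Φ.degB 2 s t
  rw [show 3 * (2 * W.e) = 6 * W.e by ring] at h3
  rw [show 2 * (3 * W.e) = 6 * W.e by ring] at h4
  rw [h2, CYU.hev_add, CYU.hev_add, CYU.hev_C_mul, CYU.hev_X_pow, h3, h4]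
  rfl

theorem Fam.p_ne (Φ : Fam W z K) {s t : K} (ht : t ≠ 0) : Φ.p s t ≠ 0 := by
  intro h
  have h1 := congrFun h Φ.i₀
  unfold Fam.p at h1
  rw [Φ.h1, zero_mul, add_zero, Pi.zero_apply, mul_eq_zero, map_eq_zero] at h1
  rcases h1 with h1 | h1
  · exact Φ.hi₀ h1
  · exact ht h1

theorem Fam.base (Φ : Fam W z K) : Φ.A.coeff 0 ^ 3 + Φ.B.coeff 0 ^ 2 =
    algebraMap k K (z.w ^ 6) := by
  have h0 : ∀ P : K[X], (evalRingHom (0 : K)) P = P.coeff 0 := fun P => by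
    rw [coe_evalRingHom, coeff_zero_eq_eval_zero]
  have h1 : (evalRingHom (0 : K)) (MvPolynomial.aeval
      (fun i => C (algebraMap k K (z.x i)) + C (Φ.x1 i) * X) W.f) =
      algebraMap k K (z.w ^ 6) := by
    have h2 := MvPolynomial.eval₂_comp_left (evalRingHom (0 : K)) (algebraMap k K[X])
      (fun l => C (algebraMap k K (z.x l)) + C (Φ.x1 l) * X) W.f
    rw [MvPolynomial.aeval_def, h2, z.on]
    have h3 : (fun l => algebraMap k K (z.x l)) =
        (evalRingHom (0 : K)) ∘ (fun l => C (algebraMap k K (z.x l)) + C (Φ.x1 l) * X) := by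
      funext l
      simp
    have h4 : (evalRingHom (0 : K)).comp (algebraMap k K[X]) = algebraMap k K := by
      ext t
      simp [Polynomial.algebraMap_apply]
    rw [← h3, h4]
    have h5 := MvPolynomial.aeval_algebraMap_apply (B := K) z.x W.f
    rw [MvPolynomial.aeval_def] at h5
    exact h5
  have hme : 6 * W.e ≠ 0 := mul_ne_zero (by norm_num) W.pos.ne'
  rw [Φ.eq, map_add, map_add, map_pow, map_pow, map_mul, map_pow, h0, h0] at h1
  rw [← h1]
  simp [hme]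

theorem Fam.q_deg (Φ : Fam W z K) (α β : K) : (Φ.Q α β).natDegree ≤ 6 * W.e := by
  refine (natDegree_sub_le _ _).trans (max_le ?_ ?_)
  · refine (natDegree_C_mul_le _ _).trans ((natDegree_pow_le_of_le 3 Φ.degA).trans (le_of_eq ?_))
    ring
  · refine (natDegree_C_mul_le _ _).trans ((natDegree_pow_le_of_le 2 Φ.degB).trans (le_of_eq ?_))
    ring

/-- the form which belongs to `Q` -/
theorem Fam.q_hev (Φ : Fam W z K) (α β s t : K) :
    hev (Φ.Q α β) (6 * W.e) s t = β ^ 2 * Φ.a s t ^ 3 - α ^ 3 * Φ.b s t ^ 2 := by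
  have h3 := CYU.hev_pow Φ.degA 3 s t
  have h4 := CYU.hev_pow Φ.degB 2 s t
  rw [show 3 * (2 * W.e) = 6 * W.e by ring] at h3
  rw [show 2 * (3 * W.e) = 6 * W.e by ring] at h4
  rw [Fam.Q, CYU.hev_sub, CYU.hev_C_mul, CYU.hev_C_mul, h3, h4]
  rfl

theorem Fam.q_zero (Φ : Fam W z K) (α β : K) :
    (Φ.Q α β).coeff 0 = β ^ 2 * Φ.A.coeff 0 ^ 3 - α ^ 3 * Φ.B.coeff 0 ^ 2 := by
  rw [Fam.Q, coeff_sub, coeff_C_mul, coeff_C_mul]
  have h : ∀ (P : K[X]) (n : ℕ), (P ^ n).coeff 0 = P.coeff 0 ^ n := fun P n => by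
    rw [coeff_zero_eq_eval_zero, coeff_zero_eq_eval_zero, eval_pow]
  rw [h, h]

/-- at the roots of `Q` -/
theorem Fam.root (Φ : Fam W z K) {α β : K} (h : Φ.Q α β ≠ 0) :
    (∀ s ∈ (Φ.Q α β).roots, β ^ 2 * Φ.a s 1 ^ 3 = α ^ 3 * Φ.b s 1 ^ 2) ∧
      ((Φ.Q α β).natDegree < 6 * W.e → β ^ 2 * Φ.a 1 0 ^ 3 = α ^ 3 * Φ.b 1 0 ^ 2) := by
  constructor
  · intro s hs
    have h1 : (Φ.Q α β).eval s = 0 := (mem_roots h).1 hs
    have h2 := Φ.q_hev α β s 1
    rw [CYU.hev_one (Φ.q_deg α β), h1] at h2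
    exact (sub_eq_zero.1 h2.symm)
  · intro hd
    have h2 := Φ.q_hev α β 1 0
    rw [CYU.hev_t_zero, coeff_eq_zero_of_natDegree_lt hd, zero_mul] at h2
    exact (sub_eq_zero.1 h2.symm)

theorem Fam.om_spec (Φ : Fam W z K) {α β : K} (hα : α ≠ 0) (hβ : β ≠ 0)
    (hE : α ^ 3 + β ^ 2 = 1) {s t : K} (h : β ^ 2 * Φ.a s t ^ 3 = α ^ 3 * Φ.b s t ^ 2) :
    Φ.a s t = α * Φ.om α β s t ^ 2 ∧ Φ.b s t = β * Φ.om α β s t ^ 3 ∧
      Φ.om α β s t ^ 6 = Φ.a s t ^ 3 + Φ.b s t ^ 2 := by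
  by_cases ha : Φ.a s t = 0
  · have hb : Φ.b s t = 0 := by
      rw [ha, zero_pow (by norm_num), mul_zero] at h
      have h1 := (mul_eq_zero.1 h.symm).resolve_left (pow_ne_zero 3 hα)
      exact pow_eq_zero_iff (by norm_num) |>.1 h1
    have ho : Φ.om α β s t = 0 := by
      rw [Fam.om, hb, zero_mul, zero_div]
    rw [ho, ha, hb]
    simp
  · have ho : Φ.om α β s t ^ 2 = Φ.a s t / α := by
      rw [Fam.om, div_pow, div_eq_div_iff (pow_ne_zero 2 (mul_ne_zero ha hβ)) hα]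
      linear_combination -h
    have ho3 : Φ.om α β s t ^ 3 = Φ.b s t / β := by
      have e : Φ.om α β s t ^ 3 = Φ.om α β s t ^ 2 * Φ.om α β s t := by ring
      rw [e, ho, Fam.om]
      field_simp
    have hA : Φ.a s t = α * Φ.om α β s t ^ 2 := by
      rw [ho]
      field_simp
    have hB : Φ.b s t = β * Φ.om α β s t ^ 3 := by
      rw [ho3]
      field_simp
    refine ⟨hA, hB, ?_⟩
    have h6 : Φ.a s t ^ 3 + Φ.b s t ^ 2 = (α * Φ.om α β s t ^ 2) ^ 3 +
        (β * Φ.om α β s t ^ 3) ^ 2 := by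
      rw [← hA, ← hB]
    rw [h6]
    linear_combination (-Φ.om α β s t ^ 6) * hE

theorem Fam.om_unique (Φ : Fam W z K) {α β : K} (hα : α ≠ 0) (hβ : β ≠ 0) {s t ω : K}
    (ha : Φ.a s t = α * ω ^ 2) (hb : Φ.b s t = β * ω ^ 3) : ω = Φ.om α β s t := by
  rw [Fam.om, ha, hb]
  by_cases hω : ω = 0
  · rw [hω]
    simp
  · field_simp

/-- homotheties: `a`, `b` are multiplied by `c ^ (2 e)`, `c ^ (3 e)` -/
theorem Fam.smul (Φ : Fam W z K) {c : K} (hc : c ≠ 0) (α β s t : K) :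
    Φ.a (c * s) (c * t) = c ^ (2 * W.e) * Φ.a s t ∧
      Φ.b (c * s) (c * t) = c ^ (3 * W.e) * Φ.b s t ∧
        Φ.om α β (c * s) (c * t) = c ^ W.e * Φ.om α β s t := by
  have h1 : Φ.a (c * s) (c * t) = c ^ (2 * W.e) * Φ.a s t := CYU.hev_smul Φ.A _ c s t
  have h2 : Φ.b (c * s) (c * t) = c ^ (3 * W.e) * Φ.b s t := CYU.hev_smul Φ.B _ c s t
  refine ⟨h1, h2, ?_⟩
  rw [Fam.om, Fam.om, h1, h2]
  have e : c ^ (3 * W.e) = c ^ (2 * W.e) * c ^ W.e := by
    rw [← pow_add]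
    congr 1
    ring
  rw [e, show c ^ (2 * W.e) * c ^ W.e * Φ.b s t * α = c ^ (2 * W.e) * (c ^ W.e * Φ.b s t * α) by
    ring, show c ^ (2 * W.e) * Φ.a s t * β = c ^ (2 * W.e) * (Φ.a s t * β) by ring,
    mul_div_mul_left _ _ (pow_ne_zero _ hc)]
  ring

/-- the number `c'` which replaces `c` -/
def Ct (Φ : Fam W z K) (c' : K) : Prop :=
  c' ≠ 0 ∧ (c' = Φ.c ∨ (Φ.c = 0 ∧ ∃ i, c' = Φ.x1 i ^ (6 * W.e)))

theorem Fam.x1_ne [CharZero k] (hz : z.w ≠ 0) (Φ : Fam W z K) (h : Φ.c = 0) : Φ.x1 ≠ 0 := by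
  intro hx
  have : CharZero K := charZero_of_injective_algebraMap (algebraMap k K).injective
  have h1 := Φ.eq
  have h2 : (fun i => C (algebraMap k K (z.x i)) + C (Φ.x1 i) * X) =
      fun i => (C (algebraMap k K (z.x i)) : K[X]) := by
    funext i
    rw [hx, Pi.zero_apply, C_0, zero_mul, add_zero]
  rw [h2, CYU.aeval_const, h, C_0, zero_mul, add_zero] at h1
  have h3 : algebraMap k K (z.w ^ 6) ≠ 0 := by
    rw [Ne, map_eq_zero]
    exact pow_ne_zero 6 hz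
  obtain ⟨h4, h5⟩ := CYU.const_of (by norm_num) (by norm_num) (by norm_num) h3 h1.symm
  rcases Φ.nt with h6 | h6 | h6
  · exact h6 hx
  · exact h6 h4
  · exact h6 h5

theorem exists_ct [CharZero k] (hz : z.w ≠ 0) (Φ : Fam W z K) : ∃ c', Ct Φ c' := by
  by_cases h : Φ.c = 0
  · obtain ⟨i, hi⟩ := Function.ne_iff.1 (Φ.x1_ne hz h)
    exact ⟨Φ.x1 i ^ (6 * W.e), pow_ne_zero _ hi, Or.inr ⟨h, i, rfl⟩⟩
  · exact ⟨Φ.c, h, Or.inl rfl⟩

theorem exists_fam [IsAlgClosed k] [CharZero k] [IsAlgClosed K] (hn : W.e ≤ W.n) (z : Pt W k)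
    {a0 b0 : K} (h : a0 ^ 3 + b0 ^ 2 = algebraMap k K (z.w ^ 6)) :
    ∃ Φ : Fam W z K, Φ.A.coeff 0 = a0 ∧ Φ.B.coeff 0 = b0 := by
  obtain ⟨i₀, hi₀⟩ := Function.ne_iff.1 z.ne
  obtain ⟨x1, A, B, c, h1, h2, h3, h4, h5, h6, h7⟩ := CYU.exists_line (K := K)
    (n := W.n) (a := 2 * W.e) (b := 3 * W.e) (D := 6 * W.e) (i := 3) (j := 2)
    (Nat.mul_pos (by omega) W.pos) W.hom z.x i₀ (by ring) (by ring) (by omega)
    (a0 := a0) (b0 := b0) (by rw [h, z.on])
  exact ⟨⟨i₀, hi₀, x1, h1, A, B, h2, h3, c, h6, h7⟩, h4, h5⟩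

/-- the same family over a larger field -/
def Fam.map {L : Type} [Field L] [Algebra k L] (Φ : Fam W z K) (φ : K →ₐ[k] L) :
    Fam W z L where
  i₀ := Φ.i₀
  hi₀ := Φ.hi₀
  x1 i := φ (Φ.x1 i)
  h1 := by rw [Φ.h1, map_zero]
  A := Φ.A.map φ
  B := Φ.B.map φ
  degA := Polynomial.natDegree_map_le.trans Φ.degA
  degB := Polynomial.natDegree_map_le.trans Φ.degB
  c := φ Φ.c
  eq := by
    have h1 := congrArg (Polynomial.mapAlgHom φ) Φ.eq
    have h2 : Polynomial.mapAlgHom φ (MvPolynomial.aeval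
        (fun i => C (algebraMap k K (z.x i)) + C (Φ.x1 i) * X) W.f) =
        MvPolynomial.aeval (fun i => C (algebraMap k L (z.x i)) + C (φ (Φ.x1 i)) * X) W.f := by
      have h3 := MvPolynomial.comp_aeval_apply
        (f := fun i => C (algebraMap k K (z.x i)) + C (Φ.x1 i) * X)
        (φ := Polynomial.mapAlgHom φ) W.f
      rw [h3]
      congr 2
      funext i
      simp
    rw [h2] at h1
    rw [h1]
    simp
  nt := by
    rcases Φ.nt with h | h | h
    · left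
      intro h0
      apply h
      funext i
      have h1 := congrFun h0 i
      simpa using h1
    · right
      left
      rwa [natDegree_map_eq_of_injective (φ : K →+* L).injective]
    · right
      right
      rwa [natDegree_map_eq_of_injective (φ : K →+* L).injective]

theorem Fam.map_ab {L : Type} [Field L] [Algebra k L] (Φ : Fam W z K) (φ : K →ₐ[k] L) (s t : K) :
    (Φ.map φ).a (φ s) (φ t) = φ (Φ.a s t) ∧ (Φ.map φ).b (φ s) (φ t) = φ (Φ.b s t) := by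
  exact ⟨CYU.hev_map φ.toRingHom Φ.A (2 * W.e) s t, CYU.hev_map φ.toRingHom Φ.B (3 * W.e) s t⟩

theorem Ct.map {L : Type} [Field L] [Algebra k L] {Φ : Fam W z K} (φ : K →ₐ[k] L) {c' : K}
    (h : Ct Φ c') : Ct (Φ.map φ) (φ c') := by
  refine ⟨?_, ?_⟩
  · rw [Ne, map_eq_zero]
    exact h.1
  · rcases h.2 with h1 | ⟨h1, i, h2⟩
    · left
      rw [h1]
      rfl
    · right
      refine ⟨?_, i, ?_⟩
      · change φ Φ.c = 0
        rw [h1, map_zero]
      · rw [h2, map_pow]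
        rfl

/-- If all coefficients of the family are in the intermediate field `E` then the family is defined
over `E`. -/
theorem Fam.restr {E : IntermediateField k K} (Φ : Fam W z K) (hx : ∀ i, Φ.x1 i ∈ E)
    (hA : ∀ i, Φ.A.coeff i ∈ E) (hB : ∀ i, Φ.B.coeff i ∈ E) (hc : Φ.c ∈ E) :
    ∃ Ψ : Fam W z E, (∀ i, (Ψ.x1 i : K) = Φ.x1 i) ∧ (∀ i, (Ψ.A.coeff i : K) = Φ.A.coeff i) ∧
      (∀ i, (Ψ.B.coeff i : K) = Φ.B.coeff i) ∧ (Ψ.c : K) = Φ.c := by
  have hlift : ∀ P : K[X], (∀ i, P.coeff i ∈ E) → ∃ P' : E[X], P'.map (algebraMap E K) = P := by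
    intro P hP
    have h1 : P ∈ Polynomial.lifts (algebraMap E K) := by
      rw [Polynomial.lifts_iff_coeff_lifts]
      intro n
      exact ⟨⟨P.coeff n, hP n⟩, rfl⟩
    exact (Polynomial.mem_lifts P).1 h1
  obtain ⟨A', hA'⟩ := hlift Φ.A hA
  obtain ⟨B', hB'⟩ := hlift Φ.B hB
  have hinj : Function.Injective (algebraMap E K) := (algebraMap E K).injective
  have hdA : A'.natDegree = Φ.A.natDegree := by
    rw [← hA', natDegree_map_eq_of_injective hinj]
  have hdB : B'.natDegree = Φ.B.natDegree := by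
    rw [← hB', natDegree_map_eq_of_injective hinj]
  refine ⟨⟨Φ.i₀, Φ.hi₀, fun i => ⟨Φ.x1 i, hx i⟩, ?_, A', B', ?_, ?_, ⟨Φ.c, hc⟩, ?_, ?_⟩,
    fun i => rfl, fun i => ?_, fun i => ?_, rfl⟩
  · exact Subtype.ext Φ.h1
  · rw [hdA]
    exact Φ.degA
  · rw [hdB]
    exact Φ.degB
  · apply Polynomial.map_injective _ hinj
    have h2 : Polynomial.mapAlgHom (E.val) (MvPolynomial.aeval
        (fun i => C (algebraMap k E (z.x i)) + C (⟨Φ.x1 i, hx i⟩ : E) * X) W.f) =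
        MvPolynomial.aeval (fun i => C (algebraMap k K (z.x i)) + C (Φ.x1 i) * X) W.f := by
      have h3 := MvPolynomial.comp_aeval_apply
        (f := fun i => C (algebraMap k E (z.x i)) + C (⟨Φ.x1 i, hx i⟩ : E) * X)
        (φ := Polynomial.mapAlgHom E.val) W.f
      rw [h3]
      congr 2
      funext i
      simp
    have h4 : (MvPolynomial.aeval
        (fun i => C (algebraMap k E (z.x i)) + C (⟨Φ.x1 i, hx i⟩ : E) * X) W.f).map
        (algebraMap E K) =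
        MvPolynomial.aeval (fun i => C (algebraMap k K (z.x i)) + C (Φ.x1 i) * X) W.f := h2
    rw [h4, Φ.eq, Polynomial.map_add, Polynomial.map_add, Polynomial.map_pow,
      Polynomial.map_pow, Polynomial.map_mul, Polynomial.map_pow, map_X, map_C, hA', hB']
    rfl
  · rcases Φ.nt with h | h | h
    · left
      intro h0
      apply h
      funext i
      have h1 := congrFun h0 i
      exact congrArg Subtype.val h1
    · right
      left
      rwa [hdA]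
    · right
      right
      rwa [hdB]
  · have h1 := congrArg (fun P : K[X] => P.coeff i) hA'
    simp only [coeff_map] at h1
    exact h1
  · have h1 := congrArg (fun P : K[X] => P.coeff i) hB'
    simp only [coeff_map] at h1
    exact h1

end Pool.Agent.CYS
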