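import Pool.Agent.CYU.PtA

/-!
# Coverings of order six: the weights of the fixed points

`(t, y)` and `(α, β)` are points of the elliptic curve `α ^ 3 + β ^ 2 = 1` over the function field `K` of a curve. `Sec T v t y α β`: at
the place `v` not both points are infinite; if both are finite then their values are different, if
`α₀ ^ 3 = t₀ ^ 3` then `t₀, y₀ ≠ 0`; if `t₀ ∈ T` then `α₀, β₀ ≠ 0`.

`exists_eta`: `α₀ ^ 3 = t₀ ^ 3 ≠ 0`, so `β₀ ^ 2 = y₀ ^ 2 ≠ 0`, `η = (y₀ / β₀) (α₀ / t₀)`: `η ^ 6 = 1`, `η ^ 2 = (α₀ / t₀) ^ 2 = t₀ / α₀`,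
`η ^ 3 = y₀ / β₀`.

Proof of `sum_ne`. Let `g = t ^ 3 - α ^ 3 = β ^ 2 - y ^ 2`, `D = t - α`, `E = y + β`. At a place `v` where `t`, `α` are regular:
* `g` does not vanish: `D` divides `g`, `E` divides `g` (with regular quotients), so `ord D = ord E = ord g = 0`.
* `g` vanishes: `t₀, y₀ ≠ 0`, `η := η v` satisfies `t₀ = α₀ η ^ 2`, `y₀ = β₀ η ^ 3`, and `η ≠ 1` (`Sec`). If `η = -1` then `t₀ = α₀`,
  `y₀ = -β₀`, `t ^ 2 + t α + α ^ 2` has the value `3 t₀ ^ 2 ≠ 0`, so `ord D = ord g`; otherwise `t₀ ≠ α₀` (`t₀ = α₀` gives `η ^ 2 = 1`), so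
  `ord D = 0`. If `η ^ 3 = -1` then `y₀ = -β₀`, `β - y` has the value `-2 y₀ ≠ 0`, and `ord E = ord g`; otherwise `ord E = 0`.
At the other places exactly one of `t`, `α` is not regular, say `u` with partner `w` (`u ^ 3 + w ^ 2 = 1`), so `3 ord u = 2 ord w < 0`,
`ord D = ord u`, `ord E = ord w` (the others are regular): `3 ord D = 2 ord E < 0`. There is such a place (`t` is not constant).
Let `ζ` be a primitive sixth root of unity in `Mu k 6`, `N j = ∑ ord g` over the places with both regular, `g` vanishing and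
`η v = ζ ^ j`, `j = 1, …, 5`; `N j ≥ 0`. The sums of `ord D` and of `ord E` over all places are zero (`deg_dv`), so
`N 3 = -P`, `N 1 + N 3 + N 5 = -P'`, `3 P = 2 P'`, `P < 0`. Hence `N 3 > 0` and `N 3 = 2 (N 1 + N 5)`.
The sum `∑ᶠ v, F v` is `∑ j, N j ξ ^ j`, `ξ = χ ζ`, a primitive sixth root of unity in `k`: `ξ ^ 2 = ξ - 1`, `ξ ^ 3 = -1`,
`ξ ^ 4 = -ξ`, `ξ ^ 5 = 1 - ξ`. If it is zero then `(N 5 - N 2 - N 3) + (N 1 + N 2 - N 4 - N 5) ξ = 0`, and `ξ` is not rational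
(`x + y ξ = 0` with integers implies `x ^ 2 + x y + y ^ 2 = 0`), so `N 5 = N 2 + N 3 ≥ N 3 ≥ 2 N 5`, so `N 5 ≤ 0`, `N 3 ≤ 0`,
contradiction.
-/

set_option autoImplicit false

noncomputable section

namespace Pool.Agent.CYS

open Pool.Agent.ZCyc Pool.Agent.Dess Pool.Agent.TInc
open Pool.Agent.CYU (Mu mu)

variable {k : Type} [Field k] [IsAlgClosed k] [CharZero k]

/-- the conditions for the second point at a place -/
def Sec (T : Set k) {K : Type} [Field K] [Algebra k K] (v : Place k K) (t y α β : K) : Prop :=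
  (t ∈ v.ring ∨ α ∈ v.ring) ∧ ∀ t₀ y₀ α₀ β₀ : k, v.At t t₀ → v.At y y₀ → v.At α α₀ → v.At β β₀ →
    ¬(α₀ = t₀ ∧ β₀ = y₀) ∧ (α₀ ^ 3 = t₀ ^ 3 → t₀ ≠ 0 ∧ y₀ ≠ 0) ∧ (t₀ ∈ T → α₀ ≠ 0 ∧ β₀ ≠ 0)

theorem exists_eta {t₀ y₀ α₀ β₀ : k} (h : t₀ ^ 3 + y₀ ^ 2 = 1) (h' : α₀ ^ 3 + β₀ ^ 2 = 1)
    (he : α₀ ^ 3 = t₀ ^ 3) (ht : t₀ ≠ 0) (hy : y₀ ≠ 0) :
    ∃ η : Mu k 6, t₀ = α₀ * mu k η ^ 2 ∧ y₀ = β₀ * mu k η ^ 3 := by
  have hb2 : β₀ ^ 2 = y₀ ^ 2 := by linear_combination h' - h - he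
  have hb : β₀ ≠ 0 := by
    rintro rfl
    apply hy
    have h1 : y₀ ^ 2 = 0 := by rw [← hb2]; ring
    exact pow_eq_zero_iff (two_ne_zero) |>.1 h1
  have hr : (y₀ / β₀) ^ 2 = 1 := by
    rw [div_pow, ← hb2, div_self (pow_ne_zero 2 hb)]
  have hs : (α₀ / t₀) ^ 3 = 1 := by
    rw [div_pow, he, div_self (pow_ne_zero 3 ht)]
  have h6 : (y₀ / β₀ * (α₀ / t₀)) ^ 6 = 1 := by
    have e : (y₀ / β₀ * (α₀ / t₀)) ^ 6 = ((y₀ / β₀) ^ 2) ^ 3 * ((α₀ / t₀) ^ 3) ^ 2 := by ring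
    rw [e, hr, hs]
    norm_num
  have eb : y₀ = y₀ / β₀ * β₀ := by rw [div_mul_cancel₀ _ hb]
  refine ⟨rootsOfUnity.mkOfPowEq _ h6, ?_, ?_⟩
  · have e : mu k (rootsOfUnity.mkOfPowEq _ h6 : Mu k 6) = y₀ / β₀ * (α₀ / t₀) := by
      simp [mu]
    rw [e]
    have e2 : α₀ * (y₀ / β₀ * (α₀ / t₀)) ^ 2 = (y₀ / β₀) ^ 2 * (α₀ * (α₀ / t₀) ^ 2) := by ring
    have e3 : α₀ * (α₀ / t₀) ^ 2 = t₀ * (α₀ / t₀) ^ 3 := by
      field_simp
    rw [e2, hr, e3, hs]
    ring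
  · have e : mu k (rootsOfUnity.mkOfPowEq _ h6 : Mu k 6) = y₀ / β₀ * (α₀ / t₀) := by
      simp [mu]
    rw [e]
    have e2 : β₀ * (y₀ / β₀ * (α₀ / t₀)) ^ 3 =
        (y₀ / β₀) ^ 2 * (α₀ / t₀) ^ 3 * (y₀ / β₀ * β₀) := by ring
    rw [e2, hr, hs, ← eb]
    ring

omit [IsAlgClosed k] [CharZero k] in
private theorem chi_iff {χ : Mu k 6 →* kˣ} (hχ : Function.Injective χ) (e : Mu k 6) (n : ℕ) :
    (((χ e : kˣ) : k)) ^ n = 1 ↔ (mu k e) ^ n = 1 := by
  have h1 : (((χ e : kˣ) : k)) ^ n = 1 ↔ χ (e ^ n) = 1 := by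
    rw [map_pow, ← Units.val_pow_eq_pow_val]
    exact Units.val_eq_one
  have h2 : χ (e ^ n) = 1 ↔ e ^ n = 1 := map_eq_one_iff χ hχ
  have h3 : e ^ n = 1 ↔ (mu k e) ^ n = 1 := by
    rw [Subtype.ext_iff, Units.ext_iff]
    simp [mu]
  rw [h1, h2, h3]

omit [IsAlgClosed k] in
/-- the six values of a root of unity and of its image -/
private theorem chi_cases {χ : Mu k 6 →* kˣ} (hχ : Function.Injective χ) {ξ : k}
    (hξ : ξ ^ 2 - ξ + 1 = 0) (e : Mu k 6) : mu k e = 1 ∨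
      (mu k e = -1 ∧ ((χ e : kˣ) : k) = -1) ∨
      (mu k e ^ 3 = 1 ∧ mu k e ^ 2 ≠ 1 ∧ (((χ e : kˣ) : k) = ξ - 1 ∨ ((χ e : kˣ) : k) = -ξ)) ∨
      (mu k e ^ 3 = -1 ∧ mu k e ^ 2 ≠ 1 ∧
        (((χ e : kˣ) : k) = ξ ∨ ((χ e : kˣ) : k) = 1 - ξ)) := by
  have h3 : (3 : k) ≠ 0 := by norm_num
  have h2 : (2 : k) ≠ 0 := by norm_num
  have h6 : mu k e ^ 6 = 1 := by
    rw [← chi_iff hχ e 6]
    have h1 : e ^ 6 = 1 := by
      apply Subtype.ext
      exact (mem_rootsOfUnity 6 _).1 e.2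
    rw [← Units.val_pow_eq_pow_val, ← map_pow, h1, map_one]
    rfl
  have c1 := chi_iff hχ e 1
  have c2 := chi_iff hχ e 2
  have c3 := chi_iff hχ e 3
  have c6 := chi_iff hχ e 6
  rw [pow_one, pow_one] at c1
  generalize mu k e = h at *
  generalize ((χ e : kˣ) : k) = c at *
  have hf : (h - 1) * ((h + 1) * ((h ^ 2 + h + 1) * (h ^ 2 - h + 1))) = 0 := by
    linear_combination h6
  rcases mul_eq_zero.1 hf with h4 | hf
  · exact Or.inl (sub_eq_zero.1 h4)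
  rcases mul_eq_zero.1 hf with h4 | hf
  · right
    left
    have h5 : h = -1 := eq_neg_of_add_eq_zero_left h4
    refine ⟨h5, ?_⟩
    have h7 : c ^ 2 = 1 := c2.2 (by rw [h5]; ring)
    rcases sq_eq_one_iff.1 h7 with h8 | h8
    · exfalso
      rw [c1.1 h8] at h5
      apply h2
      linear_combination h5
    · exact h8
  rcases mul_eq_zero.1 hf with h4 | h4
  · right
    right
    left
    have e1 : h ^ 3 = 1 := by linear_combination (h - 1) * h4
    have e2 : h ^ 2 ≠ 1 := by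
      intro h5
      apply h3
      linear_combination (h - 1) * h5 + (2 - h) * h4
    refine ⟨e1, e2, ?_⟩
    have e3 : c ^ 3 = 1 := c3.2 e1
    have e4 : c ≠ 1 := by
      intro h5
      exact e2 (by rw [c1.1 h5]; ring)
    have e5 : (c - 1) * (c ^ 2 + c + 1) = 0 := by linear_combination e3
    have e6 := (mul_eq_zero.1 e5).resolve_left (sub_ne_zero.2 e4)
    have e7 : (c - (ξ - 1)) * (c + ξ) = 0 := by linear_combination e6 - hξ
    rcases mul_eq_zero.1 e7 with h5 | h5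
    · exact Or.inl (sub_eq_zero.1 h5)
    · exact Or.inr (eq_neg_of_add_eq_zero_left h5)
  · right
    right
    right
    have e1 : h ^ 3 = -1 := by linear_combination (h + 1) * h4
    have e2 : h ^ 2 ≠ 1 := by
      intro h5
      apply h3
      linear_combination (-(h + 1)) * h5 + (2 + h) * h4
    refine ⟨e1, e2, ?_⟩
    have e3 : c ^ 3 ≠ 1 := by
      intro h5
      rw [c3.1 h5] at e1
      apply h2
      linear_combination e1
    have e4 : c ^ 2 ≠ 1 := fun h5 => e2 (c2.1 h5)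
    have e5 : c ^ 6 = 1 := c6.2 h6
    have e6 : (c ^ 3 - 1) * (c ^ 3 + 1) = 0 := by linear_combination e5
    have e7 := (mul_eq_zero.1 e6).resolve_left (sub_ne_zero.2 e3)
    have e8 : (c + 1) * (c ^ 2 - c + 1) = 0 := by linear_combination e7
    have e9 : c + 1 ≠ 0 := by
      intro h5
      apply e4
      rw [eq_neg_of_add_eq_zero_left h5]
      ring
    have e10 := (mul_eq_zero.1 e8).resolve_left e9
    have e11 : (c - ξ) * (c - (1 - ξ)) = 0 := by linear_combination e10 - hξ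
    rcases mul_eq_zero.1 e11 with h5 | h5
    · exact Or.inl (sub_eq_zero.1 h5)
    · exact Or.inr (sub_eq_zero.1 h5)

variable {K : Type} [Field K] [Algebra k K]

omit [IsAlgClosed k] [CharZero k] in
private theorem mem_pow {v : Place k K} {a : K} {n : ℕ} (hn : n ≠ 0) (h : a ^ n ∈ v.ring) :
    a ∈ v.ring := by
  rw [← v.ring.valuation_le_one_iff] at h ⊢
  rw [map_pow] at h
  exact (pow_le_one_iff hn).1 h

private theorem sum_ord (hK : IsCurve k K) (f : K) (T : Finset (Place k K))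
    (hT : ∀ v, ord v f ≠ 0 → v ∈ T) : ∑ v ∈ T, ord v f = 0 := by
  refine Eq.trans ?_ (deg_dv hK f)
  unfold deg Finsupp.sum
  refine (Finset.sum_subset (fun v hv => ?_) fun v _ hv => ?_).symm
  · rw [Finsupp.mem_support_iff] at hv
    exact hT v hv
  · rw [Finsupp.notMem_support_iff] at hv
    exact hv

private theorem ord_add_pole (hK : IsCurve k K) {v : Place k K} {f g : K} (hf : f ∉ v.ring)
    (hg : g ∈ v.ring) : ord v (f + g) = ord v f := by
  have hf0 : f ≠ 0 := fun h0 => hf (h0 ▸ zero_mem _)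
  refine (ord_add_eq hK hf0 fun hg0 => ?_).2
  rw [mem_iff_ord hK hf0] at hf
  rw [mem_iff_ord hK hg0] at hg
  omega

omit [IsAlgClosed k] [CharZero k] in
private theorem snd_mem {v : Place k K} {u w : K} (h : u ^ 3 + w ^ 2 = 1) :
    u ∈ v.ring ↔ w ∈ v.ring := by
  constructor
  · intro hu
    refine mem_pow (n := 2) two_ne_zero ?_
    have e : w ^ 2 = 1 - u ^ 3 := by linear_combination h
    rw [e]
    exact sub_mem (one_mem _) (pow_mem hu 3)
  · intro hw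
    refine mem_pow (n := 3) three_ne_zero ?_
    have e : u ^ 3 = 1 - w ^ 2 := by linear_combination h
    rw [e]
    exact sub_mem (one_mem _) (pow_mem hw 2)

/-- the orders at a pole of one of the functions -/
private theorem pole_ord (hK : IsCurve k K) {v : Place k K} {u w u' w' : K}
    (h : u ^ 3 + w ^ 2 = 1) (h' : u' ^ 3 + w' ^ 2 = 1) (hu : u ∉ v.ring) (hu' : u' ∈ v.ring) :
    2 * ord v (u + -u') - ord v (w + w') < 0 := by
  have hw : w ∉ v.ring := fun h0 => hu ((snd_mem h).2 h0)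
  have hw' : w' ∈ v.ring := (snd_mem h').1 hu'
  rw [ord_add_pole hK hu (neg_mem hu'), ord_add_pole hK hw hw']
  have hw2 : -(w ^ 2) ∉ v.ring := by
    intro h0
    apply hw
    refine mem_pow (n := 2) two_ne_zero ?_
    have := neg_mem h0
    rwa [neg_neg] at this
  have h1 : ord v (u ^ 3) = ord v (-(w ^ 2) + 1) := by
    congr 1
    linear_combination h
  rw [ord_add_pole hK hw2 (one_mem _), ord_neg hK, ord_pow hK, ord_pow hK] at h1
  have hu0 : u ≠ 0 := fun h0 => hu (h0 ▸ zero_mem _)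
  rw [mem_iff_ord hK hu0] at hu
  push_cast at h1
  omega

/-- the orders at a place where both functions are regular -/
private theorem loc_ord (hK : IsCurve k K) {t y α β : K} (hE : t ^ 3 + y ^ 2 = 1)
    (hE' : α ^ 3 + β ^ 2 = 1) (hg0 : t ^ 3 - α ^ 3 ≠ 0) {T : Set k}
    {v : Place k K} (hS : Sec T v t y α β) {χ : Mu k 6 →* kˣ} (hχ : Function.Injective χ)
    {ξ : k} (hξ : ξ ^ 2 - ξ + 1 = 0) {e : Mu k 6} (he : ∀ t₀ y₀ α₀ β₀ : k, v.At t t₀ →
      v.At y y₀ → v.At α α₀ → v.At β β₀ → v.Vanishes (t ^ 3 - α ^ 3) →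
        t₀ = α₀ * mu k e ^ 2 ∧ y₀ = β₀ * mu k e ^ 3)
    (ht : t ∈ v.ring) (ha : α ∈ v.ring) : ∃ a b : ℤ,
      (ord v (t ^ 3 - α ^ 3) : k) * ((χ e : kˣ) : k) = (a : k) + b * ξ ∧
        a + (2 * ord v (t + -α) - ord v (y + β)) ≤ 0 := by
  have hy : y ∈ v.ring := (snd_mem hE).1 ht
  have hb : β ∈ v.ring := (snd_mem hE').1 ha
  obtain ⟨t₀, ht₀⟩ := exists_at hK v ht
  obtain ⟨y₀, hy₀⟩ := exists_at hK v hy
  obtain ⟨α₀, hα₀⟩ := exists_at hK v ha
  obtain ⟨β₀, hβ₀⟩ := exists_at hK v hb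
  have f1 : t ^ 3 - α ^ 3 = (t + -α) * (t ^ 2 + t * α + α ^ 2) := by ring
  have f2 : t ^ 3 - α ^ 3 = (β - y) * (y + β) := by linear_combination hE - hE'
  have n1 : t + -α ≠ 0 := fun h0 => hg0 (by rw [f1, h0, zero_mul])
  have n2 : t ^ 2 + t * α + α ^ 2 ≠ 0 := fun h0 => hg0 (by rw [f1, h0, mul_zero])
  have n3 : β - y ≠ 0 := fun h0 => hg0 (by rw [f2, h0, zero_mul])
  have n4 : y + β ≠ 0 := fun h0 => hg0 (by rw [f2, h0, mul_zero])
  have o1 : ord v (t ^ 3 - α ^ 3) = ord v (t + -α) + ord v (t ^ 2 + t * α + α ^ 2) := by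
    rw [← ord_mul hK v n1 n2, ← f1]
  have o2 : ord v (t ^ 3 - α ^ 3) = ord v (β - y) + ord v (y + β) := by
    rw [← ord_mul hK v n3 n4, ← f2]
  have p1 : 0 ≤ ord v (t + -α) := (mem_iff_ord hK n1).1 (add_mem ht (neg_mem ha))
  have p2 : 0 ≤ ord v (t ^ 2 + t * α + α ^ 2) := (mem_iff_ord hK n2).1
    (add_mem (add_mem (pow_mem ht 2) (mul_mem ht ha)) (pow_mem ha 2))
  have p3 : 0 ≤ ord v (β - y) := (mem_iff_ord hK n3).1 (sub_mem hb hy)
  have p4 : 0 ≤ ord v (y + β) := (mem_iff_ord hK n4).1 (add_mem hy hb)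
  have q1 : v.At (t + -α) (t₀ + -α₀) := ht₀.add hα₀.neg
  have q2 : v.At (t ^ 2 + t * α + α ^ 2) (t₀ ^ 2 + t₀ * α₀ + α₀ ^ 2) :=
    ((ht₀.pow 2).add (ht₀.mul hα₀)).add (hα₀.pow 2)
  have q3 : v.At (β - y) (β₀ - y₀) := hβ₀.sub hy₀
  have q4 : v.At (y + β) (y₀ + β₀) := hy₀.add hβ₀
  have h2 : (2 : k) ≠ 0 := by norm_num
  have h3 : (3 : k) ≠ 0 := by norm_num
  by_cases hg : v.Vanishes (t ^ 3 - α ^ 3)
  · obtain ⟨e1, e2⟩ := he t₀ y₀ α₀ β₀ ht₀ hy₀ hα₀ hβ₀ hg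
    obtain ⟨-, s2⟩ := hS
    obtain ⟨s3, s4, -⟩ := s2 t₀ y₀ α₀ β₀ ht₀ hy₀ hα₀ hβ₀
    have s5 : α₀ ^ 3 = t₀ ^ 3 := by
      have h1 := Place.At.unique (Place.at_zero_iff.2 hg) ((ht₀.pow 3).sub (hα₀.pow 3))
      exact (sub_eq_zero.1 h1.symm).symm
    obtain ⟨s6, s7⟩ := s4 s5
    have s8 : α₀ ≠ 0 := by
      intro h0
      apply s6
      rw [e1, h0, zero_mul]
    have s9 : β₀ ≠ 0 := by
      intro h0
      apply s7
      rw [e2, h0, zero_mul]
    have hn : 0 < ord v (t ^ 3 - α ^ 3) := (vanishes_iff_ord hK hg0).1 hg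
    -- the order of `t - α` is zero if the square is not one
    have k1 : mu k e ^ 2 ≠ 1 → ord v (t + -α) = 0 := by
      intro h0
      refine ord_of_at hK q1 fun h4 => h0 ?_
      have h5 : α₀ * (mu k e ^ 2 - 1) = 0 := by linear_combination h4 - e1
      exact sub_eq_zero.1 ((mul_eq_zero.1 h5).resolve_left s8)
    rcases chi_cases hχ hξ e with c | ⟨c, c'⟩ | ⟨c, c1, c'⟩ | ⟨c, c1, c'⟩
    · exfalso
      rw [c, one_pow, mul_one] at e1 e2
      exact s3 ⟨e1.symm, e2.symm⟩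
    · -- the value is `-1`
      rw [c] at e1 e2
      have r1 : ord v (t ^ 2 + t * α + α ^ 2) = 0 := by
        refine ord_of_at hK q2 ?_
        have h5 : t₀ ^ 2 + t₀ * α₀ + α₀ ^ 2 = 3 * t₀ ^ 2 := by
          rw [e1]
          ring
        rw [h5]
        exact mul_ne_zero h3 (pow_ne_zero 2 s6)
      have r2 : ord v (β - y) = 0 := by
        refine ord_of_at hK q3 ?_
        have h5 : β₀ - y₀ = -(2 * y₀) := by
          rw [e2]
          ring
        rw [h5]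
        exact neg_ne_zero.2 (mul_ne_zero h2 s7)
      refine ⟨-ord v (t ^ 3 - α ^ 3), 0, ?_, by omega⟩
      rw [c']
      push_cast
      ring
    · have r1 := k1 c1
      have r2 : ord v (y + β) = 0 := by
        refine ord_of_at hK q4 ?_
        rw [c, mul_one] at e2
        have h5 : y₀ + β₀ = 2 * β₀ := by
          rw [e2]
          ring
        rw [h5]
        exact mul_ne_zero h2 s9
      rcases c' with c' | c'
      · refine ⟨-ord v (t ^ 3 - α ^ 3), ord v (t ^ 3 - α ^ 3), ?_, by omega⟩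
        rw [c']
        push_cast
        ring
      · refine ⟨0, -ord v (t ^ 3 - α ^ 3), ?_, by omega⟩
        rw [c']
        push_cast
        ring
    · have r1 := k1 c1
      have r2 : ord v (β - y) = 0 := by
        refine ord_of_at hK q3 ?_
        rw [c] at e2
        have h5 : β₀ - y₀ = 2 * β₀ := by
          rw [e2]
          ring
        rw [h5]
        exact mul_ne_zero h2 s9
      rcases c' with c' | c'
      · refine ⟨0, ord v (t ^ 3 - α ^ 3), ?_, by omega⟩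
        rw [c']
        push_cast
        ring
      · refine ⟨ord v (t ^ 3 - α ^ 3), -ord v (t ^ 3 - α ^ 3), ?_, by omega⟩
        rw [c']
        push_cast
        ring
  · rw [vanishes_iff_ord hK hg0] at hg
    refine ⟨0, 0, ?_, by omega⟩
    have h0 : ord v (t ^ 3 - α ^ 3) = 0 := by omega
    rw [h0]
    simp

/-- The sum over the places where `t` and `α` are regular of the orders of `t ^ 3 - α ^ 3` with the weights
`χ(η v)` is not zero. -/
theorem sum_ne (hK : IsCurve k K) {t y α β : K} (ht : Transcendental k t)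
    (hE : t ^ 3 + y ^ 2 = 1) (hE' : α ^ 3 + β ^ 2 = 1) {T : Set k}
    (hS : ∀ v : Place k K, Sec T v t y α β) {χ : Mu k 6 →* kˣ} (hχ : Function.Injective χ)
    {η : Place k K → Mu k 6} (hη : ∀ (v : Place k K) (t₀ y₀ α₀ β₀ : k), v.At t t₀ → v.At y y₀ →
      v.At α α₀ → v.At β β₀ → v.Vanishes (t ^ 3 - α ^ 3) →
        t₀ = α₀ * mu k (η v) ^ 2 ∧ y₀ = β₀ * mu k (η v) ^ 3)
    {F : Place k K → k} (h1 : ∀ v : Place k K, t ∉ v.ring ∨ α ∉ v.ring → F v = 0)
    (h2 : ∀ v : Place k K, t ∈ v.ring → α ∈ v.ring →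
      F v = (ord v (t ^ 3 - α ^ 3) : k) * ((χ (η v) : kˣ) : k)) : ∑ᶠ v, F v ≠ 0 := by
  classical
  have htc : ∀ a : k, t ≠ algebraMap k K a := by
    rintro a rfl
    exact ht (isAlgebraic_algebraMap a)
  obtain ⟨v₁, hv₁⟩ : ∃ v : Place k K, t ∉ v.ring := by
    by_contra hcon
    push Not at hcon
    obtain ⟨a, ha⟩ := const_of_regular hK hcon
    exact htc a ha
  have hg0 : t ^ 3 - α ^ 3 ≠ 0 := by
    intro h0
    obtain ⟨v₀, hv₀⟩ : ∃ v : Place k K, t⁻¹ ∉ v.ring := by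
      by_contra hcon
      push Not at hcon
      obtain ⟨a, ha⟩ := const_of_regular hK hcon
      exact htc a⁻¹ (by rw [map_inv₀, ← ha, inv_inv])
    have h3 : v₀.Vanishes t := (Place.vanishes_iff_or v₀ t).2 (Or.inr hv₀)
    have ha : α ∈ v₀.ring := by
      refine mem_pow (n := 3) three_ne_zero ?_
      rw [← sub_eq_zero.1 h0]
      exact pow_mem h3.mem 3
    obtain ⟨y₀, hy₀⟩ := exists_at hK v₀ ((snd_mem hE).1 h3.mem)
    obtain ⟨α₀, hα₀⟩ := exists_at hK v₀ ha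
    obtain ⟨β₀, hβ₀⟩ := exists_at hK v₀ ((snd_mem hE').1 ha)
    have ht₀ : v₀.At t 0 := Place.at_zero_iff.2 h3
    have h4 := (hS v₀).2 0 y₀ α₀ β₀ ht₀ hy₀ hα₀ hβ₀
    refine (h4.2.1 ?_).1 rfl
    have h5 := hα₀.pow 3
    rw [← sub_eq_zero.1 h0] at h5
    exact Place.At.unique h5 (ht₀.pow 3)
  obtain ⟨ξ, hξ⟩ : ∃ ξ : k, ξ ^ 2 - ξ + 1 = 0 := by
    obtain ⟨r, hr⟩ := IsAlgClosed.exists_pow_nat_eq (-3 : k) (n := 2) (by norm_num)
    refine ⟨(1 + r) / 2, ?_⟩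
    have h2 : (2 : k) ≠ 0 := by norm_num
    field_simp
    linear_combination hr
  have key : ∀ v : Place k K, ∃ a b : ℤ, F v = (a : k) + b * ξ ∧
      (t ∈ v.ring ∧ α ∈ v.ring → a + (2 * ord v (t + -α) - ord v (y + β)) ≤ 0) ∧
      (t ∉ v.ring ∨ α ∉ v.ring → a = 0 ∧ 2 * ord v (t + -α) - ord v (y + β) < 0) := by
    intro v
    by_cases h3 : t ∈ v.ring ∧ α ∈ v.ring
    · obtain ⟨a, b, e1, e2⟩ := loc_ord hK hE hE' hg0 (hS v) hχ hξ (hη v) h3.1 h3.2
      refine ⟨a, b, ?_, fun _ => e2, fun h4 => ?_⟩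
      · rw [h2 v h3.1 h3.2, e1]
      · exfalso
        rcases h4 with h4 | h4
        · exact h4 h3.1
        · exact h4 h3.2
    · have h4 : t ∉ v.ring ∨ α ∉ v.ring := by
        by_contra h5
        push Not at h5
        exact h3 h5
      refine ⟨0, 0, by rw [h1 v h4]; simp, fun h5 => absurd h5 h3, fun _ => ⟨rfl, ?_⟩⟩
      by_cases h5 : t ∈ v.ring
      · have h6 : α ∉ v.ring := fun h7 => h3 ⟨h5, h7⟩
        have h7 := pole_ord hK hE' hE h6 h5
        have e1 : t + -α = -(α + -t) := by ring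
        have e2 : y + β = β + y := add_comm _ _
        rw [e1, e2, ord_neg hK]
        exact h7
      · exact pole_ord hK hE hE' h5 ((hS v).1.resolve_left h5)
  choose A B hF hR hP using key
  -- a finite set of places
  set T₀ : Finset (Place k K) := (finite_ord hK (t + -α)).toFinset ∪
    (finite_ord hK (y + β)).toFinset ∪ (finite_ord hK (t ^ 3 - α ^ 3)).toFinset with hT₀
  have m1 : ∀ v, ord v (t + -α) ≠ 0 → v ∈ T₀ := by
    intro v hv
    rw [hT₀, Finset.mem_union, Finset.mem_union]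
    exact Or.inl (Or.inl ((Set.Finite.mem_toFinset _).2 hv))
  have m2 : ∀ v, ord v (y + β) ≠ 0 → v ∈ T₀ := by
    intro v hv
    rw [hT₀, Finset.mem_union, Finset.mem_union]
    exact Or.inl (Or.inr ((Set.Finite.mem_toFinset _).2 hv))
  have m3 : ∀ v, ord v (t ^ 3 - α ^ 3) ≠ 0 → v ∈ T₀ := by
    intro v hv
    rw [hT₀, Finset.mem_union, Finset.mem_union]
    exact Or.inr ((Set.Finite.mem_toFinset _).2 hv)
  have z1 := sum_ord hK _ T₀ m1
  have z2 := sum_ord hK _ T₀ m2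
  have hsum : ∑ᶠ v, F v = ((∑ v ∈ T₀, A v : ℤ) : k) + ((∑ v ∈ T₀, B v : ℤ) : k) * ξ := by
    rw [finsum_eq_sum_of_support_subset F (s := T₀)]
    · push_cast
      rw [Finset.sum_mul, ← Finset.sum_add_distrib]
      exact Finset.sum_congr rfl fun v _ => hF v
    · intro v hv
      rw [Finset.mem_coe]
      apply m3
      intro h0
      apply hv
      by_cases h3 : t ∈ v.ring ∧ α ∈ v.ring
      · rw [h2 v h3.1 h3.2, h0]
        simp
      · refine h1 v ?_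
        by_contra h5
        push Not at h5
        exact h3 h5
  have hneg : ∑ v ∈ T₀, (A v + (2 * ord v (t + -α) - ord v (y + β))) < 0 := by
    refine Finset.sum_neg' (fun v _ => ?_) ?_
    · by_cases h3 : t ∈ v.ring ∧ α ∈ v.ring
      · exact hR v h3
      · have h4 : t ∉ v.ring ∨ α ∉ v.ring := by
          by_contra h5
          push Not at h5
          exact h3 h5
        obtain ⟨h5, h6⟩ := hP v h4
        omega
    · obtain ⟨h5, h6⟩ := hP v₁ (Or.inl hv₁)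
      refine ⟨v₁, ?_, by omega⟩
      by_cases h7 : ord v₁ (t + -α) = 0
      · apply m2
        intro h8
        omega
      · exact m1 v₁ h7
  have hA : ∑ v ∈ T₀, A v < 0 := by
    rw [Finset.sum_add_distrib, Finset.sum_sub_distrib, ← Finset.mul_sum, z1, z2] at hneg
    omega
  intro h0
  rw [hsum] at h0
  generalize (∑ v ∈ T₀, A v) = a at *
  generalize (∑ v ∈ T₀, B v) = b at *
  have h3 : ((a ^ 2 + a * b + b ^ 2 : ℤ) : k) = 0 := by
    push_cast
    linear_combination (a + b - b * ξ) * h0 + b ^ 2 * hξ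
  have h4 : a ^ 2 + a * b + b ^ 2 = 0 := by exact_mod_cast h3
  nlinarith [sq_nonneg (a + 2 * b), mul_pos_of_neg_of_neg hA hA]

end Pool.Agent.CYS
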