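import Pool.Agent.CYS.LocI
import Pool.Agent.CYS.SumN

/-!
# Coverings of order six: the global relation

Proof of `glob`. `(Q α β).coeff 0 = z.w ^ 6 (β ^ 2 t ^ 3 - α ^ 3 y ^ 2) = z.w ^ 6 g`, `g = t ^ 3 - α ^ 3` (`Fam.q_zero`,
`β ^ 2 = 1 - α ^ 3`, `y ^ 2 = 1 - t ^ 3`). `g ≠ 0`: otherwise at a place where `t` has the value `0` (`exists_place`) `y` and `α`, `β` are
regular and `α₀ ^ 3 = t₀ ^ 3`, so `t₀ ≠ 0` by `sec`, contradiction. So `Q := Φ.Q α β ≠ 0`, and its roots are `≠ 0`.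
If `F := G.F z z' = 0` we are done; assume `F ≠ 0`. For every root `s` of `Q`: `rel_fam` with `t = 1` for `P' = z'.base K`,
`p' v = z'`, `ω = Φ.om α β s 1` (`Fam.root`, `Fam.om_spec`, `six`); if `deg Q < 6 e`: the same for `(1, 0)` (`six'`). The sum over all of
them: `∑ᶠ v, ctv v = 0`, finite support. `Φ.A.coeff 0 = z.w ^ 2 t` is regular exactly if `t` is.
At a place where `t` or `α` is not regular: exactly one of them is regular by `sec`, `ctv v = 0` (`loc_inf`).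
At a place `v` where both are regular: `y`, `β` are regular (their squares are); let `t₀`, `y₀`, `α₀`, `β₀` be the values. If `t₀ ∉ T` then
`unr` and `exists_red_one` give `Ψ` with `r = 1`, and `c'` does not vanish at `v`; if `t₀ ∈ T` then `exists_scale` gives `r`, `Ψ`, and
`α₀, β₀ ≠ 0` by `sec`. `Ψ.A.coeff 0 = z.w ^ 2 t₀`, `Ψ.B.coeff 0 = z.w ^ 3 y₀`. `Ψ.Q α₀ β₀ ≠ 0`: otherwise, if `α₀, β₀ ≠ 0`, then `F = 0` by
`deg_c`; but its coefficient `0` is `z.w ^ 6 (t₀ ^ 3 - α₀ ^ 3)`, so `α₀ ^ 3 = t₀ ^ 3`, and `t₀, y₀ ≠ 0` by `sec`, so `α₀, β₀ ≠ 0`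
(`β₀ ^ 2 = y₀ ^ 2`). `loc_fin` with `η = η v`, where `η v` is chosen by `exists_eta` if `g` vanishes at `v`: if `z.w ^ 2 t₀ = α₀ ω₀ ^ 2`,
`z.w ^ 3 y₀ = β₀ ω₀ ^ 3` then `(ω₀ / z.w) ^ 2 = η ^ 2`, `(ω₀ / z.w) ^ 3 = η ^ 3`, so `ω₀ = η z.w`. `ord v (Q.coeff 0) = ord v g`. So
`ctv v = 6 e ord v g • χ(η v) • F` (`eq1`), and `∑ᶠ v, ctv v = 6 e (∑ ...) • F ≠ 0` by `sum_ne`.
-/

set_option autoImplicit false

noncomputable section

namespace Pool.Agent.CYS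

open Pool.Agent.ZCyc Pool.Agent.Dess Pool.Agent.TInc Polynomial
open Pool.Agent.CYU (Cov Pt Mu mu hev Bi IsVal ctr Spec Inv)
open Pool.Agent.VFP (Om tt)

variable {k : Type} [Field k] [IsAlgClosed k] [CharZero k] {m' : ℕ} [NeZero m']
  {V : Type} [AddCommGroup V] [Module k V] {χ : Mu k 6 →* kˣ} {χ' : Mu k m' →* kˣ}
  {W : Cov k 6} {W' : Cov k m'}

/-- The data over a curve: a family over the function field `K` whose coefficients of index `0` are the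
coordinates of the generic point `(t, y)` of the curve `t ^ 3 + y ^ 2 = 1` (times powers of `z.w`), and the
second point `(α, β)`. -/
structure Dat (W : Cov k 6) (z : Pt W k) (K : Type) [Field K] [Algebra k K] where
  t : K
  y : K
  ht : Transcendental k t
  hE : t ^ 3 + y ^ 2 = 1
  α : K
  β : K
  hE' : α ^ 3 + β ^ 2 = 1
  hα : α ≠ 0
  hβ : β ≠ 0
  Φ : Fam W z K
  hA : Φ.A.coeff 0 = algebraMap k K (z.w ^ 2) * t
  hB : Φ.B.coeff 0 = algebraMap k K (z.w ^ 3) * y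
  c' : K
  hc' : Ct Φ c'
  rad : Rad Φ
  T : Set k
  unr : ∀ (v : Place k K) (t₀ : k), v.At t t₀ → t₀ ∉ T → Unr Φ c' v
  sec : ∀ v : Place k K, Sec T v t y α β
  split : (Φ.Q α β).roots.card = (Φ.Q α β).natDegree
  six : ∀ s ∈ (Φ.Q α β).roots, ∃ w : K, w ^ 6 = MvPolynomial.aeval (Φ.p s 1) W.f
  six' : ∃ w : K, w ^ 6 = MvPolynomial.aeval (Φ.p 1 0) W.f

omit [IsAlgClosed k] [CharZero k] in
private theorem glob_mem {K : Type} [Field K] [Algebra k K] {v : Place k K} {a : K} {n : ℕ}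
    (hn : n ≠ 0) (h : a ^ n ∈ v.ring) : a ∈ v.ring := by
  rw [← v.ring.valuation_le_one_iff] at h ⊢
  rw [map_pow] at h
  exact (pow_le_one_iff hn).1 h

omit [IsAlgClosed k] [CharZero k] in
/-- the partner coordinate is regular -/
private theorem glob_part {K : Type} [Field K] [Algebra k K] {v : Place k K} {a b : K}
    (h : a ^ 3 + b ^ 2 = 1) (ha : a ∈ v.ring) : b ∈ v.ring := by
  apply glob_mem (n := 2) (by norm_num)
  have h1 : b ^ 2 = 1 - a ^ 3 := by linear_combination h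
  rw [h1]
  exact sub_mem (one_mem _) (pow_mem ha 3)

private theorem glob_zero {K : Type} [Field K] [Algebra k K] (hK : IsCurve k K) {f : K}
    (hf : Transcendental k f) : ∃ v : Place k K, v.Vanishes f := by
  by_contra hcon
  push Not at hcon
  obtain ⟨a, ha⟩ := const_of_regular hK (f := f⁻¹) (fun v => by
    by_contra h
    exact hcon v ((Place.vanishes_iff_or _ _).2 (Or.inr h)))
  apply hf
  have h2 : f = algebraMap k K a⁻¹ := by
    rw [map_inv₀, ← ha, inv_inv]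
  rw [h2]
  exact isAlgebraic_algebraMap _

private theorem glob_sum {ι α : Type} {A : Type} [AddCommGroup A] (M : Multiset ι)
    (f : ι → α → A) (h : ∀ s ∈ M, (Function.support (f s)).Finite ∧ ∑ᶠ v, f s v = 0) :
    (Function.support fun v => (M.map fun s => f s v).sum).Finite ∧
      ∑ᶠ v, (M.map fun s => f s v).sum = 0 := by
  induction M using Multiset.induction_on with
  | empty => simp
  | cons a M ih =>
    obtain ⟨h1, h2⟩ := ih fun s hs => h s (Multiset.mem_cons_of_mem hs)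
    obtain ⟨h3, h4⟩ := h a (Multiset.mem_cons_self a M)
    simp only [Multiset.map_cons, Multiset.sum_cons]
    refine ⟨(h3.union h1).subset (Function.support_add _ _), ?_⟩
    rw [finsum_add_distrib h3 h1, h4, h2, add_zero]

omit [IsAlgClosed k] [CharZero k] in
/-- The constant term of `Q`. -/
private theorem glob_q {z : Pt W k} {K : Type} [Field K] [Algebra k K] (D : Dat W z K) :
    (D.Φ.Q D.α D.β).coeff 0 = algebraMap k K (z.w ^ 6) * (D.t ^ 3 - D.α ^ 3) := by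
  rw [Fam.q_zero, D.hA, D.hB]
  have h1 := D.hE
  have h2 := D.hE'
  simp only [map_pow]
  have h3 : D.β ^ 2 = 1 - D.α ^ 3 := by linear_combination h2
  have h4 : D.y ^ 2 = 1 - D.t ^ 3 := by linear_combination h1
  have h5 : D.β ^ 2 * (algebraMap k K z.w ^ 2 * D.t) ^ 3 -
      D.α ^ 3 * (algebraMap k K z.w ^ 3 * D.y) ^ 2 =
      algebraMap k K z.w ^ 6 * (D.β ^ 2 * D.t ^ 3 - D.α ^ 3 * D.y ^ 2) := by ring
  rw [h5, h3, h4]
  ring

private theorem glob_g {z : Pt W k} {K : Type} [Field K] [Algebra k K] (hK : IsCurve k K)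
    (D : Dat W z K) : D.t ^ 3 - D.α ^ 3 ≠ 0 := by
  intro h
  obtain ⟨v, hv⟩ := glob_zero hK D.ht
  have ht : D.t ∈ v.ring := hv.mem
  have hα : D.α ∈ v.ring := by
    apply glob_mem (n := 3) (by norm_num)
    rw [← sub_eq_zero.1 h]
    exact pow_mem ht 3
  obtain ⟨y₀, hy₀⟩ := exists_at hK v (glob_part D.hE ht)
  obtain ⟨α₀, hα₀⟩ := exists_at hK v hα
  obtain ⟨β₀, hβ₀⟩ := exists_at hK v (glob_part D.hE' hα)
  have ht₀ : v.At D.t 0 := Place.at_zero_iff.2 hv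
  have h1 := ((D.sec v).2 0 y₀ α₀ β₀ ht₀ hy₀ hα₀ hβ₀).2.1
  have h2 : α₀ ^ 3 = 0 ^ 3 := by
    have h3 := hα₀.pow 3
    rw [← sub_eq_zero.1 h] at h3
    exact h3.unique (ht₀.pow 3)
  exact (h1 h2).1 rfl

/-- the values at a place where both points are finite -/
private theorem glob_vals {z : Pt W k} {K : Type} [Field K] [Algebra k K] (hK : IsCurve k K)
    (D : Dat W z K) {v : Place k K} (ht : D.t ∈ v.ring) (hα : D.α ∈ v.ring) :
    ∃ t₀ y₀ α₀ β₀ : k, v.At D.t t₀ ∧ v.At D.y y₀ ∧ v.At D.α α₀ ∧ v.At D.β β₀ ∧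
      t₀ ^ 3 + y₀ ^ 2 = 1 ∧ α₀ ^ 3 + β₀ ^ 2 = 1 := by
  obtain ⟨t₀, ht₀⟩ := exists_at hK v ht
  obtain ⟨y₀, hy₀⟩ := exists_at hK v (glob_part D.hE ht)
  obtain ⟨α₀, hα₀⟩ := exists_at hK v hα
  obtain ⟨β₀, hβ₀⟩ := exists_at hK v (glob_part D.hE' hα)
  refine ⟨t₀, y₀, α₀, β₀, ht₀, hy₀, hα₀, hβ₀, ?_, ?_⟩
  · have h1 := (ht₀.pow 3).add (hy₀.pow 2)
    rw [D.hE] at h1
    have h2 := Place.at_const (v := v) (1 : k)
    rw [map_one] at h2
    exact h1.unique h2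
  · have h1 := (hα₀.pow 3).add (hβ₀.pow 2)
    rw [D.hE'] at h1
    have h2 := Place.at_const (v := v) (1 : k)
    rw [map_one] at h2
    exact h1.unique h2

/-- the root of unity at a place -/
private theorem glob_eta {z : Pt W k} {K : Type} [Field K] [Algebra k K] (hK : IsCurve k K)
    (D : Dat W z K) (v : Place k K) : ∃ η : Mu k 6, ∀ t₀ y₀ α₀ β₀ : k, v.At D.t t₀ →
      v.At D.y y₀ → v.At D.α α₀ → v.At D.β β₀ → v.Vanishes (D.t ^ 3 - D.α ^ 3) →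
        t₀ = α₀ * mu k η ^ 2 ∧ y₀ = β₀ * mu k η ^ 3 := by
  by_cases h : D.t ∈ v.ring ∧ D.α ∈ v.ring ∧ v.Vanishes (D.t ^ 3 - D.α ^ 3)
  · obtain ⟨ht, hα, hg⟩ := h
    obtain ⟨t₀, y₀, α₀, β₀, ht₀, hy₀, hα₀, hβ₀, hE, hE'⟩ := glob_vals hK D ht hα
    have h1 : α₀ ^ 3 = t₀ ^ 3 := by
      have h2 := (Place.at_zero_iff.2 hg).unique ((ht₀.pow 3).sub (hα₀.pow 3))
      linear_combination h2
    obtain ⟨h2, h3⟩ := ((D.sec v).2 t₀ y₀ α₀ β₀ ht₀ hy₀ hα₀ hβ₀).2.1 h1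
    obtain ⟨η, hη⟩ := exists_eta hE hE' h1 h2 h3
    refine ⟨η, fun t₁ y₁ α₁ β₁ ht₁ hy₁ hα₁ hβ₁ _ => ?_⟩
    rw [ht₁.unique ht₀, hy₁.unique hy₀, hα₁.unique hα₀, hβ₁.unique hβ₀]
    exact hη
  · refine ⟨1, fun t₀ y₀ α₀ β₀ ht₀ hy₀ hα₀ hβ₀ hg => ?_⟩
    exact absurd ⟨ht₀.mem, hα₀.mem, hg⟩ h

/-- the contribution of a place where both points are finite -/
private theorem glob_fin (G : Bi χ χ' W W' V) (hm' : m' = 3 ∨ m' = 6)
    (hχ : Function.Injective χ) (hχ' : Function.Injective χ') (hc : Cmp χ χ')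
    (hn' : W'.e ≤ W'.n) {z : Pt W k} (hz : z.w ≠ 0) {K : Type} [Field K] [Algebra k K]
    (hK : IsCurve k K) (D : Dat W z K) (z' : Pt W' k) (hF : G.F z z' ≠ 0) {v : Place k K}
    (ht : D.t ∈ v.ring) (hα : D.α ∈ v.ring) {η : Mu k 6}
    (hη : ∀ t₀ y₀ α₀ β₀ : k, v.At D.t t₀ → v.At D.y y₀ → v.At D.α α₀ → v.At D.β β₀ →
      v.Vanishes (D.t ^ 3 - D.α ^ 3) → t₀ = α₀ * mu k η ^ 2 ∧ y₀ = β₀ * mu k η ^ 3) :
    ctv G D.Φ D.α D.β D.c' z' v =
      (6 * W.e * ord v (D.t ^ 3 - D.α ^ 3)) • (((χ η : kˣ) : k) • G.F z z') := by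
  obtain ⟨t₀, y₀, α₀, β₀, ht₀, hy₀, hα₀, hβ₀, hE, hE'⟩ := glob_vals hK D ht hα
  have hg0 := glob_g hK D
  have hw6 : algebraMap k K (z.w ^ 6) ≠ 0 := by
    rw [Ne, FaithfulSMul.algebraMap_eq_zero_iff]
    exact pow_ne_zero 6 hz
  obtain ⟨hs1, hs2, hs3⟩ := (D.sec v).2 t₀ y₀ α₀ β₀ ht₀ hy₀ hα₀ hβ₀
  -- the reduction
  have hred : ∃ (r : K) (Ψ : Fam W z k), IsRed v r D.Φ Ψ ∧
      (¬ v.Vanishes (r ^ (6 * W.e) * D.c') ∨ (α₀ ≠ 0 ∧ β₀ ≠ 0)) := by
    by_cases hT : t₀ ∈ D.T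
    · have hA : D.Φ.A.coeff 0 ∈ v.ring := by
        rw [D.hA]
        exact mul_mem (v.const_mem _) ht
      have hB : D.Φ.B.coeff 0 ∈ v.ring := by
        rw [D.hB]
        exact mul_mem (v.const_mem _) hy₀.mem
      obtain ⟨r, Ψ, h⟩ := exists_scale hK v D.Φ D.rad hA hB
      exact ⟨r, Ψ, h, Or.inr (hs3 hT)⟩
    · have hU := D.unr v t₀ ht₀ hT
      obtain ⟨Ψ, h⟩ := exists_red_one hK D.hc' hU
      refine ⟨1, Ψ, h, Or.inl ?_⟩
      rw [one_pow, one_mul, Place.vanishes_iff_or]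
      rintro (h1 | h1)
      · exact D.hc'.1 h1
      · exact h1 hU.2.2.2.2
  obtain ⟨r, Ψ, hr, hcase⟩ := hred
  have hA₀ : Ψ.A.coeff 0 = z.w ^ 2 * t₀ := by
    have h1 := hr.A 0
    rw [pow_zero, one_mul, D.hA] at h1
    exact h1.unique ((Place.at_const _).mul ht₀)
  have hB₀ : Ψ.B.coeff 0 = z.w ^ 3 * y₀ := by
    have h1 := hr.B 0
    rw [pow_zero, one_mul, D.hB] at h1
    exact h1.unique ((Place.at_const _).mul hy₀)
  have hQ : Ψ.Q α₀ β₀ ≠ 0 := by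
    intro h
    have h1 := Ψ.q_zero α₀ β₀
    rw [h, Polynomial.coeff_zero, hA₀, hB₀] at h1
    have h2 : z.w ^ 6 * (t₀ ^ 3 - α₀ ^ 3) = 0 := by
      have h3 : β₀ ^ 2 = 1 - α₀ ^ 3 := by linear_combination hE'
      have h4 : y₀ ^ 2 = 1 - t₀ ^ 3 := by linear_combination hE
      have h5 : β₀ ^ 2 * (z.w ^ 2 * t₀) ^ 3 - α₀ ^ 3 * (z.w ^ 3 * y₀) ^ 2 =
          z.w ^ 6 * (β₀ ^ 2 * t₀ ^ 3 - α₀ ^ 3 * y₀ ^ 2) := by ring
      rw [h5, h3, h4] at h1
      linear_combination -h1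
    have h3 : α₀ ^ 3 = t₀ ^ 3 :=
      (sub_eq_zero.1 ((mul_eq_zero.1 h2).resolve_left (pow_ne_zero 6 hz))).symm
    obtain ⟨h4, h5⟩ := hs2 h3
    have h6 : α₀ ≠ 0 := by
      rintro rfl
      exact pow_ne_zero 3 h4 (by rw [← h3]; norm_num)
    have h7 : β₀ ≠ 0 := by
      rintro rfl
      exact pow_ne_zero 2 h5 (by linear_combination hE - hE' + h3)
    exact hF (deg_c G hχ hz Ψ h6 h7 hE' h z')
  have hQc := glob_q D
  have hQ0 : (D.Φ.Q D.α D.β).coeff 0 ≠ 0 := by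
    rw [hQc]
    exact mul_ne_zero hw6 hg0
  have hord : ord v ((D.Φ.Q D.α D.β).coeff 0) = ord v (D.t ^ 3 - D.α ^ 3) := by
    rw [hQc, ord_mul hK v hw6 hg0, ord_const hK, zero_add]
  have hη' : v.Vanishes ((D.Φ.Q D.α D.β).coeff 0) → ∀ ω₀ : k,
      Ψ.A.coeff 0 = α₀ * ω₀ ^ 2 → Ψ.B.coeff 0 = β₀ * ω₀ ^ 3 → ω₀ = mu k η * z.w := by
    intro h1 ω₀ h2 h3
    have h4 : v.Vanishes (D.t ^ 3 - D.α ^ 3) := by
      rw [vanishes_iff_ord hK hQ0, hord] at h1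
      rw [vanishes_iff_ord hK hg0]
      exact h1
    obtain ⟨h5, h6⟩ := hη t₀ y₀ α₀ β₀ ht₀ hy₀ hα₀ hβ₀ h4
    have h7 : α₀ ^ 3 = t₀ ^ 3 := by
      have h8 := (Place.at_zero_iff.2 h4).unique ((ht₀.pow 3).sub (hα₀.pow 3))
      linear_combination h8
    obtain ⟨h8, h9⟩ := hs2 h7
    have h10 : α₀ ≠ 0 := by
      rintro rfl
      exact h8 (by rw [h5, zero_mul])
    have h11 : β₀ ≠ 0 := by
      rintro rfl
      exact h9 (by rw [h6, zero_mul])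
    rw [hA₀, h5] at h2
    rw [hB₀, h6] at h3
    have h12 : ω₀ ^ 2 = (mu k η * z.w) ^ 2 := by
      apply mul_left_cancel₀ h10
      linear_combination -h2
    have h13 : ω₀ ^ 3 = (mu k η * z.w) ^ 3 := by
      apply mul_left_cancel₀ h11
      linear_combination -h3
    have h14 : mu k η * z.w ≠ 0 := mul_ne_zero (CYU.mu_ne k η) hz
    apply mul_left_cancel₀ (pow_ne_zero 2 h14)
    linear_combination h13 - ω₀ * h12
  rw [loc_fin G hm' hχ hχ' hc hn' hz hK D.hc' hr D.hE' D.hα D.hβ hα₀ hβ₀ hcase hQ hQ0 D.split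
    hη' z', hord, G.eq1]

theorem glob (G : Bi χ χ' W W' V) (hm' : m' = 3 ∨ m' = 6) (hχ : Function.Injective χ)
    (hχ' : Function.Injective χ') (hc : Cmp χ χ') (hn' : W'.e ≤ W'.n) {z : Pt W k}
    (hz : z.w ≠ 0) {K : Type} [Field K] [Algebra k K] (hK : IsCurve k K) (φ : K →ₐ[k] Om k)
    (D : Dat W z K) (z' : Pt W' k) : G.F z z' = 0 := by
  by_contra hF
  have hg0 := glob_g hK D
  have hw6 : algebraMap k K (z.w ^ 6) ≠ 0 := by
    rw [Ne, FaithfulSMul.algebraMap_eq_zero_iff]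
    exact pow_ne_zero 6 hz
  have hQ0 : (D.Φ.Q D.α D.β).coeff 0 ≠ 0 := by
    rw [glob_q D]
    exact mul_ne_zero hw6 hg0
  have hQ : D.Φ.Q D.α D.β ≠ 0 := by
    intro h
    rw [h, Polynomial.coeff_zero] at hQ0
    exact hQ0 rfl
  obtain ⟨hroot, hinf⟩ := D.Φ.root hQ
  -- the relation
  have h1 : ∀ s ∈ (D.Φ.Q D.α D.β).roots,
      (Function.support fun v => ctr (fun q => G.F q z') v (D.Φ.p s 1) (D.Φ.om D.α D.β s 1)
        (D.c' * s ^ (6 * W.e))).Finite ∧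
      ∑ᶠ v, ctr (fun q => G.F q z') v (D.Φ.p s 1) (D.Φ.om D.α D.β s 1)
        (D.c' * s ^ (6 * W.e)) = 0 := by
    intro s hs
    obtain ⟨w, hw⟩ := D.six s hs
    have hs0 : s ≠ 0 := by
      rintro rfl
      have h2 := (Polynomial.mem_roots hQ).1 hs
      rw [Polynomial.IsRoot, ← Polynomial.coeff_zero_eq_eval_zero] at h2
      exact hQ0 h2
    exact rel_fam G hχ hK (fun v => CYU.isVal_base v z') D.Φ D.hc' hs0 hw
      (D.Φ.om_spec D.hα D.hβ D.hE' (hroot s hs)).2.2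
  have h2 : (Function.support fun v => (6 * W.e - (D.Φ.Q D.α D.β).natDegree) •
        ctr (fun q => G.F q z') v (D.Φ.p 1 0) (D.Φ.om D.α D.β 1 0)
        (D.c' * 1 ^ (6 * W.e))).Finite ∧
      ∑ᶠ v, (6 * W.e - (D.Φ.Q D.α D.β).natDegree) •
        ctr (fun q => G.F q z') v (D.Φ.p 1 0) (D.Φ.om D.α D.β 1 0)
        (D.c' * 1 ^ (6 * W.e)) = 0 := by
    by_cases hd : (D.Φ.Q D.α D.β).natDegree < 6 * W.e
    · obtain ⟨w, hw⟩ := D.six'
      obtain ⟨h3, h4⟩ := rel_fam G hχ hK (fun v => CYU.isVal_base v z') D.Φ D.hc' one_ne_zero hw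
        (D.Φ.om_spec D.hα D.hβ D.hE' (hinf hd)).2.2
      refine ⟨h3.subset fun v hv h5 => hv ?_, ?_⟩
      · simp only at h5 ⊢
        rw [h5, smul_zero]
      · rw [← smul_finsum' _ h3, h4, smul_zero]
    · have h3 : 6 * W.e - (D.Φ.Q D.α D.β).natDegree = 0 := by omega
      simp [h3]
  obtain ⟨h3, h4⟩ := glob_sum _ _ h1
  have hsum : ∑ᶠ v, ctv G D.Φ D.α D.β D.c' z' v = 0 := by
    unfold ctv
    rw [finsum_add_distrib h3 h2.1, h4, h2.2, add_zero]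
  -- the roots of unity
  choose η hη using glob_eta hK D
  classical
  set Fn : Place k K → k := fun v => if D.t ∈ v.ring ∧ D.α ∈ v.ring then
    (ord v (D.t ^ 3 - D.α ^ 3) : k) * ((χ (η v) : kˣ) : k) else 0 with hFn
  have hctv : ∀ v, ctv G D.Φ D.α D.β D.c' z' v = (((6 * W.e : ℕ) : k) * Fn v) • G.F z z' := by
    intro v
    by_cases hv : D.t ∈ v.ring ∧ D.α ∈ v.ring
    · rw [glob_fin G hm' hχ hχ' hc hn' hz hK D z' hF hv.1 hv.2 (hη v), hFn]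
      simp only [if_pos hv]
      rw [← Int.cast_smul_eq_zsmul k, smul_smul]
      congr 1
      push_cast
      ring
    · have h5 : D.Φ.A.coeff 0 ∈ v.ring ↔ D.t ∈ v.ring := by
        rw [D.hA]
        constructor
        · intro h6
          have h7 := mul_mem (v.const_mem (z.w ^ 2)⁻¹) h6
          rwa [← mul_assoc, ← map_mul, inv_mul_cancel₀ (pow_ne_zero 2 hz), map_one,
            one_mul] at h7
        · exact fun h6 => mul_mem (v.const_mem _) h6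
      rw [hFn]
      simp only [if_neg hv]
      rw [mul_zero, zero_smul]
      refine loc_inf G hz hK φ D.hc' D.hE' D.hα D.hβ ?_ hQ z'
      rw [h5]
      rcases (D.sec v).1 with h6 | h6
      · exact Or.inr ⟨fun h7 => hv ⟨h6, h7⟩, h6⟩
      · exact Or.inl ⟨h6, fun h7 => hv ⟨h7, h6⟩⟩
  have hne : ∑ᶠ v, Fn v ≠ 0 := by
    refine sum_ne hK D.ht D.hE D.hE' D.sec hχ (η := η) hη ?_ ?_
    · intro v hv
      have h5 : ¬ (D.t ∈ v.ring ∧ D.α ∈ v.ring) := by tauto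
      simp only [hFn, if_neg h5]
    · intro v h5 h6
      simp only [hFn, if_pos (And.intro h5 h6)]
  have h5 : (((6 * W.e : ℕ) : k) * ∑ᶠ v, Fn v) • G.F z z' = 0 := by
    rw [← hsum, mul_finsum, finsum_smul]
    exact finsum_congr fun v => (hctv v).symm
  rcases smul_eq_zero.1 h5 with h6 | h6
  · rcases mul_eq_zero.1 h6 with h7 | h7
    · rw [Nat.cast_eq_zero] at h7
      have := W.pos
      omega
    · exact hne h7
  · exact hF h6

end Pool.Agent.CYS
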