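import Pool.Agent.CYU.IntA
import Pool.Agent.CYU.PolA
import Pool.Agent.TInc.EmbA
import Pool.Agent.GT.Val

/-!
# Coverings of order six: polynomials with `A ^ 3 + B ^ 2` regular

Proof of `int_zero`. Suppose that a coefficient of `A` or `B` is not regular; its index is `> 0`.
Let `Γ` be the set of the roots `ρ` (`ρ ^ i = A_i`), `0 < i ≤ deg A`, and the same for `B` (`Om k` is
algebraically closed), `λ ∈ Γ` with the largest value (`v.ring` is a valuation ring),
`λ ∉ v.ring`, `r = λ⁻¹`, which vanishes at `v`. `r ^ i A_i = (r ρ) ^ i` and `r ^ i B_i` are regular,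
and one of them, `i > 0`, is equal to `1`. Let `a`, `b` be the reductions of `A(r T)`, `B(r T)` (every
element of `v.ring` has a value, `DCI57.exists_at`); at least one of them is not constant. The
coefficients of `R(r T)` with index `> 0` vanish at `v`, so `a ^ 3 + b ^ 2 = C κ`, `κ ≠ 0` the value
of `R.coeff 0`. Contradiction to `CYU.const_of`.

Proof of `int_hom`. Let `V` be a place of `Om k` above `v` (`TInc.exists_above`); it is enough to
show that the coefficients of `A.map φ`, `B.map φ` are in `V.ring`; so let `v` be a place of `Om k`.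
As `hev R (6 e) σ τ` does not vanish, and `e > 0`, `σ` or `τ` is a unit. Let `τ` be a unit,
`T₀ = σ / τ`. `A(T₀) = τ ^ (- 2 e) hev A (2 e) σ τ` is regular (`CYU.hev_ne`), the same for `B`, and
`R(T₀)` is regular and does not vanish. `int_zero` for `A.comp (X + C T₀)` etc., and substitute back
`X - C T₀`. Let `σ` be a unit: use `Polynomial.reflect (2 e) A`, `reflect (3 e) B`,
`reflect (6 e) R` (`reflect_mul`) and `τ / σ` instead of `T₀`.
-/

set_option autoImplicit false

noncomputable section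

namespace Pool.Agent.CYS

open Pool.Agent.ZCyc Pool.Agent.Dess Pool.Agent.TInc Polynomial
open Pool.Agent.CYU (hev)
open Pool.Agent.VFP (Om tt)

variable {k : Type} [Field k] [IsAlgClosed k] [CharZero k]

omit [CharZero k] in
private theorem exists_redO {v : Place k (Om k)} {Q : (Om k)[X]}
    (h : ∀ i, Q.coeff i ∈ v.ring) : ∃ q : k[X], CYU.Red v Q q ∧ q.natDegree ≤ Q.natDegree := by
  have hex : ∀ i, ∃ c : k, v.At (Q.coeff i) c := fun i => DCI57.exists_at v (h i)
  choose c hc using hex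
  refine ⟨∑ i ∈ Finset.range (Q.natDegree + 1), monomial i (c i), ?_, ?_⟩
  · intro i
    rw [finsetSum_coeff]
    simp only [coeff_monomial]
    rw [Finset.sum_ite_eq']
    split_ifs with hi
    · exact hc i
    · have hi' : Q.natDegree < i := by
        rw [Finset.mem_range] at hi
        omega
      rw [coeff_eq_zero_of_natDegree_lt hi']
      exact CYU.at_zero_zero
  · refine natDegree_sum_le_of_forall_le _ _ fun i hi => ?_
    rw [Finset.mem_range] at hi
    exact (natDegree_monomial_le _).trans (by omega)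

private theorem int_key {v : Place k (Om k)} {A B R : (Om k)[X]} (h : A ^ 3 + B ^ 2 = R)
    (hR : ∀ i, R.coeff i ∈ v.ring) (hR0 : ¬ v.Vanishes (R.coeff 0)) {r : Om k}
    (hr : v.Vanishes r) (hA : ∀ i, (A.comp (C r * X)).coeff i ∈ v.ring)
    (hB : ∀ i, (B.comp (C r * X)).coeff i ∈ v.ring)
    (h1 : (∃ i, 0 < i ∧ (A.comp (C r * X)).coeff i = 1) ∨
      ∃ i, 0 < i ∧ (B.comp (C r * X)).coeff i = 1) : False := by
  obtain ⟨a, ha, -⟩ := exists_redO hA
  obtain ⟨b, hb, -⟩ := exists_redO hB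
  obtain ⟨κ, hκ⟩ := DCI57.exists_at v (hR 0)
  have hκ0 : κ ≠ 0 := by
    rintro rfl
    exact hR0 (Place.at_zero_iff.1 hκ)
  have hRr : CYU.Red v (R.comp (C r * X)) (C κ) := by
    intro i
    rw [comp_C_mul_X_coeff]
    rcases Nat.eq_zero_or_pos i with rfl | hi
    · rw [pow_zero, mul_one, coeff_C_zero]
      exact hκ
    · rw [coeff_C_of_ne_zero hi.ne', Place.at_zero_iff]
      exact (hr.pow v hi.ne').mul' v (hR i)
  have hcomp : R.comp (C r * X) = (A.comp (C r * X)) ^ 3 + (B.comp (C r * X)) ^ 2 := by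
    rw [← h, add_comp, pow_comp, pow_comp]
  have heq : a ^ 3 + b ^ 2 = C κ := by
    refine CYU.Red.unique (v := v) ?_ hRr
    rw [hcomp]
    exact (ha.pow 3).add (hb.pow 2)
  obtain ⟨h2, h3⟩ := CYU.const_of (by norm_num) (by norm_num) (by norm_num) hκ0 heq
  have hone : v.At (1 : Om k) (1 : k) := by
    simpa using Place.at_const (v := v) (1 : k)
  rcases h1 with ⟨i, hi, h4⟩ | ⟨i, hi, h4⟩
  · have h5 := ha i
    rw [h4, coeff_eq_zero_of_natDegree_lt (by omega)] at h5
    exact one_ne_zero (hone.unique h5)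
  · have h5 := hb i
    rw [h4, coeff_eq_zero_of_natDegree_lt (by omega)] at h5
    exact one_ne_zero (hone.unique h5)

theorem int_zero {v : Place k (Om k)} {A B R : (Om k)[X]} (h : A ^ 3 + B ^ 2 = R)
    (hR : ∀ i, R.coeff i ∈ v.ring) (hR0 : ¬ v.Vanishes (R.coeff 0)) (hA : A.coeff 0 ∈ v.ring)
    (hB : B.coeff 0 ∈ v.ring) : (∀ i, A.coeff i ∈ v.ring) ∧ ∀ i, B.coeff i ∈ v.ring := by
  classical
  have hroot : ∀ (P : (Om k)[X]) (i : ℕ), ∃ ρ : Om k, 0 < i → ρ ^ i = P.coeff i := by
    intro P i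
    by_cases hi : 0 < i
    · obtain ⟨ρ, hρ⟩ := IsAlgClosed.exists_pow_nat_eq (P.coeff i) hi
      exact ⟨ρ, fun _ => hρ⟩
    · exact ⟨0, fun h => absurd h hi⟩
  choose ρ hρ using hroot
  obtain ⟨N, hNA, hNB⟩ : ∃ N, A.natDegree ≤ N ∧ B.natDegree ≤ N :=
    ⟨max A.natDegree B.natDegree, le_max_left _ _, le_max_right _ _⟩
  by_contra hcon
  let γ : Fin N ⊕ Fin N → Om k := Sum.elim (fun i => ρ A (i.1 + 1)) (fun i => ρ B (i.1 + 1))
  have hbad : ∃ i, γ i ∉ v.ring := by
    rw [not_and_or] at hcon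
    push Not at hcon
    rcases hcon with ⟨i, hi⟩ | ⟨i, hi⟩
    · have hi0 : 0 < i := by
        rcases Nat.eq_zero_or_pos i with rfl | h0
        · exact absurd hA hi
        · exact h0
      have hiN : i ≤ N := by
        by_contra h0
        rw [coeff_eq_zero_of_natDegree_lt (by omega)] at hi
        exact hi v.ring.zero_mem
      refine ⟨Sum.inl ⟨i - 1, by omega⟩, fun h0 => hi ?_⟩
      change ρ A (i - 1 + 1) ∈ v.ring at h0
      rw [Nat.sub_add_cancel hi0] at h0
      rw [← hρ A i hi0]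
      exact pow_mem h0 i
    · have hi0 : 0 < i := by
        rcases Nat.eq_zero_or_pos i with rfl | h0
        · exact absurd hB hi
        · exact h0
      have hiN : i ≤ N := by
        by_contra h0
        rw [coeff_eq_zero_of_natDegree_lt (by omega)] at hi
        exact hi v.ring.zero_mem
      refine ⟨Sum.inr ⟨i - 1, by omega⟩, fun h0 => hi ?_⟩
      change ρ B (i - 1 + 1) ∈ v.ring at h0
      rw [Nat.sub_add_cancel hi0] at h0
      rw [← hρ B i hi0]
      exact pow_mem h0 i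
  obtain ⟨i₁, hi₁⟩ := hbad
  have : Nonempty (Fin N ⊕ Fin N) := ⟨i₁⟩
  obtain ⟨g, hg⟩ := Finite.exists_max fun i => v.ring.valuation (γ i)
  have hgr : γ g ∉ v.ring := by
    intro h0
    apply hi₁
    rw [← ValuationSubring.valuation_le_one_iff] at h0 ⊢
    exact (hg i₁).trans h0
  have hg0 : γ g ≠ 0 := by
    intro h0
    rw [h0] at hgr
    exact hgr v.ring.zero_mem
  obtain ⟨r, hr⟩ : ∃ r, r = (γ g)⁻¹ := ⟨_, rfl⟩
  have hrv : v.Vanishes r := by
    rw [Place.vanishes_iff_or, hr, inv_inv]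
    exact Or.inr hgr
  have hrg : r * γ g = 1 := by
    rw [hr, inv_mul_cancel₀ hg0]
  have hmem : ∀ i, r * γ i ∈ v.ring := by
    intro i
    rw [← ValuationSubring.valuation_le_one_iff, map_mul, hr, map_inv₀]
    have h1 : v.ring.valuation (γ g) ≠ 0 := by
      rw [Ne, map_eq_zero]
      exact hg0
    calc (v.ring.valuation (γ g))⁻¹ * v.ring.valuation (γ i)
        ≤ (v.ring.valuation (γ g))⁻¹ * v.ring.valuation (γ g) := mul_le_mul_right (hg i) _
      _ = 1 := inv_mul_cancel₀ h1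
  have hmA : ∀ i, (A.comp (C r * X)).coeff i ∈ v.ring := by
    intro i
    rw [comp_C_mul_X_coeff]
    rcases Nat.eq_zero_or_pos i with rfl | hi
    · rw [pow_zero, mul_one]
      exact hA
    · by_cases hie : i ≤ N
      · have h1 : r * ρ A (i - 1 + 1) ∈ v.ring := hmem (Sum.inl ⟨i - 1, by omega⟩)
        rw [Nat.sub_add_cancel hi] at h1
        rw [← hρ A i hi, mul_comm, ← mul_pow]
        exact pow_mem h1 i
      · rw [coeff_eq_zero_of_natDegree_lt (by omega), zero_mul]
        exact v.ring.zero_mem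
  have hmB : ∀ i, (B.comp (C r * X)).coeff i ∈ v.ring := by
    intro i
    rw [comp_C_mul_X_coeff]
    rcases Nat.eq_zero_or_pos i with rfl | hi
    · rw [pow_zero, mul_one]
      exact hB
    · by_cases hie : i ≤ N
      · have h1 : r * ρ B (i - 1 + 1) ∈ v.ring := hmem (Sum.inr ⟨i - 1, by omega⟩)
        rw [Nat.sub_add_cancel hi] at h1
        rw [← hρ B i hi, mul_comm, ← mul_pow]
        exact pow_mem h1 i
      · rw [coeff_eq_zero_of_natDegree_lt (by omega), zero_mul]
        exact v.ring.zero_mem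
  refine int_key h hR hR0 hrv hmA hmB ?_
  match g, hrg with
  | Sum.inl i, h4 =>
    left
    refine ⟨i.1 + 1, Nat.succ_pos _, ?_⟩
    change r * ρ A (i.1 + 1) = 1 at h4
    rw [comp_C_mul_X_coeff, ← hρ A (i.1 + 1) (Nat.succ_pos _), mul_comm, ← mul_pow, h4, one_pow]
  | Sum.inr i, h4 =>
    right
    refine ⟨i.1 + 1, Nat.succ_pos _, ?_⟩
    change r * ρ B (i.1 + 1) = 1 at h4
    rw [comp_C_mul_X_coeff, ← hρ B (i.1 + 1) (Nat.succ_pos _), mul_comm, ← mul_pow, h4, one_pow]

section aux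

variable {v : Place k (Om k)}

omit [IsAlgClosed k] [CharZero k] in
private theorem mem_mul {a b : (Om k)[X]} (ha : ∀ i, a.coeff i ∈ v.ring)
    (hb : ∀ i, b.coeff i ∈ v.ring) (i : ℕ) : (a * b).coeff i ∈ v.ring := by
  rw [coeff_mul]
  exact v.ring.sum_mem fun x _ => v.ring.mul_mem _ _ (ha x.1) (hb x.2)

omit [IsAlgClosed k] [CharZero k] in
private theorem mem_pow {a : (Om k)[X]} (ha : ∀ i, a.coeff i ∈ v.ring) (n : ℕ) (i : ℕ) :
    (a ^ n).coeff i ∈ v.ring := by
  induction n generalizing i with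
  | zero =>
    rw [pow_zero, coeff_one]
    split_ifs
    · exact v.ring.one_mem
    · exact v.ring.zero_mem
  | succ n ih =>
    rw [pow_succ]
    exact mem_mul ih ha i

omit [IsAlgClosed k] [CharZero k] in
private theorem mem_comp {a b : (Om k)[X]} (ha : ∀ i, a.coeff i ∈ v.ring)
    (hb : ∀ i, b.coeff i ∈ v.ring) (i : ℕ) : (a.comp b).coeff i ∈ v.ring := by
  rw [comp_eq_sum_left, Polynomial.sum, finsetSum_coeff]
  refine v.ring.sum_mem fun d _ => ?_
  rw [coeff_C_mul]
  exact v.ring.mul_mem _ _ (ha d) (mem_pow hb d i)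

omit [IsAlgClosed k] [CharZero k] in
private theorem mem_lin {c : Om k} (hc : c ∈ v.ring) (i : ℕ) :
    ((X : (Om k)[X]) + C c).coeff i ∈ v.ring := by
  rw [coeff_add, coeff_X, coeff_C]
  refine add_mem ?_ ?_
  · split_ifs
    · exact v.ring.one_mem
    · exact v.ring.zero_mem
  · split_ifs
    · exact hc
    · exact v.ring.zero_mem

private theorem int_unit {e : ℕ} {A B R : (Om k)[X]} (hA : A.natDegree ≤ 2 * e)
    (hB : B.natDegree ≤ 3 * e) (h : A ^ 3 + B ^ 2 = R) (hR : ∀ i, R.coeff i ∈ v.ring)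
    {σ τ : Om k} (hσ : σ ∈ v.ring) (hτ : τ ∈ v.ring) (hτ0 : τ ≠ 0) (hτ1 : τ⁻¹ ∈ v.ring)
    (hR1 : ¬ v.Vanishes (hev R (6 * e) σ τ))
    (hA1 : hev A (2 * e) σ τ ∈ v.ring) (hB1 : hev B (3 * e) σ τ ∈ v.ring) :
    (∀ i, A.coeff i ∈ v.ring) ∧ ∀ i, B.coeff i ∈ v.ring := by
  have hRd : R.natDegree ≤ 6 * e := by
    rw [← h]
    refine (natDegree_add_le _ _).trans (max_le ?_ ?_)
    · exact (natDegree_pow_le_of_le 3 hA).trans (by omega)
    · exact (natDegree_pow_le_of_le 2 hB).trans (by omega)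
  have hval : ∀ {P : (Om k)[X]} {n : ℕ}, P.natDegree ≤ n → hev P n σ τ ∈ v.ring →
      P.eval (σ / τ) ∈ v.ring := by
    intro P n hP h1
    have h2 : P.eval (σ / τ) = τ⁻¹ ^ n * hev P n σ τ := by
      rw [CYU.hev_ne hP σ hτ0, ← mul_assoc, ← mul_pow, inv_mul_cancel₀ hτ0, one_pow, one_mul]
    rw [h2]
    exact v.ring.mul_mem _ _ (pow_mem hτ1 n) h1
  have hT : σ / τ ∈ v.ring := by
    rw [div_eq_mul_inv]
    exact v.ring.mul_mem _ _ hσ hτ1
  have hc0 : ∀ P : (Om k)[X], (P.comp (X + C (σ / τ))).coeff 0 = P.eval (σ / τ) := by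
    intro P
    rw [coeff_zero_eq_eval_zero, eval_comp, eval_add, eval_X, eval_C, zero_add]
  have key := int_zero (v := v) (A := A.comp (X + C (σ / τ))) (B := B.comp (X + C (σ / τ)))
    (R := R.comp (X + C (σ / τ))) (by rw [← h, add_comp, pow_comp, pow_comp])
    (mem_comp hR (mem_lin hT)) (by
      rw [hc0]
      intro h1
      apply hR1
      rw [CYU.hev_ne hRd σ hτ0]
      exact h1.mul' v (pow_mem hτ _)) (by
      rw [hc0]
      exact hval hA hA1) (by
      rw [hc0]
      exact hval hB hB1)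
  have hback : ∀ P : (Om k)[X], (P.comp (X + C (σ / τ))).comp (X + C (-(σ / τ))) = P := by
    intro P
    rw [comp_assoc, add_comp, X_comp, C_comp, add_assoc, ← C_add, neg_add_cancel, C_0, add_zero,
      comp_X]
  have hT' : -(σ / τ) ∈ v.ring := neg_mem hT
  refine ⟨fun i => ?_, fun i => ?_⟩
  · rw [← hback A]
    exact mem_comp key.1 (mem_lin hT') i
  · rw [← hback B]
    exact mem_comp key.2 (mem_lin hT') i

omit [IsAlgClosed k] [CharZero k] in
private theorem hev_reflect (P : (Om k)[X]) (n : ℕ) (s t : Om k) :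
    hev (reflect n P) n s t = hev P n t s := by
  unfold hev
  rw [← Finset.sum_range_reflect]
  refine Finset.sum_congr rfl fun i hi => ?_
  rw [Finset.mem_range] at hi
  have h1 : n + 1 - 1 - i = n - i := by omega
  have h2 : n - (n - i) = i := by omega
  rw [h1, coeff_reflect, revAt_le (by omega), h2]
  ring

private theorem int_om {e : ℕ} (he : 0 < e) {A B R : (Om k)[X]} (hA : A.natDegree ≤ 2 * e)
    (hB : B.natDegree ≤ 3 * e) (h : A ^ 3 + B ^ 2 = R) (hR : ∀ i, R.coeff i ∈ v.ring)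
    {σ τ : Om k} (hσ : σ ∈ v.ring) (hτ : τ ∈ v.ring)
    (hR1 : ¬ v.Vanishes (hev R (6 * e) σ τ))
    (hA1 : hev A (2 * e) σ τ ∈ v.ring) (hB1 : hev B (3 * e) σ τ ∈ v.ring) :
    (∀ i, A.coeff i ∈ v.ring) ∧ ∀ i, B.coeff i ∈ v.ring := by
  by_cases hτ1 : v.Vanishes τ
  · by_cases hσ1 : v.Vanishes σ
    · exfalso
      apply hR1
      have h1 : v.At (hev R (6 * e) σ τ) (∑ i ∈ Finset.range (6 * e + 1), (0 : k)) := by
        refine Place.At.sum fun i hi => ?_
        rw [Finset.mem_range] at hi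
        rw [Place.at_zero_iff]
        rcases Nat.eq_zero_or_pos i with rfl | hi0
        · rw [pow_zero, mul_one]
          exact (hτ1.pow v (by omega)).mul' v (hR 0)
        · exact ((hσ1.pow v hi0.ne').mul' v (hR i)).mul v (pow_mem hτ _)
      rw [Finset.sum_const_zero, Place.at_zero_iff] at h1
      exact h1
    · rw [Place.vanishes_iff_or, not_or, not_not] at hσ1
      have hdr : ∀ {P : (Om k)[X]} {n : ℕ}, P.natDegree ≤ n → (reflect n P).natDegree ≤ n := by
        intro P n hP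
        rw [natDegree_le_iff_coeff_eq_zero]
        intro i hi
        rw [coeff_reflect, revAt_eq_self_of_lt hi]
        exact coeff_eq_zero_of_natDegree_lt (by omega)
      have h3 : reflect (2 * e) A ^ 3 + reflect (3 * e) B ^ 2 = reflect (6 * e) R := by
        have e1 : reflect (2 * e + 2 * e) (A * A) = reflect (2 * e) A * reflect (2 * e) A :=
          reflect_mul A A hA hA
        have e2 : reflect (2 * e + 2 * e + 2 * e) (A * A * A) =
            reflect (2 * e + 2 * e) (A * A) * reflect (2 * e) A :=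
          reflect_mul (A * A) A (natDegree_mul_le_of_le hA hA) hA
        have e3 : reflect (3 * e + 3 * e) (B * B) = reflect (3 * e) B * reflect (3 * e) B :=
          reflect_mul B B hB hB
        have e4 : 2 * e + 2 * e + 2 * e = 6 * e := by ring
        have e5 : 3 * e + 3 * e = 6 * e := by ring
        rw [e4, e1] at e2
        rw [e5] at e3
        rw [← h, reflect_add, pow_succ, pow_two, ← e2, pow_two, ← e3, pow_succ, pow_two, pow_two]
      have key := int_unit (v := v) (e := e) (hdr hA) (hdr hB) h3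
        (fun i => by rw [coeff_reflect]; exact hR _) hτ hσ hσ1.1 hσ1.2
        (by rwa [hev_reflect]) (by rwa [hev_reflect]) (by rwa [hev_reflect])
      refine ⟨fun i => ?_, fun i => ?_⟩
      · have h4 := key.1 (revAt (2 * e) i)
        rwa [coeff_reflect, revAt_invol] at h4
      · have h4 := key.2 (revAt (3 * e) i)
        rwa [coeff_reflect, revAt_invol] at h4
  · rw [Place.vanishes_iff_or, not_or, not_not] at hτ1
    exact int_unit hA hB h hR hσ hτ hτ1.1 hτ1.2 hR1 hA1 hB1

end aux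


theorem int_hom {M : Type} [Field M] [Algebra k M] (hM : IsCurve k M) (φ : M →ₐ[k] Om k)
    {v : Place k M} {e : ℕ} (he : 0 < e) {A B R : M[X]} (hA : A.natDegree ≤ 2 * e)
    (hB : B.natDegree ≤ 3 * e) (h : A ^ 3 + B ^ 2 = R) (hR : ∀ i, R.coeff i ∈ v.ring) {σ τ : M}
    (hσ : σ ∈ v.ring) (hτ : τ ∈ v.ring) (hR1 : ¬ v.Vanishes (hev R (6 * e) σ τ))
    (hA1 : hev A (2 * e) σ τ ∈ v.ring) (hB1 : hev B (3 * e) σ τ ∈ v.ring) :
    (∀ i, A.coeff i ∈ v.ring) ∧ ∀ i, B.coeff i ∈ v.ring := by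
  obtain ⟨V, hV⟩ := exists_above hM v φ
  have hmem : ∀ x : M, φ x ∈ V.ring ↔ x ∈ v.ring := by
    intro x
    rw [← hV]
    rfl
  have hvan : ∀ x : M, V.Vanishes (φ x) ↔ v.Vanishes x := by
    intro x
    rw [Place.vanishes_iff_or, Place.vanishes_iff_or, map_eq_zero, ← map_inv₀, hmem]
  have hhev : ∀ (P : M[X]) (n : ℕ), hev (P.map (φ : M →+* Om k)) n (φ σ) (φ τ) =
      φ (hev P n σ τ) := fun P n => CYU.hev_map (φ : M →+* Om k) P n σ τ
  have hco : ∀ (P : M[X]) (i : ℕ), (P.map (φ : M →+* Om k)).coeff i = φ (P.coeff i) :=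
    fun P i => coeff_map _ _
  have key := int_om (v := V) he (A := A.map (φ : M →+* Om k)) (B := B.map (φ : M →+* Om k))
    (R := R.map (φ : M →+* Om k)) (natDegree_map_le.trans hA) (natDegree_map_le.trans hB)
    (by rw [← h, Polynomial.map_add, Polynomial.map_pow, Polynomial.map_pow])
    (fun i => by rw [hco, hmem]; exact hR i) ((hmem σ).2 hσ) ((hmem τ).2 hτ)
    (by rw [hhev, hvan]; exact hR1) (by rw [hhev, hmem]; exact hA1)
    (by rw [hhev, hmem]; exact hB1)
  refine ⟨fun i => ?_, fun i => ?_⟩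
  · have h4 := key.1 i
    rwa [hco, hmem] at h4
  · have h4 := key.2 i
    rwa [hco, hmem] at h4

end Pool.Agent.CYS
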