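import Pool.Agent.CYS.Fam
import Pool.Agent.CYU.Scl

/-!
# Coverings of order six: the reduction of a family at a place

Proof of `exists_scale`. As `CYU.exists_scale`: let `Γ` be the finite set of the `x1 i`, the roots
`ρ` of `A_i` (`ρ ^ i = A_i`, `0 < i ≤ 2 e`), of `B_i` (`0 < i ≤ 3 e`) and of `c` (`Rad`). Not all
elements of `Γ` are zero (`nt`). Let `γ ∈ Γ`, `γ ≠ 0`, be an element of the smallest order at `v`,
and `r = γ⁻¹`. Then `r δ` is regular at `v` for all `δ ∈ Γ`, and it is a unit for `δ = γ`. So the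
numbers `r x1 i`, `r ^ i A_i`, `r ^ i B_i`, `r ^ (6 e) c` are regular (for `i = 0` by `hA`, `hB`),
and one of them (with `i > 0`) is a unit (`exists_red_of`).

`exists_red_of`: let `Ψ.x1`, `Ψ.A`, `Ψ.B`, `Ψ.c` be the values. `eq`: substitute `r T` for `T` in
`Φ.eq` and reduce (`Red`). `nt`: one of the numbers is a unit; if it is `r ^ (6 e) c` and all
others vanish then `f(z.x) = A(0) ^ 3 + B(0) ^ 2 + Ψ.c T ^ (6 e)` with `Ψ.c ≠ 0`, a contradiction
(`e > 0`).

`exists_red_one`: the same with `r = 1`: all coefficients are regular, and `c'` is a unit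
(`Ct Φ c'`): if `c' = Φ.c` then `Ψ.c ≠ 0`; if `Φ.c = 0`, `c' = x1 i ^ (6 e)`, then `Ψ.x1 i ≠ 0`.

`IsRed.ct`: `r ^ (6 e) c'` is regular; if it vanishes then `Ψ.c = 0`.
-/

set_option autoImplicit false

noncomputable section

namespace Pool.Agent.CYS

open Pool.Agent.ZCyc Pool.Agent.Dess Pool.Agent.TInc Polynomial
open Pool.Agent.CYU (Cov Pt Mu mu hev Red)

variable {k : Type} [Field k] {W : Cov k 6} {z : Pt W k} {K : Type} [Field K] [Algebra k K]

/-- the field contains the roots of the coefficients which are needed for the scale -/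
def Rad (Φ : Fam W z K) : Prop := (∀ i, 0 < i → ∃ ρ, ρ ^ i = Φ.A.coeff i) ∧
  (∀ i, 0 < i → ∃ ρ, ρ ^ i = Φ.B.coeff i) ∧ ∃ ρ, ρ ^ (6 * W.e) = Φ.c

/-- `Ψ` is the reduction at `v` of the family `Φ` with the parameter multiplied by `r` -/
structure IsRed (v : Place k K) (r : K) (Φ : Fam W z K) (Ψ : Fam W z k) : Prop where
  r_ne : r ≠ 0
  x1 : ∀ i, v.At (r * Φ.x1 i) (Ψ.x1 i)
  A : ∀ i, v.At (r ^ i * Φ.A.coeff i) (Ψ.A.coeff i)
  B : ∀ i, v.At (r ^ i * Φ.B.coeff i) (Ψ.B.coeff i)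
  c : v.At (r ^ (6 * W.e) * Φ.c) Ψ.c

/-- the equation with the variable multiplied by `r` -/
theorem Fam.eq_comp (Φ : Fam W z K) (r : K) :
    MvPolynomial.aeval (fun i => C (algebraMap k K (z.x i)) + C (r * Φ.x1 i) * X) W.f =
      (Φ.A.comp (C r * X)) ^ 3 + (Φ.B.comp (C r * X)) ^ 2 +
        C (r ^ (6 * W.e) * Φ.c) * X ^ (6 * W.e) := by
  have h1 := congrArg (Polynomial.aeval (R := K) (C r * X : K[X])) Φ.eq
  have h2 : (Polynomial.aeval (R := K) (C r * X : K[X])) (MvPolynomial.aeval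
      (fun i => C (algebraMap k K (z.x i)) + C (Φ.x1 i) * X) W.f) =
      MvPolynomial.aeval (fun i => C (algebraMap k K (z.x i)) + C (r * Φ.x1 i) * X) W.f := by
    have h3 := MvPolynomial.comp_aeval_apply
      (f := fun i => C (algebraMap k K (z.x i)) + C (Φ.x1 i) * X)
      (φ := (Polynomial.aeval (R := K) (C r * X : K[X])).restrictScalars k) W.f
    have h4 : ((Polynomial.aeval (R := K) (C r * X : K[X])).restrictScalars k)
        (MvPolynomial.aeval (fun i => C (algebraMap k K (z.x i)) + C (Φ.x1 i) * X) W.f) =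
        (Polynomial.aeval (R := K) (C r * X : K[X])) (MvPolynomial.aeval
        (fun i => C (algebraMap k K (z.x i)) + C (Φ.x1 i) * X) W.f) := rfl
    rw [← h4, h3]
    congr 2
    funext i
    rw [AlgHom.restrictScalars_apply, map_add, map_mul, aeval_C, aeval_C, aeval_X, C_mul]
    change C (algebraMap k K (z.x i)) + C (Φ.x1 i) * (C r * X) = _
    ring
  rw [← h2, h1, map_add, map_add, map_pow, map_pow, map_mul, map_pow, aeval_C, aeval_X]
  change (Φ.A.comp (C r * X)) ^ 3 + (Φ.B.comp (C r * X)) ^ 2 + C Φ.c * (C r * X) ^ (6 * W.e) = _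
  rw [mul_pow, C_mul, C_pow]
  ring

omit [Algebra k K] in
theorem vanishes_iff_val_zero [IsAlgClosed k] [CharZero k] [Algebra k K] {v : Place k K} {a : K}
    {b : k} (h : v.At a b) : v.Vanishes a ↔ b = 0 := by
  constructor
  · intro h1
    exact h.unique (Place.at_zero_iff.2 h1)
  · rintro rfl
    exact Place.at_zero_iff.1 h

theorem exists_red_of [IsAlgClosed k] [CharZero k] (hK : IsCurve k K) {v : Place k K}
    {Φ : Fam W z K} {r : K} (hr0 : r ≠ 0) (hmx : ∀ i, r * Φ.x1 i ∈ v.ring)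
    (hmA : ∀ i, (Φ.A.comp (C r * X)).coeff i ∈ v.ring)
    (hmB : ∀ i, (Φ.B.comp (C r * X)).coeff i ∈ v.ring) (hmc : r ^ (6 * W.e) * Φ.c ∈ v.ring)
    (hnt : (∃ i, ¬ v.Vanishes (r * Φ.x1 i)) ∨
      (∃ i, 0 < i ∧ ¬ v.Vanishes ((Φ.A.comp (C r * X)).coeff i)) ∨
      (∃ i, 0 < i ∧ ¬ v.Vanishes ((Φ.B.comp (C r * X)).coeff i)) ∨
      ¬ v.Vanishes (r ^ (6 * W.e) * Φ.c)) :
    ∃ Ψ : Fam W z k, IsRed v r Φ Ψ := by
  obtain ⟨A₀, hA₀, hA₀d⟩ := CYU.exists_red hK hmA
  obtain ⟨B₀, hB₀, hB₀d⟩ := CYU.exists_red hK hmB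
  have hx₀ : ∀ i, v.At (r * Φ.x1 i) (val v (r * Φ.x1 i)) := fun i => at_val hK (hmx i)
  have hc₀ : v.At (r ^ (6 * W.e) * Φ.c) (val v (r ^ (6 * W.e) * Φ.c)) := at_val hK hmc
  have heq : MvPolynomial.aeval
      (fun i => C (algebraMap k k (z.x i)) + C (val v (r * Φ.x1 i)) * X) W.f =
      A₀ ^ 3 + B₀ ^ 2 + C (val v (r ^ (6 * W.e) * Φ.c)) * X ^ (6 * W.e) := by
    refine CYU.Red.unique (v := v) (CYU.Red.aeval W.f
      (p := fun i => C (algebraMap k K (z.x i)) + C (r * Φ.x1 i) * X) fun i => ?_) ?_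
    · exact (CYU.Red.C (Place.at_const _)).add ((CYU.Red.C (hx₀ i)).mul CYU.Red.X)
    · rw [Φ.eq_comp r]
      exact ((hA₀.pow 3).add (hB₀.pow 2)).add ((CYU.Red.C hc₀).mul (CYU.Red.X.pow _))
  refine ⟨⟨Φ.i₀, Φ.hi₀, fun i => val v (r * Φ.x1 i), ?_, A₀, B₀,
    hA₀d.trans (CYU.natDegree_comp_lin_le Φ.degA r),
    hB₀d.trans (CYU.natDegree_comp_lin_le Φ.degB r),
    val v (r ^ (6 * W.e) * Φ.c), heq, ?_⟩, hr0, hx₀, ?_, ?_, hc₀⟩
  · have h1 := hx₀ Φ.i₀
    rw [Φ.h1, mul_zero] at h1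
    simp only [Φ.h1, mul_zero]
    exact h1.unique CYU.at_zero_zero
  · by_contra hcon
    push Not at hcon
    obtain ⟨h1, h2, h3⟩ := hcon
    rcases hnt with ⟨i, hi⟩ | ⟨i, hi0, hi⟩ | ⟨i, hi0, hi⟩ | hi
    · exact hi ((vanishes_iff_val_zero (hx₀ i)).2 (congrFun h1 i))
    · exact hi ((vanishes_iff_val_zero (hA₀ i)).2
        (coeff_eq_zero_of_natDegree_lt (by omega)))
    · exact hi ((vanishes_iff_val_zero (hB₀ i)).2
        (coeff_eq_zero_of_natDegree_lt (by omega)))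
    · have h4 : val v (r ^ (6 * W.e) * Φ.c) ≠ 0 := fun h0 =>
        hi ((vanishes_iff_val_zero hc₀).2 h0)
      have h5 : (fun i => C (algebraMap k k (z.x i)) + C (val v (r * Φ.x1 i)) * X) =
          fun i => (C (algebraMap k k (z.x i)) : k[X]) := by
        funext i
        have h6 : val v (r * Φ.x1 i) = 0 := congrFun h1 i
        rw [h6, C_0, zero_mul, add_zero]
      have hme : 6 * W.e ≠ 0 := mul_ne_zero (by norm_num) W.pos.ne'
      have h7 := congrArg (fun P : k[X] => P.coeff (6 * W.e)) heq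
      rw [h5] at h7
      rw [CYU.aeval_const, eq_C_of_natDegree_eq_zero h2, eq_C_of_natDegree_eq_zero h3,
        coeff_add, coeff_add, ← C_pow, ← C_pow, coeff_C_of_ne_zero hme, coeff_C_of_ne_zero hme,
        coeff_C_of_ne_zero hme, coeff_C_mul, coeff_X_pow_self, mul_one, zero_add, zero_add] at h7
      exact h4 h7.symm
  · intro i
    have h1 := hA₀ i
    rw [comp_C_mul_X_coeff, mul_comm] at h1
    exact h1
  · intro i
    have h1 := hB₀ i
    rw [comp_C_mul_X_coeff, mul_comm] at h1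
    exact h1

theorem exists_scale [IsAlgClosed k] [CharZero k] (hK : IsCurve k K) (v : Place k K)
    (Φ : Fam W z K) (hr : Rad Φ) (hA : Φ.A.coeff 0 ∈ v.ring) (hB : Φ.B.coeff 0 ∈ v.ring) :
    ∃ (r : K) (Ψ : Fam W z k), IsRed v r Φ Ψ := by
  classical
  obtain ⟨hrA, hrB, ρc, hρc⟩ := hr
  choose! ρA hρA using hrA
  choose! ρB hρB using hrB
  -- the finite family
  let γ : Fin (W.n + 1) ⊕ (Fin (2 * W.e) ⊕ (Fin (3 * W.e) ⊕ Unit)) → K :=
    Sum.elim Φ.x1 (Sum.elim (fun i => ρA (i.1 + 1)) (Sum.elim (fun i => ρB (i.1 + 1))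
      (fun _ => ρc)))
  have hne : ∃ i, γ i ≠ 0 := by
    rcases Φ.nt with h | h | h
    · obtain ⟨i, hi⟩ := Function.ne_iff.1 h
      exact ⟨Sum.inl i, hi⟩
    · have h1 : Φ.A.coeff Φ.A.natDegree ≠ 0 := by
        rw [coeff_natDegree, Ne, leadingCoeff_eq_zero]
        intro h0
        rw [h0, natDegree_zero] at h
        exact h rfl
      have h2 := Φ.degA
      refine ⟨Sum.inr (Sum.inl ⟨Φ.A.natDegree - 1, by omega⟩), ?_⟩
      change ρA (Φ.A.natDegree - 1 + 1) ≠ 0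
      rw [Nat.sub_add_cancel (by omega)]
      intro h0
      have h3 := hρA Φ.A.natDegree (by omega)
      rw [h0, zero_pow h] at h3
      exact h1 h3.symm
    · have h1 : Φ.B.coeff Φ.B.natDegree ≠ 0 := by
        rw [coeff_natDegree, Ne, leadingCoeff_eq_zero]
        intro h0
        rw [h0, natDegree_zero] at h
        exact h rfl
      have h2 := Φ.degB
      refine ⟨Sum.inr (Sum.inr (Sum.inl ⟨Φ.B.natDegree - 1, by omega⟩)), ?_⟩
      change ρB (Φ.B.natDegree - 1 + 1) ≠ 0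
      rw [Nat.sub_add_cancel (by omega)]
      intro h0
      have h3 := hρB Φ.B.natDegree (by omega)
      rw [h0, zero_pow h] at h3
      exact h1 h3.symm
  obtain ⟨i₁, hi₁⟩ := hne
  obtain ⟨g, hg, hmin⟩ := Finset.exists_min_image
    (Finset.univ.filter fun i => γ i ≠ 0) (fun i => ord v (γ i))
    ⟨i₁, Finset.mem_filter.2 ⟨Finset.mem_univ _, hi₁⟩⟩
  have hg0 : γ g ≠ 0 := (Finset.mem_filter.1 hg).2
  obtain ⟨r, hr⟩ : ∃ r, r = (γ g)⁻¹ := ⟨_, rfl⟩
  have hr0 : r ≠ 0 := by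
    rw [hr]
    exact inv_ne_zero hg0
  have hrg : r * γ g = 1 := by
    rw [hr, inv_mul_cancel₀ hg0]
  have hmem : ∀ i, r * γ i ∈ v.ring := by
    intro i
    by_cases hi : γ i = 0
    · rw [hi, mul_zero]
      exact v.ring.zero_mem
    · have h1 := hmin i (Finset.mem_filter.2 ⟨Finset.mem_univ _, hi⟩)
      rw [mem_iff_ord hK (mul_ne_zero hr0 hi), ord_mul hK v hr0 hi, hr, ord_inv hK]
      omega
  have hmx : ∀ i, r * Φ.x1 i ∈ v.ring := fun i => hmem (Sum.inl i)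
  have hmA : ∀ i, (Φ.A.comp (C r * X)).coeff i ∈ v.ring := by
    intro i
    rw [comp_C_mul_X_coeff]
    rcases Nat.eq_zero_or_pos i with rfl | hi
    · rw [pow_zero, mul_one]
      exact hA
    · by_cases hie : i ≤ 2 * W.e
      · have h1 : r * ρA (i - 1 + 1) ∈ v.ring :=
          hmem (Sum.inr (Sum.inl ⟨i - 1, by omega⟩))
        rw [Nat.sub_add_cancel hi] at h1
        rw [← hρA i hi, mul_comm, ← mul_pow]
        exact pow_mem h1 i
      · have h1 := Φ.degA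
        rw [coeff_eq_zero_of_natDegree_lt (by omega), zero_mul]
        exact v.ring.zero_mem
  have hmB : ∀ i, (Φ.B.comp (C r * X)).coeff i ∈ v.ring := by
    intro i
    rw [comp_C_mul_X_coeff]
    rcases Nat.eq_zero_or_pos i with rfl | hi
    · rw [pow_zero, mul_one]
      exact hB
    · by_cases hie : i ≤ 3 * W.e
      · have h1 : r * ρB (i - 1 + 1) ∈ v.ring :=
          hmem (Sum.inr (Sum.inr (Sum.inl ⟨i - 1, by omega⟩)))
        rw [Nat.sub_add_cancel hi] at h1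
        rw [← hρB i hi, mul_comm, ← mul_pow]
        exact pow_mem h1 i
      · have h1 := Φ.degB
        rw [coeff_eq_zero_of_natDegree_lt (by omega), zero_mul]
        exact v.ring.zero_mem
  have hmc : r ^ (6 * W.e) * Φ.c ∈ v.ring := by
    rw [← hρc, ← mul_pow]
    exact pow_mem (hmem (Sum.inr (Sum.inr (Sum.inr ())))) _
  have hone : ¬ v.Vanishes (1 : K) := by
    have := v.const_unit (one_ne_zero (α := k))
    simpa using this
  refine ⟨r, exists_red_of hK hr0 hmx hmA hmB hmc ?_⟩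
  match g, hrg with
  | Sum.inl i, h =>
    left
    refine ⟨i, ?_⟩
    change r * Φ.x1 i = 1 at h
    rw [h]
    exact hone
  | Sum.inr (Sum.inl i), h =>
    right
    left
    refine ⟨i.1 + 1, Nat.succ_pos _, ?_⟩
    change r * ρA (i.1 + 1) = 1 at h
    rw [comp_C_mul_X_coeff, ← hρA (i.1 + 1) (Nat.succ_pos _), mul_comm, ← mul_pow, h, one_pow]
    exact hone
  | Sum.inr (Sum.inr (Sum.inl i)), h =>
    right
    right
    left
    refine ⟨i.1 + 1, Nat.succ_pos _, ?_⟩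
    change r * ρB (i.1 + 1) = 1 at h
    rw [comp_C_mul_X_coeff, ← hρB (i.1 + 1) (Nat.succ_pos _), mul_comm, ← mul_pow, h, one_pow]
    exact hone
  | Sum.inr (Sum.inr (Sum.inr ())), h =>
    right
    right
    right
    change r * ρc = 1 at h
    rw [← hρc, ← mul_pow, h, one_pow]
    exact hone

/-- all coefficients are regular and `c'` is a unit -/
def Unr (Φ : Fam W z K) (c' : K) (v : Place k K) : Prop := (∀ i, Φ.x1 i ∈ v.ring) ∧
  (∀ i, Φ.A.coeff i ∈ v.ring) ∧ (∀ i, Φ.B.coeff i ∈ v.ring) ∧ c' ∈ v.ring ∧ c'⁻¹ ∈ v.ring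

theorem exists_red_one [IsAlgClosed k] [CharZero k] (hK : IsCurve k K) {v : Place k K}
    {Φ : Fam W z K} {c' : K} (hc' : Ct Φ c') (h : Unr Φ c' v) :
    ∃ Ψ : Fam W z k, IsRed v 1 Φ Ψ := by
  obtain ⟨hx, hA, hB, hc, hc1⟩ := h
  have hcv : ¬ v.Vanishes c' := by
    intro h0
    rw [Place.vanishes_iff_or] at h0
    rcases h0 with h0 | h0
    · exact hc'.1 h0
    · exact h0 hc1
  have hcoef : ∀ (P : K[X]) (i : ℕ), (P.comp (C 1 * X)).coeff i = P.coeff i := by
    intro P i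
    rw [comp_C_mul_X_coeff, one_pow, mul_one]
  refine exists_red_of hK one_ne_zero (fun i => ?_) (fun i => ?_) (fun i => ?_) ?_ ?_
  · rw [one_mul]
    exact hx i
  · rw [hcoef]
    exact hA i
  · rw [hcoef]
    exact hB i
  · rw [one_pow, one_mul]
    rcases hc'.2 with h1 | ⟨h1, -⟩
    · rw [← h1]
      exact hc
    · rw [h1]
      exact v.ring.zero_mem
  · rcases hc'.2 with h1 | ⟨-, i, h1⟩
    · right
      right
      right
      rw [one_pow, one_mul, ← h1]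
      exact hcv
    · left
      refine ⟨i, fun h2 => hcv ?_⟩
      rw [one_mul] at h2
      rw [h1]
      exact h2.pow v (mul_ne_zero (by norm_num) W.pos.ne')

/-- the values of the forms: `(s : t) = (r σ : τ)` -/
theorem IsRed.hev {v : Place k K} {r : K} {Φ : Fam W z K} {Ψ : Fam W z k}
    (h : IsRed v r Φ Ψ) {σ τ : K} {σ₀ τ₀ : k} (hσ : v.At σ σ₀) (hτ : v.At τ τ₀) :
    (∀ i, v.At (Φ.p (r * σ) τ i) (Ψ.p σ₀ τ₀ i)) ∧ v.At (Φ.a (r * σ) τ) (Ψ.a σ₀ τ₀) ∧
      v.At (Φ.b (r * σ) τ) (Ψ.b σ₀ τ₀) := by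
  refine ⟨fun i => ?_, ?_, ?_⟩
  · have h1 := ((Place.at_const (v := v) (z.x i)).mul hτ).add ((h.x1 i).mul hσ)
    unfold Fam.p
    have h2 : algebraMap k K (z.x i) * τ + Φ.x1 i * (r * σ) =
        algebraMap k K (z.x i) * τ + r * Φ.x1 i * σ := by ring
    rw [h2]
    exact h1
  · unfold Fam.a
    rw [← CYU.hev_comp]
    refine CYU.at_hev (fun i => ?_) _ hσ hτ
    rw [comp_C_mul_X_coeff, mul_comm]
    exact h.A i
  · unfold Fam.b
    rw [← CYU.hev_comp]
    refine CYU.at_hev (fun i => ?_) _ hσ hτ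
    rw [comp_C_mul_X_coeff, mul_comm]
    exact h.B i

/-- the reduction of the polynomial `Q` with the variable multiplied by `r` -/
theorem IsRed.q {v : Place k K} {r : K} {Φ : Fam W z K} {Ψ : Fam W z k}
    (h : IsRed v r Φ Ψ) {α β : K} {α₀ β₀ : k} (hα : v.At α α₀) (hβ : v.At β β₀) :
    Red v ((Φ.Q α β).comp (C r * X)) (Ψ.Q α₀ β₀) := by
  have hA : Red v (Φ.A.comp (C r * X)) Ψ.A := by
    intro i
    rw [comp_C_mul_X_coeff, mul_comm]
    exact h.A i
  have hB : Red v (Φ.B.comp (C r * X)) Ψ.B := by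
    intro i
    rw [comp_C_mul_X_coeff, mul_comm]
    exact h.B i
  have h1 : (Φ.Q α β).comp (C r * X) =
      C (β ^ 2) * (Φ.A.comp (C r * X)) ^ 3 - C (α ^ 3) * (Φ.B.comp (C r * X)) ^ 2 := by
    unfold Fam.Q
    rw [sub_comp, mul_comp, C_comp, pow_comp, mul_comp, C_comp, pow_comp]
  rw [h1]
  exact ((CYU.Red.C (hβ.pow 2)).mul (hA.pow 3)).sub ((CYU.Red.C (hα.pow 3)).mul (hB.pow 2))

theorem IsRed.ct [IsAlgClosed k] [CharZero k] (hK : IsCurve k K) {v : Place k K} {r : K}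
    {Φ : Fam W z K} {Ψ : Fam W z k} (h : IsRed v r Φ Ψ) {c' : K} (hc' : Ct Φ c') :
    r ^ (6 * W.e) * c' ∈ v.ring ∧ (v.Vanishes (r ^ (6 * W.e) * c') → Ψ.c = 0) := by
  rcases hc'.2 with h1 | ⟨h1, i, h2⟩
  · rw [h1]
    exact ⟨h.c.mem, fun h3 => (vanishes_iff_val_zero h.c).1 h3⟩
  · refine ⟨?_, fun _ => ?_⟩
    · rw [h2, ← mul_pow]
      exact pow_mem (h.x1 i).mem _
    · have h3 := h.c
      rw [h1, mul_zero] at h3
      exact h3.unique CYU.at_zero_zero

end Pool.Agent.CYS
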