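import Pool.Agent.CYS.Par
import Pool.Agent.CYS.Scl

/-!
# Coverings of order six: Lemma C

`Φ` is a family over `k` with `Φ.c = 0`, `(α₀, β₀)` a point of `E : α ^ 3 + β ^ 2 = 1`, `α₀, β₀ ≠
0`. To every root `T` of `Q = β₀ ^ 2 A ^ 3 - α₀ ^ 3 B ^ 2` belongs the point `P T` of `W` with the
coordinates `p(T)` and `w = Φ.om α₀ β₀ T 1`, to the root `∞` (of multiplicity `6 e - deg Q`) the
point `P'` with the coordinates `x1`, `w = Φ.om α₀ β₀ 1 0`.

Proof of `lem_c`. If `z'.w = 0` all terms are zero (`CYU.Bi.zero2`). Otherwise `par` for `α₀`,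
`β₀`. In the first case all terms are zero. In the second case let `α`, `β`, `S` be as in `Alt`,
and `H = β ^ 2 A ^ 3 - α ^ 3 B ^ 2`, a polynomial over `Om k` (`(Φ.map _).Q α β`). `H ≠ 0`: more
generally, if `x, y ∈ k` are not both zero, then `β ^ 2 x ^ 3 ≠ α ^ 3 y ^ 2`: otherwise `(1 - α ^
3) x ^ 3 = α ^ 3 y ^ 2`, `α ^ 3 (x ^ 3 + y ^ 2) = x ^ 3`, and `α` would be algebraic, or `x ^ 3 +
y ^ 2 = 0` and `x = 0`, `y = 0`. The coefficient of `T ^ 0` of `H` is of this form, `A(0) ^ 3 +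
B(0) ^ 2 = z.w ^ 6 ≠ 0`; the coefficient of `T ^ (6 e)` is of this form with `x = A_(2 e)`, `y =
B_(3 e)`: if `deg H < 6 e` then both are zero. Let `K` be a curve (`CYU.exists_curve`) with `S`,
`α`, `β` and all roots `T_i` of `H`. `P_i = (p(T_i), om α β T_i 1)` is a point of `W` over `K`
(`Fam.om_spec`, `Fam.heval`, `α, β ≠ 0`); `Alt` with the values `p_i v` of `P_i`; sum over `i`
(with multiplicities). Let `v` be a zero of `s`, `a = a v`, and `a₆ : Mu k 6` with the same number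
in `k` (`m'` divides `6`). `G.F (p_i v) (z'.tw a) = G.F ((p_i v).tw a₆⁻¹) z'` (`diag`). We show
that `∑ i, G.F ((p_i v).tw a₆⁻¹) z'` is the sum `x` in the theorem; then the relation says `(∑ v,
ord v s) • x = 0` (`CYU.over_fin`), so `x = 0`. The reduction of `H` at `v` is `Q ≠ 0`, because `β
^ 2`, `α ^ 3` have the values `β₀ ^ 2`, `α₀ ^ 3` (`a ^ 6 = 1`); use `CYU.red_roots_hom` or
`CYU.red_roots` and `CYU.card_regular`. Let `T_i` have the value `T` at `v`: `p_i v` has the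
coordinates `p(T) ≠ 0` (up to a homothety), `om α β T_i 1` is regular (its sixth power is
regular), and its value `ω₀` satisfies `A(T) = a ^ (-2) α₀ ω₀ ^ 2`, `B(T) = a ^ (-3) β₀ ω₀ ^ 3`,
so `a ^ (-1) ω₀ = Φ.om α₀ β₀ T 1` (`om_unique`): `(p_i v).tw a₆⁻¹` is `P T` up to a homothety. Let
`T_i` be not regular at `v`: with the factor `1 / T_i` (`Fam.smul`) the value of the coordinates
is `x1 ≠ 0` (`Fam.x1_ne`), and the value of `w` is, as before, `a Φ.om α₀ β₀ 1 0`: `(p_i v).tw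
a₆⁻¹` is `P'` up to a homothety. There are `deg H - deg Q` such `i`. If `deg H = 6 e` we are done;
otherwise `A_(2 e) = B_(3 e) = 0`, so `Φ.om α₀ β₀ 1 0 = 0`, `P'.w = 0` and `G.F P' z' = 0` (and
the same for the value of `P_i`): `CYU.Bi.zero1`.
-/

set_option autoImplicit false

noncomputable section

namespace Pool.Agent.CYS

open Pool.Agent.ZCyc Pool.Agent.Dess Pool.Agent.TInc Polynomial
open Pool.Agent.CYU (Cov Pt Mu mu hev Bi IsVal ctr Spec Inv)
open Pool.Agent.VFP (Om tt)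

variable {k : Type} [Field k] [IsAlgClosed k] [CharZero k] {m' : ℕ} [NeZero m']
  {V : Type} [AddCommGroup V] [Module k V] {χ : Mu k 6 →* kˣ} {χ' : Mu k m' →* kˣ}
  {W : Cov k 6} {W' : Cov k m'}

/-- the two characters agree on the common roots of unity -/
def Cmp (χ : Mu k 6 →* kˣ) (χ' : Mu k m' →* kˣ) : Prop :=
  ∀ (a : Mu k 6) (a' : Mu k m'), (a : kˣ) = (a' : kˣ) → χ a = χ' a'

omit [IsAlgClosed k] [CharZero k] [NeZero m'] in
theorem exists_six (hm' : m' = 3 ∨ m' = 6) (a : Mu k m') : ∃ a₆ : Mu k 6, (a₆ : kˣ) = (a : kˣ) := by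
  have h1 : (a : kˣ) ^ m' = 1 := (mem_rootsOfUnity _ _).1 a.2
  have h2 : (a : kˣ) ^ 6 = 1 := by
    have h3 : m' ∣ 6 := by
      rcases hm' with h | h
      · rw [h]
        norm_num
      · rw [h]
    obtain ⟨d, hd⟩ := h3
    rw [hd, pow_mul, h1, one_pow]
  exact ⟨⟨(a : kˣ), (mem_rootsOfUnity _ _).2 h2⟩, rfl⟩

omit [NeZero m'] in
theorem diag (G : Bi χ χ' W W' V) (hc : Cmp χ χ') {a₆ : Mu k 6} {a : Mu k m'}
    (h : (a₆ : kˣ) = (a : kˣ)) (p : Pt W k) (p' : Pt W' k) :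
    G.F (p.tw a₆) (p'.tw a) = G.F p p' := by
  rw [G.eq1, G.eq2, smul_smul, hc a₆ a h, map_inv]
  simp

omit [NeZero m'] [IsAlgClosed k] [CharZero k] in
private lemma lemc_mu {a₆ : Mu k 6} {a : Mu k m'} (h : (a₆ : kˣ) = (a : kˣ)) (K : Type) [Field K]
    [Algebra k K] : mu K a₆ = mu K a := by
  unfold mu
  rw [h]

omit [IsAlgClosed k] [CharZero k] in
private lemma lemc_map_p {K : Type} [Field K] [Algebra k K] {z : Pt W k} (Φ : Fam W z k)
    {v : Place k K} {s t : K} {s₀ t₀ : k} (hs : v.At s s₀) (ht : v.At t t₀) (i : Fin (W.n + 1)) :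
    v.At ((Φ.map (Algebra.ofId k K)).p s t i) (Φ.p s₀ t₀ i) :=
  ((Place.at_const _).mul ht).add ((Place.at_const _).mul hs)

omit [IsAlgClosed k] [CharZero k] in
private lemma lemc_red {K : Type} [Field K] [Algebra k K] {v : Place k K} (P : k[X]) :
    CYU.Red v (P.map (Algebra.ofId k K : k →+* K)) P := by
  intro i
  rw [coeff_map]
  exact Place.at_const _

omit [IsAlgClosed k] [CharZero k] in
private lemma lemc_map_a {K : Type} [Field K] [Algebra k K] {z : Pt W k} (Φ : Fam W z k)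
    {v : Place k K} {s t : K} {s₀ t₀ : k} (hs : v.At s s₀) (ht : v.At t t₀) :
    v.At ((Φ.map (Algebra.ofId k K)).a s t) (Φ.a s₀ t₀) ∧
      v.At ((Φ.map (Algebra.ofId k K)).b s t) (Φ.b s₀ t₀) :=
  ⟨CYU.at_hev (lemc_red Φ.A) _ hs ht, CYU.at_hev (lemc_red Φ.B) _ hs ht⟩

/-- the value of the number `om` -/
private lemma lemc_om {K : Type} [Field K] [Algebra k K] (hK : IsCurve k K) {z : Pt W k}
    (Φ : Fam W z k) {v : Place k K} {α β : K} (hα : α ≠ 0) (hβ : β ≠ 0)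
    (hE : α ^ 3 + β ^ 2 = 1) {α₀ β₀ b : k} (hα₀ : α₀ ≠ 0) (hβ₀ : β₀ ≠ 0) (hb : b ≠ 0)
    (hvα : v.At α (b⁻¹ ^ 2 * α₀)) (hvβ : v.At β (b⁻¹ ^ 3 * β₀)) {s t : K} {s₀ t₀ : k}
    (hs : v.At s s₀) (ht : v.At t t₀)
    (h : β ^ 2 * (Φ.map (Algebra.ofId k K)).a s t ^ 3 =
      α ^ 3 * (Φ.map (Algebra.ofId k K)).b s t ^ 2) :
    v.At ((Φ.map (Algebra.ofId k K)).om α β s t) (b * Φ.om α₀ β₀ s₀ t₀) := by
  obtain ⟨e1, e2, e3⟩ := (Φ.map (Algebra.ofId k K)).om_spec hα hβ hE h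
  obtain ⟨ha, hb'⟩ := lemc_map_a Φ hs ht
  have h1 : (Φ.map (Algebra.ofId k K)).om α β s t ∈ v.ring := by
    refine CYU.mem_of_pow v (n := 6) (by norm_num) ?_
    rw [e3]
    exact ((ha.pow 3).add (hb'.pow 2)).mem
  obtain ⟨ω₀, hω⟩ := exists_at hK v h1
  have h2 : Φ.a s₀ t₀ = b⁻¹ ^ 2 * α₀ * ω₀ ^ 2 := by
    refine ha.unique ?_
    rw [e1]
    exact hvα.mul (hω.pow 2)
  have h3 : Φ.b s₀ t₀ = b⁻¹ ^ 3 * β₀ * ω₀ ^ 3 := by
    refine hb'.unique ?_
    rw [e2]
    exact hvβ.mul (hω.pow 3)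
  have h4 : b⁻¹ * ω₀ = Φ.om α₀ β₀ s₀ t₀ := by
    refine Φ.om_unique hα₀ hβ₀ ?_ ?_
    · rw [h2]
      ring
    · rw [h3]
      ring
  rw [← h4, mul_inv_cancel_left₀ hb]
  exact hω

omit [IsAlgClosed k] [CharZero k] in
private lemma lemc_indep {α β : Om k} (hE : α ^ 3 + β ^ 2 = 1) (hα : Transcendental k α) {x y : k}
    (h : β ^ 2 * algebraMap k (Om k) x ^ 3 = α ^ 3 * algebraMap k (Om k) y ^ 2) :
    x = 0 ∧ y = 0 := by
  have hα0 : α ≠ 0 := by
    rintro rfl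
    exact hα isAlgebraic_zero
  have h1 : α ^ 3 * algebraMap k (Om k) (x ^ 3 + y ^ 2) = algebraMap k (Om k) (x ^ 3) := by
    rw [map_add, map_pow, map_pow]
    linear_combination (algebraMap k (Om k) x ^ 3) * hE - h
  by_cases h2 : x ^ 3 + y ^ 2 = 0
  · rw [h2, map_zero, mul_zero] at h1
    have h3 : x ^ 3 = 0 := by
      apply (algebraMap k (Om k)).injective
      rw [← h1, map_zero]
    rw [h3, zero_add] at h2
    exact ⟨pow_eq_zero_iff (by norm_num) |>.1 h3, pow_eq_zero_iff (by norm_num) |>.1 h2⟩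
  · exfalso
    apply hα
    refine IsAlgebraic.of_pow (n := 3) (by norm_num) ?_
    have h3 : algebraMap k (Om k) (x ^ 3 + y ^ 2) ≠ 0 := by
      rw [Ne, map_eq_zero]
      exact h2
    have h4 : α ^ 3 = algebraMap k (Om k) (x ^ 3 / (x ^ 3 + y ^ 2)) := by
      rw [map_div₀, eq_div_iff h3, h1]
    rw [h4]
    exact isAlgebraic_algebraMap _

omit [Module k V] in
open Classical in
private lemma lemc_sum {K : Type} [Field K] [Algebra k K] (hK : IsCurve k K) {s : K} (hs : s ≠ 0)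
    (M : Multiset K) {F : K → Place k K → V}
    (h : ∀ T, ∑ᶠ v : Place k K, (if v.Vanishes s then ord v s • F T v else 0) = 0) :
    ∑ᶠ v : Place k K, (if v.Vanishes s then
      ord v s • (M.map fun T => F T v).sum else 0) = 0 := by
  have hfin : ∀ X : Place k K → V,
      (Function.support fun v => if v.Vanishes s then ord v s • X v else 0).Finite := by
    intro X
    apply (finite_ord hK s).subset
    intro v hv
    by_contra h0
    apply hv
    show (if v.Vanishes s then ord v s • X v else 0) = 0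
    split_ifs with h1
    · exact absurd ((vanishes_iff_ord hK hs).1 h1) (by
        intro h2
        exact h0 h2.ne')
    · rfl
  induction M using Multiset.induction_on with
  | empty => simp
  | cons T M ih =>
    have e : (fun v : Place k K => if v.Vanishes s then
        ord v s • ((T ::ₘ M).map fun T => F T v).sum else 0) =
        fun v => (if v.Vanishes s then ord v s • F T v else 0) +
          (if v.Vanishes s then ord v s • (M.map fun T => F T v).sum else 0) := by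
      funext v
      rw [Multiset.map_cons, Multiset.sum_cons]
      split_ifs
      · rw [smul_add]
      · rw [add_zero]
    have h1 := finsum_add_distrib (hfin (F T)) (hfin fun v => (M.map fun T => F T v).sum)
    rw [e, h1, h T, ih, add_zero]

theorem lem_c (G : Bi χ χ' W W' V) (hm' : m' = 3 ∨ m' = 6) (hχ : Function.Injective χ)
    (hχ' : Function.Injective χ') (hc : Cmp χ χ') (hn' : W'.e ≤ W'.n) {z : Pt W k}
    (hz : z.w ≠ 0) (Φ : Fam W z k) (hc0 : Φ.c = 0) {α₀ β₀ : k} (hα₀ : α₀ ≠ 0) (hβ₀ : β₀ ≠ 0)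
    (hE₀ : α₀ ^ 3 + β₀ ^ 2 = 1) (hQ : Φ.Q α₀ β₀ ≠ 0) {P : k → Pt W k} {P' : Pt W k}
    (hP : ∀ T ∈ (Φ.Q α₀ β₀).roots, (P T).x = Φ.p T 1 ∧ (P T).w = Φ.om α₀ β₀ T 1)
    (hP' : (Φ.Q α₀ β₀).natDegree < 6 * W.e → P'.x = Φ.p 1 0 ∧ P'.w = Φ.om α₀ β₀ 1 0)
    (z' : Pt W' k) :
    ((Φ.Q α₀ β₀).roots.map fun T => G.F (P T) z').sum +
      (6 * W.e - (Φ.Q α₀ β₀).natDegree) • G.F P' z' = 0 := by
  classical
  have h2' : 2 ≤ m' := by omega
  by_cases hz' : z'.w = 0
  · have h0 : ∀ p, G.F p z' = 0 := fun p => G.zero2 h2' hχ' p hz'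
    simp [h0]
  rcases par G hm' hχ' hn' hα₀ hβ₀ hE₀ hz' with h0 | ⟨S, α, β, hS, hE, hαt, hAlt⟩
  · simp [h0]
  have hα : α ≠ 0 := by
    rintro rfl
    exact hαt isAlgebraic_zero
  have hβ : β ≠ 0 := by
    rintro rfl
    apply hαt
    refine IsAlgebraic.of_pow (n := 3) (by norm_num) ?_
    have h1 : α ^ 3 = 1 := by linear_combination hE
    rw [h1]
    exact isAlgebraic_one
  set H := (Φ.map (Algebra.ofId k (Om k))).Q α β with hH
  have hH0 : H ≠ 0 := by
    intro h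
    have h1 := (Φ.map (Algebra.ofId k (Om k))).q_zero α β
    rw [← hH, h, coeff_zero] at h1
    have h2 : β ^ 2 * algebraMap k (Om k) (Φ.A.coeff 0) ^ 3 =
        α ^ 3 * algebraMap k (Om k) (Φ.B.coeff 0) ^ 2 := by
      have h3 : (Φ.map (Algebra.ofId k (Om k))).A.coeff 0 = algebraMap k (Om k) (Φ.A.coeff 0) :=
        coeff_map _ _
      have h4 : (Φ.map (Algebra.ofId k (Om k))).B.coeff 0 = algebraMap k (Om k) (Φ.B.coeff 0) :=
        coeff_map _ _
      rw [← h3, ← h4]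
      exact sub_eq_zero.1 h1.symm
    obtain ⟨h5, h6⟩ := lemc_indep hE hαt h2
    have h7 := Φ.base
    rw [h5, h6, Algebra.algebraMap_self, RingHom.id_apply] at h7
    apply pow_ne_zero 6 hz
    rw [← h7]
    norm_num
  have hfinS : (S ∪ (({α, β} : Set (Om k)) ∪ (H.roots.toFinset : Set (Om k)))).Finite :=
    hS.union ((Set.toFinite _).union H.roots.toFinset.finite_toSet)
  obtain ⟨K, hK, htK, hSK⟩ := CYU.exists_curve _ hfinS
  obtain ⟨hSK, hSK'⟩ := Set.union_subset_iff.1 hSK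
  obtain ⟨hαβ, hRK⟩ := Set.union_subset_iff.1 hSK'
  have hαK : α ∈ K := hαβ (by simp)
  have hβK : β ∈ K := hαβ (by simp)
  obtain ⟨a, hv, hrel⟩ := hAlt K hK htK hαK hβK hSK
  obtain ⟨s, hs⟩ : ∃ s : K, s = ⟨tt k, htK⟩ := ⟨_, rfl⟩
  obtain ⟨αK, hαe⟩ : ∃ x : K, x = ⟨α, hαK⟩ := ⟨_, rfl⟩
  obtain ⟨βK, hβe⟩ : ∃ x : K, x = ⟨β, hβK⟩ := ⟨_, rfl⟩
  rw [← hs, ← hαe, ← hβe] at hv
  rw [← hs] at hrel
  have hα' : αK ≠ 0 := by
    intro h
    rw [h] at hαe
    exact hα (congrArg Subtype.val hαe).symm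
  have hβ' : βK ≠ 0 := by
    intro h
    rw [h] at hβe
    exact hβ (congrArg Subtype.val hβe).symm
  have hE' : αK ^ 3 + βK ^ 2 = 1 := by
    rw [hαe, hβe]
    exact Subtype.ext hE
  have hst : Transcendental k s := by
    intro h1
    have h2 := h1.algHom K.val
    rw [hs] at h2
    exact CYU.transc_tt (k := k) h2
  have hs0 : s ≠ 0 := by
    intro h1
    rw [h1] at hst
    exact hst isAlgebraic_zero
  obtain ⟨Ψ, hΨ⟩ : ∃ Ψ, Ψ = Φ.map (Algebra.ofId k K) := ⟨_, rfl⟩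
  have hinj : Function.Injective (algebraMap K (Om k)) := (algebraMap K (Om k)).injective
  have eQ : (Ψ.Q αK βK).map (algebraMap K (Om k)) = H := by
    have h1 : ∀ P : k[X], (P.map (Algebra.ofId k K : k →+* K)).map (algebraMap K (Om k)) =
        P.map (Algebra.ofId k (Om k) : k →+* Om k) := by
      intro P
      rw [Polynomial.map_map]
      rfl
    have h2 : Ψ.A.map (algebraMap K (Om k)) = (Φ.map (Algebra.ofId k (Om k))).A := by
      rw [hΨ]
      exact h1 Φ.A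
    have h3 : Ψ.B.map (algebraMap K (Om k)) = (Φ.map (Algebra.ofId k (Om k))).B := by
      rw [hΨ]
      exact h1 Φ.B
    have h4 : algebraMap K (Om k) (βK ^ 2) = β ^ 2 := by
      rw [hβe]
      rfl
    have h5 : algebraMap K (Om k) (αK ^ 3) = α ^ 3 := by
      rw [hαe]
      rfl
    rw [hH]
    unfold Fam.Q
    rw [Polynomial.map_sub, Polynomial.map_mul, Polynomial.map_mul, Polynomial.map_pow,
      Polynomial.map_pow, map_C, map_C, h2, h3, h4, h5]
  have hQ0 : Ψ.Q αK βK ≠ 0 := by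
    intro h
    rw [h, Polynomial.map_zero] at eQ
    exact hH0 eQ.symm
  have hsplit : (Ψ.Q αK βK).roots.card = (Ψ.Q αK βK).natDegree := by
    refine (Splits.natDegree_eq_card_roots (Splits.of_splits_map (algebraMap K (Om k))
      (IsAlgClosed.splits _) fun b hb => ?_)).symm
    rw [eQ] at hb
    exact ⟨⟨b, hRK (by simpa using hb)⟩, rfl⟩
  have hdeg : (Ψ.Q αK βK).natDegree ≤ 6 * W.e := Ψ.q_deg αK βK
  obtain ⟨hroot, hroot'⟩ := Ψ.root hQ0
  -- the points
  have hex : ∀ T ∈ (Ψ.Q αK βK).roots, ∃ R : Pt W K, R.x = Ψ.p T 1 ∧ R.w = Ψ.om αK βK T 1 := by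
    intro T hT
    refine ⟨⟨Ψ.p T 1, Ψ.om αK βK T 1, Ψ.p_ne one_ne_zero, ?_⟩, rfl, rfl⟩
    obtain ⟨-, -, h1⟩ := Ψ.om_spec hα' hβ' hE' (hroot T hT)
    have h2 : Ψ.c = 0 := by
      rw [hΨ]
      show Algebra.ofId k K Φ.c = 0
      rw [hc0, map_zero]
    rw [h1, Ψ.heval, h2, zero_mul, add_zero]
  have : Nonempty (Pt W K) := ⟨z.base K⟩
  choose! R hR using hex
  choose p hp using fun (T : K) (v : Place k K) => CYU.exists_val hK v (R T)
  have hsum := lemc_sum hK hs0 (Ψ.Q αK βK).roots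
    (F := fun T v => G.F (p T v) (z'.tw (a v))) (fun T => hrel (R T) (p T) (hp T))
  refine CYU.over_fin hK hst (n := 1) one_pos
    (F := fun v => if v.Vanishes s then ord v s •
      ((Ψ.Q αK βK).roots.map fun T => G.F (p T v) (z'.tw (a v))).sum else 0)
    (fun v hv => if_neg hv) (fun v hvs => ?_) hsum
  obtain ⟨hvα, hvβ⟩ := hv v hvs
  rw [if_pos hvs]
  push_cast
  rw [one_mul]
  congr 1
  obtain ⟨a₆, ha₆⟩ := exists_six hm' (a v)
  obtain ⟨b, hb⟩ : ∃ b, b = mu k (a v) := ⟨_, rfl⟩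
  have hb₆ : mu k a₆ = b := by
    rw [hb]
    exact lemc_mu ha₆ k
  rw [← hb] at hvα hvβ
  have hb6 : b ^ 6 = 1 := by
    rw [← hb₆]
    exact CYU.mu_pow k a₆
  have hb0 : b ≠ 0 := by
    rintro rfl
    norm_num at hb6
  have hbi : b⁻¹ ^ 6 = 1 := by
    rw [inv_pow, hb6, inv_one]
  have hred : CYU.Red v (Ψ.Q αK βK) (Φ.Q α₀ β₀) := by
    have h1 : Φ.Q α₀ β₀ = C ((b⁻¹ ^ 3 * β₀) ^ 2) * Φ.A ^ 3 - C ((b⁻¹ ^ 2 * α₀) ^ 3) * Φ.B ^ 2 := by
      have h2 : (b⁻¹ ^ 3 * β₀) ^ 2 = β₀ ^ 2 := by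
        linear_combination β₀ ^ 2 * hbi
      have h3 : (b⁻¹ ^ 2 * α₀) ^ 3 = α₀ ^ 3 := by
        linear_combination α₀ ^ 3 * hbi
      rw [h2, h3]
      rfl
    rw [h1, hΨ]
    exact ((CYU.Red.C (hvβ.pow 2)).mul ((lemc_red Φ.A).pow 3)).sub
      ((CYU.Red.C (hvα.pow 3)).mul ((lemc_red Φ.B).pow 2))
  -- two values of the same point
  have hval : ∀ (T : K) (q : Pt W k), IsVal v (R T) (q.tw a₆) →
      G.F (p T v) (z'.tw (a v)) = G.F q z' := by
    intro T q hq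
    obtain ⟨c, hc1, hc2⟩ := CYU.val_unique (hp T v) hq
    rw [← diag G hc ha₆ q z', hc2, G.scale1]
  have hkey := CYU.red_roots_hom hK hred hQ hsplit hdeg
    (f := fun T => G.F (p T v) (z'.tw (a v))) (g := fun T => G.F (P T) z') (a := G.F P' z')
    (by
      intro T hT c hTc
      have h1 : c ∈ (Φ.Q α₀ β₀).roots := by
        refine (mem_roots hQ).2 ?_
        have h2 := hred.eval hTc
        have h3 : (Ψ.Q αK βK).eval T = 0 := (mem_roots hQ0).1 hT
        rw [h3] at h2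
        exact h2.unique CYU.at_zero_zero
      obtain ⟨h4, h5⟩ := hP c h1
      obtain ⟨h6, h7⟩ := hR T hT
      have h8 : v.At (1 : K) (1 : k) := by
        simpa using Place.at_const (v := v) (1 : k)
      apply hval T (P c)
      refine ⟨1, fun i => ?_, ?_⟩
      · rw [one_mul, h6]
        show v.At (Ψ.p T 1 i) ((P c).x i)
        rw [h4, hΨ]
        exact lemc_map_p Φ hTc h8 i
      · rw [one_pow, one_mul, h7]
        show v.At (Ψ.om αK βK T 1) (mu k a₆ * (P c).w)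
        rw [h5, hb₆, hΨ]
        refine lemc_om hK Φ hα' hβ' hE' hα₀ hβ₀ hb0 hvα hvβ hTc h8 ?_
        rw [← hΨ]
        exact hroot T hT)
    (by
      intro T hT hTv
      have hT0 : T ≠ 0 := by
        rintro rfl
        exact hTv v.ring.zero_mem
      have hinv : v.At T⁻¹ 0 := by
        rw [Place.at_zero_iff, Place.vanishes_iff_or, inv_inv]
        exact Or.inr hTv
      have hlt : (Φ.Q α₀ β₀).natDegree < 6 * W.e := by
        have h1 := CYU.card_regular hK hred hQ hsplit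
        have h2 := congrArg Multiset.card
          (Multiset.filter_add_not (fun s : K => s ∈ v.ring) (Ψ.Q αK βK).roots)
        have h3 : 0 < ((Ψ.Q αK βK).roots.filter fun s => ¬ s ∈ v.ring).card :=
          Multiset.card_pos_iff_exists_mem.2 ⟨T, Multiset.mem_filter.2 ⟨hT, hTv⟩⟩
        rw [Multiset.card_add, h1, hsplit] at h2
        omega
      obtain ⟨h4, h5⟩ := hP' hlt
      obtain ⟨h6, h7⟩ := hR T hT
      have h8 : v.At (1 : K) (1 : k) := by
        simpa using Place.at_const (v := v) (1 : k)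
      obtain ⟨h9, h10, h11⟩ := Ψ.smul (inv_ne_zero hT0) αK βK T 1
      rw [inv_mul_cancel₀ hT0, mul_one] at h9 h10 h11
      apply hval T P'
      refine ⟨T⁻¹, fun i => ?_, ?_⟩
      · rw [h6]
        show v.At (T⁻¹ * Ψ.p T 1 i) (P'.x i)
        have h12 : T⁻¹ * Ψ.p T 1 i = Ψ.p 1 T⁻¹ i := by
          unfold Fam.p
          field_simp
        rw [h12, h4, hΨ]
        exact lemc_map_p Φ h8 hinv i
      · rw [h7, ← h11]
        show v.At (Ψ.om αK βK 1 T⁻¹) (mu k a₆ * P'.w)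
        rw [h5, hb₆, hΨ]
        refine lemc_om hK Φ hα' hβ' hE' hα₀ hβ₀ hb0 hvα hvβ h8 hinv ?_
        rw [← hΨ, h9, h10]
        have h13 := hroot T hT
        have h14 : (T⁻¹ ^ (2 * W.e)) ^ 3 = (T⁻¹ ^ (3 * W.e)) ^ 2 := by
          rw [← pow_mul, ← pow_mul]
          congr 1
          ring
        rw [mul_pow, mul_pow, h14, mul_left_comm, h13, mul_left_comm])
  have hzero : (6 * W.e - (Ψ.Q αK βK).natDegree) • G.F P' z' = 0 := by
    by_cases hlt : (Ψ.Q αK βK).natDegree < 6 * W.e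
    · have h1 := hroot' hlt
      obtain ⟨h2, h3⟩ := Φ.map_ab (Algebra.ofId k K) 1 0
      rw [map_one, map_zero, ← hΨ] at h2 h3
      rw [h2, h3] at h1
      have h4 := congrArg (algebraMap K (Om k)) h1
      rw [map_mul, map_mul, map_pow, map_pow, map_pow, map_pow] at h4
      have h5 : β ^ 2 * algebraMap k (Om k) (Φ.a 1 0) ^ 3 =
          α ^ 3 * algebraMap k (Om k) (Φ.b 1 0) ^ 2 := by
        rw [hαe, hβe] at h4
        exact h4
      obtain ⟨h6, h7⟩ := lemc_indep hE hαt h5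
      have h8 : (Φ.Q α₀ β₀).natDegree < 6 * W.e :=
        lt_of_le_of_lt (CYU.red_natDegree hK hred hQ hsplit) hlt
      have h9 : P'.w = 0 := by
        rw [(hP' h8).2]
        unfold Fam.om
        rw [h7, zero_mul, zero_div]
      rw [G.zero1 (by norm_num) hχ h9, smul_zero]
    · rw [Nat.sub_eq_zero_of_le (not_lt.1 hlt), zero_smul]
  rw [hzero, add_zero] at hkey
  exact hkey

end Pool.Agent.CYS
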