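import Pool.Agent.CYS.LemC

/-!
# Coverings of order six: the contributions at a place where the family has a reduction

`ctv` is the sum of the contributions of all roots of `Q` in the projective line, the root `∞` with the
multiplicity `6 e - deg Q`.

Proof of `loc_fin`. Let `Q̃ = Q(r T)`, its roots are the `ŝ = s / r`; its reduction is `q = Ψ.Q α₀ β₀ ≠ 0` (`IsRed.q`). At a root
`(s : t)` of `Q` let `ω = Φ.om α β s t`: `a = α ω ^ 2`, `b = β ω ^ 3`, `ω ^ 6 = a ^ 3 + b ^ 2` (`Fam.om_spec`). If `(s : t) = (r σ : τ)` with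
`σ`, `τ` regular, of values `σ₀`, `τ₀`, then `a`, `b` are regular with the values `Ψ.a σ₀ τ₀`, `Ψ.b σ₀ τ₀` (`IsRed.hev`), so `ω` is
regular (its sixth power is) with a value `ω₀`, and `Ψ.a σ₀ τ₀ = α₀ ω₀ ^ 2`, `Ψ.b σ₀ τ₀ = β₀ ω₀ ^ 3`; (*).
First case: `r ^ (6 e) c'` is a unit at `v`. The root `∞` is not special: let `l` be the factor in `Spec` for `X = Φ.p 1 0 = x1`, then
`ord (l ^ (6 e) c') > 0`, so `l / r` vanishes at `v`, and `l x1 = (l / r) (r x1)` has the value `0`: contradiction. Let `s` be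
a root. If `ŝ` vanishes at `v` (`s ≠ 0`, because `Q.coeff 0 ≠ 0`): `Φ.p s 1` has the value `z.x` (`IsRed.hev`, `σ = ŝ`, `τ = 1`), `ω` has
the value `ω₀`, by (*) `Ψ.A.coeff 0 = α₀ ω₀ ^ 2`, `Ψ.B.coeff 0 = β₀ ω₀ ^ 3`, so `ω₀ = η z.w` (`hη`; `q(0) = 0`, so `Q.coeff 0` vanishes at `v`),
and `ord (c' s ^ (6 e)) = 6 e ord ŝ > 0`: `Spec` with `l = 1`, `q = z.tw η`. If `ŝ` is a unit: `Φ.p s 1` has a value `≠ 0`
(coordinate `i₀`), the order is zero: `CYU.not_spec`. If `ŝ` is not regular: a factor `l` of `Spec` satisfies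
`ord (l s / r) > 0`, `l (z.x i₀)` is regular, and `l Φ.p s 1 = l z.x + (l s / r) (r x1)`; `ord l > - ord ŝ > 0`: the value is
`0`, contradiction. So `ctv = 6 e (∑ ord ŝ) • G.F (z.tw η) z'`, over the `ŝ` which vanish; `CYU.ord_roots` for `Q̃`: the sum is
`ord (Q̃.coeff 0) = ord (Q.coeff 0)` (if it is zero then there are no such roots).
Second case: `r ^ (6 e) c'` vanishes at `v` (it is regular, `IsRed.ct`), `d = ord (r ^ (6 e) c') > 0`, `Ψ.c = 0`, `α₀, β₀ ≠ 0`. So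
`Ψ.x1 ≠ 0` (`Fam.x1_ne`). For a root `T` of `q` let `P T` be the point with the coordinates `Ψ.p T 1`, `Ψ.om α₀ β₀ T 1`, for `∞` the
point `P'` with `Ψ.p 1 0`, `Ψ.om α₀ β₀ 1 0` (`Fam.om_spec`, `Fam.heval`, `Ψ.c = 0`; `α₀ ^ 3 + β₀ ^ 2 = 1`). By (*) and `om_unique`
`ω₀ = Ψ.om α₀ β₀ σ₀ τ₀`. A root `s` with `ŝ` regular, of value `T`, contributes `(d + 6 e ord ŝ) • G.F (P T) z'`: `Spec` with `l = 1`
(if `(P T).w = 0` both sides are zero, `CYU.Bi.zero1`); here `ord ŝ = 0` if `T ≠ 0`, and `G.F (P 0) z' = G.F (z.tw η) z'`. A root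
with `ŝ` not regular and the root `∞` contribute `d • G.F P' z'`: `Spec` with `l = ŝ⁻¹`, or `l = r` (`Fam.smul`). By
`CYU.red_roots_hom` `ctv` is
`d • (∑ T, G.F (P T) z' + (6 e - deg q) • G.F P' z') + 6 e (∑ ord ŝ) • G.F (z.tw η) z'`; the first part is zero by `lem_c`, and
`CYU.ord_roots` as in the first case.
-/

set_option autoImplicit false

noncomputable section

namespace Pool.Agent.CYS

open Pool.Agent.ZCyc Pool.Agent.Dess Pool.Agent.TInc Polynomial
open Pool.Agent.CYU (Cov Pt Mu mu hev Bi IsVal ctr Spec Inv)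

variable {k : Type} [Field k] [IsAlgClosed k] [CharZero k] {m' : ℕ} [NeZero m']
  {V : Type} [AddCommGroup V] [Module k V] {χ : Mu k 6 →* kˣ} {χ' : Mu k m' →* kˣ}
  {W : Cov k 6} {W' : Cov k m'}

/-- the sum of all contributions at `v` -/
def ctv (G : Bi χ χ' W W' V) {z : Pt W k} {K : Type} [Field K] [Algebra k K] (Φ : Fam W z K)
    (α β c' : K) (z' : Pt W' k) (v : Place k K) : V :=
  ((Φ.Q α β).roots.map fun s => ctr (fun q => G.F q z') v (Φ.p s 1) (Φ.om α β s 1)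
      (c' * s ^ (6 * W.e))).sum +
    (6 * W.e - (Φ.Q α β).natDegree) • ctr (fun q => G.F q z') v (Φ.p 1 0) (Φ.om α β 1 0)
      (c' * 1 ^ (6 * W.e))

section aux

variable {K : Type} [Field K] [Algebra k K]

omit [Algebra k K] in
private lemma hat_roots {Q : K[X]} {r : K} (hr : r ≠ 0) :
    (Q.comp (C r * X)).roots.map (fun x => r * x) = Q.roots := by
  have h := map_roots_comp_C_mul_X_add_C Q r 0 hr.isUnit
  simpa using h

omit [Algebra k K] in
private lemma hat_deg {Q : K[X]} {r : K} (hr : r ≠ 0) :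
    (Q.comp (C r * X)).natDegree = Q.natDegree := by
  rw [natDegree_comp, natDegree_C_mul_X _ hr, mul_one]

omit [Algebra k K] in
private lemma hat_coeff (Q : K[X]) (r : K) : (Q.comp (C r * X)).coeff 0 = Q.coeff 0 := by
  rw [coeff_zero_eq_eval_zero, eval_comp, eval_mul, eval_X, mul_zero, ← coeff_zero_eq_eval_zero]

omit [IsAlgClosed k] [CharZero k] in
private lemma at_one (v : Place k K) : v.At (1 : K) 1 := by
  have h := Place.at_const (v := v) (1 : k)
  rwa [_root_.map_one] at h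

private lemma om_at (hK : IsCurve k K) {v : Place k K} {z : Pt W k} (Φ : Fam W z K) {α β : K}
    (hα : α ≠ 0) (hβ : β ≠ 0) (hE : α ^ 3 + β ^ 2 = 1) {α₀ β₀ : k} (hα₀ : v.At α α₀)
    (hβ₀ : v.At β β₀) {s t : K} (h : β ^ 2 * Φ.a s t ^ 3 = α ^ 3 * Φ.b s t ^ 2) {A₀ B₀ : k}
    (ha : v.At (Φ.a s t) A₀) (hb : v.At (Φ.b s t) B₀) :
    ∃ ω₀ : k, v.At (Φ.om α β s t) ω₀ ∧ A₀ = α₀ * ω₀ ^ 2 ∧ B₀ = β₀ * ω₀ ^ 3 := by
  obtain ⟨h1, h2, h3⟩ := Φ.om_spec hα hβ hE h
  have h4 : Φ.om α β s t ^ 6 ∈ v.ring := by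
    rw [h3]
    exact ((ha.pow 3).add (hb.pow 2)).mem
  obtain ⟨ω₀, hω⟩ := exists_at hK v (CYU.mem_of_pow v (by norm_num) h4)
  refine ⟨ω₀, hω, ?_, ?_⟩
  · rw [h1] at ha
    exact ha.unique (hα₀.mul (hω.pow 2))
  · rw [h2] at hb
    exact hb.unique (hβ₀.mul (hω.pow 3))

private lemma ord_hat (hK : IsCurve k K) (v : Place k K) {c' r t : K} (hc : c' ≠ 0) (hr : r ≠ 0)
    (ht : t ≠ 0) (N : ℕ) : ord v (c' * (r * t) ^ N) = ord v (r ^ N * c') + N * ord v t := by
  have e : c' * (r * t) ^ N = (r ^ N * c') * t ^ N := by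
    rw [mul_pow]
    ring
  rw [e, ord_mul hK v (mul_ne_zero (pow_ne_zero _ hr) hc) (pow_ne_zero _ ht), ord_pow hK]

private lemma ord_hat' (hK : IsCurve k K) (v : Place k K) {l c' r t : K} (hl : l ≠ 0)
    (hc : c' ≠ 0) (hr : r ≠ 0) (ht : t ≠ 0) (N : ℕ) :
    ord v (l ^ N * (c' * (r * t) ^ N)) = ord v (r ^ N * c') + N * (ord v l + ord v t) := by
  rw [ord_mul hK v (pow_ne_zero _ hl)
    (mul_ne_zero hc (pow_ne_zero _ (mul_ne_zero hr ht))), ord_hat hK v hc hr ht, ord_pow hK]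
  ring

end aux

section fin

variable (G : Bi χ χ' W W' V) {z : Pt W k} {K : Type} [Field K] [Algebra k K]
  (hK : IsCurve k K) {v : Place k K} {Φ : Fam W z K} {c' : K} {r : K} {Ψ : Fam W z k}
  (hr : IsRed v r Φ Ψ) {α β : K} {α₀ β₀ : k}

include hK hr

omit [Module k V] in
/-- the root at infinity, first case -/
private lemma inf_one (hc : c' ≠ 0) (hD : ord v (r ^ (6 * W.e) * c') = 0) (ω : K)
    (g : Pt W k → V) : ctr g v (Φ.p 1 0) ω (c' * 1 ^ (6 * W.e)) = 0 := by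
  apply CYU.ctr_zero
  rintro d q ⟨l, h1, -, -, h4, h5⟩
  have hl : l ≠ 0 := by
    rintro rfl
    rw [zero_pow (mul_ne_zero (by norm_num) W.pos.ne'), zero_mul, ord_zero] at h5
    omega
  have hN : (0 : ℤ) < (6 * W.e : ℕ) := by
    have := W.pos
    exact_mod_cast Nat.mul_pos (by norm_num) this
  rw [one_pow, mul_one, ord_mul hK v (pow_ne_zero _ hl) hc, ord_pow hK] at h5
  rw [ord_mul hK v (pow_ne_zero _ hr.r_ne) hc, ord_pow hK] at hD
  have h6 : 0 < ord v l - ord v r := by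
    by_contra hcon
    have h7 : ((6 * W.e : ℕ) : ℤ) * (ord v l - ord v r) ≤ 0 :=
      mul_nonpos_of_nonneg_of_nonpos hN.le (not_lt.1 hcon)
    have h8 : ((6 * W.e : ℕ) : ℤ) * (ord v l - ord v r) = d := by
      rw [mul_sub]
      linarith
    omega
  have h7 : v.Vanishes (l / r) := by
    rw [vanishes_iff_ord hK (div_ne_zero hl hr.r_ne), div_eq_mul_inv,
      ord_mul hK v hl (inv_ne_zero hr.r_ne), ord_inv hK]
    omega
  apply q.ne
  funext i
  have h8 := (Place.at_zero_iff.2 h7).mul (hr.x1 i)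
  have e : l / r * (r * Φ.x1 i) = l * Φ.p 1 0 i := by
    have := hr.r_ne
    show _ = l * (algebraMap k K (z.x i) * 0 + Φ.x1 i * 1)
    field_simp
    ring
  rw [e, zero_mul] at h8
  exact (h1 i).unique h8

omit [Module k V] in
/-- a root which is not regular, first case -/
private lemma pole_one (hc : c' ≠ 0) (hD : ord v (r ^ (6 * W.e) * c') = 0) {t : K}
    (ht : t ∉ v.ring) (ω : K) (g : Pt W k → V) :
    ctr g v (Φ.p (r * t) 1) ω (c' * (r * t) ^ (6 * W.e)) = 0 := by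
  have ht0 : t ≠ 0 := by
    rintro rfl
    exact ht v.ring.zero_mem
  have hto : ord v t < 0 := by
    rw [mem_iff_ord hK ht0] at ht
    omega
  apply CYU.ctr_zero
  rintro d q ⟨l, h1, -, -, h4, h5⟩
  have hl : l ≠ 0 := by
    rintro rfl
    rw [zero_pow (mul_ne_zero (by norm_num) W.pos.ne'), zero_mul, ord_zero] at h5
    omega
  have hN : (0 : ℤ) < (6 * W.e : ℕ) := by
    have := W.pos
    exact_mod_cast Nat.mul_pos (by norm_num) this
  rw [ord_hat' hK v hl hc hr.r_ne ht0, hD, zero_add] at h5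
  have h6 : 0 < ord v l + ord v t := by
    by_contra hcon
    have h7 : ((6 * W.e : ℕ) : ℤ) * (ord v l + ord v t) ≤ 0 :=
      mul_nonpos_of_nonneg_of_nonpos hN.le (not_lt.1 hcon)
    omega
  have h7 : v.Vanishes (l * t) := by
    rw [vanishes_iff_ord hK (mul_ne_zero hl ht0), ord_mul hK v hl ht0]
    exact h6
  have h7' : v.Vanishes l := by
    rw [vanishes_iff_ord hK hl]
    omega
  apply q.ne
  funext i
  have h8 := ((Place.at_zero_iff.2 h7').mul (Place.at_const (z.x i))).add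
    ((Place.at_zero_iff.2 h7).mul (hr.x1 i))
  have e : l * algebraMap k K (z.x i) + l * t * (r * Φ.x1 i) = l * Φ.p (r * t) 1 i := by
    show _ = l * (algebraMap k K (z.x i) * 1 + Φ.x1 i * (r * t))
    ring
  rw [e, zero_mul, zero_mul, add_zero] at h8
  exact (h1 i).unique h8

omit [IsAlgClosed k] [CharZero k] hK in
/-- a regular root, the value of the coordinates -/
private lemma reg_coord {t : K} {T : k} (ht : v.At t T) (i : Fin (W.n + 1)) :
    v.At (1 * Φ.p (r * t) 1 i) (Ψ.p T 1 i) := by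
  rw [one_mul]
  exact (hr.hev ht (at_one v)).1 i

/-- a regular root, the value of `ω` -/
private lemma reg_om (hα : α ≠ 0) (hβ : β ≠ 0) (hE : α ^ 3 + β ^ 2 = 1) (hα₀ : v.At α α₀)
    (hβ₀ : v.At β β₀) {t : K} {T : k} (ht : v.At t T)
    (h : β ^ 2 * Φ.a (r * t) 1 ^ 3 = α ^ 3 * Φ.b (r * t) 1 ^ 2) :
    ∃ ω₀ : k, v.At (Φ.om α β (r * t) 1) ω₀ ∧ Ψ.a T 1 = α₀ * ω₀ ^ 2 ∧ Ψ.b T 1 = β₀ * ω₀ ^ 3 :=
  om_at hK Φ hα hβ hE hα₀ hβ₀ h (hr.hev ht (at_one v)).2.1 (hr.hev ht (at_one v)).2.2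

omit [Module k V] in
/-- a regular root which is a unit, first case -/
private lemma unit_one (hc : c' ≠ 0) (hD : ord v (r ^ (6 * W.e) * c') = 0) {t : K} {T : k}
    (ht : v.At t T) (hT : T ≠ 0) (ω : K) (g : Pt W k → V) :
    ctr g v (Φ.p (r * t) 1) ω (c' * (r * t) ^ (6 * W.e)) = 0 := by
  have ht0 : t ≠ 0 := by
    rintro rfl
    exact hT (ht.unique CYU.at_zero_zero)
  apply CYU.ctr_zero
  refine CYU.not_spec hK (l := 1) (ξ := Ψ.p T 1) (reg_coord hr ht) (Ψ.p_ne one_ne_zero)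
    (Or.inr ?_)
  rw [one_pow, one_mul, ord_hat hK v hc hr.r_ne ht0, hD, ord_of_at hK ht hT, mul_zero, add_zero]

omit [Module k V] in
/-- a regular root which is special -/
private lemma reg_spec (hc : c' ≠ 0) {t : K} {T : k} (ht : v.At t T) (ht0 : t ≠ 0) {ω : K}
    {q : Pt W k} (hx : q.x = Ψ.p T 1) (hw : v.At ω q.w) (hq : q.w ≠ 0) {g : Pt W k → V}
    (hg : Inv g) (hpos : 0 < ord v (r ^ (6 * W.e) * c') + (6 * W.e : ℕ) * ord v t) :
    ctr g v (Φ.p (r * t) 1) ω (c' * (r * t) ^ (6 * W.e)) =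
      (ord v (r ^ (6 * W.e) * c') + (6 * W.e : ℕ) * ord v t) • g q := by
  refine CYU.ctr_eq hK hg ⟨1, fun i => ?_, ?_, hq, hpos, ?_⟩
  · rw [hx]
    exact reg_coord hr ht i
  · rw [one_pow, one_mul]
    exact hw
  · rw [one_pow, one_mul, ord_hat hK v hc hr.r_ne ht0]

omit [NeZero m'] in
/-- a regular root, second case -/
private lemma reg_two (hχ : Function.Injective χ) (hc : c' ≠ 0)
    (hD : 0 < ord v (r ^ (6 * W.e) * c')) {t : K} {T : k} (ht : v.At t T) (ht0 : t ≠ 0) {ω : K}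
    {q : Pt W k} (hx : q.x = Ψ.p T 1) (hw : v.At ω q.w) (z' : Pt W' k) :
    ctr (fun q => G.F q z') v (Φ.p (r * t) 1) ω (c' * (r * t) ^ (6 * W.e)) =
      (ord v (r ^ (6 * W.e) * c') + (6 * W.e : ℕ) * ord v t) • G.F q z' := by
  by_cases hq : q.w = 0
  · rw [CYU.Bi.zero1 G (by norm_num) hχ hq, smul_zero]
    apply CYU.ctr_zero
    refine CYU.not_spec hK (l := 1) (ξ := Ψ.p T 1) (reg_coord hr ht) (Ψ.p_ne one_ne_zero)
      (Or.inl ?_)
    rw [one_pow, one_mul]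
    rw [hq] at hw
    exact Place.at_zero_iff.1 hw
  · refine reg_spec hK hr hc ht ht0 hx hw hq (g := fun q => G.F q z')
      (fun b hb q => G.scale1 b hb q z') ?_
    have h1 : 0 ≤ ord v t := (mem_iff_ord hK ht0).1 ht.mem
    have h2 : (0 : ℤ) ≤ (6 * W.e : ℕ) := Int.natCast_nonneg _
    have h3 := mul_nonneg h2 h1
    omega

omit [NeZero m'] in
/-- a root which is not regular, or the root at infinity, second case: the factor is `l`, the
parameters `(r * σ : τ)`, where `l (s : t) = (r * 1 : τ)`, `τ` vanishes -/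
private lemma inf_two (hχ : Function.Injective χ) (hα : α ≠ 0) (hβ : β ≠ 0)
    (hE : α ^ 3 + β ^ 2 = 1) (hα₀ : v.At α α₀) (hβ₀ : v.At β β₀) (hα₁ : α₀ ≠ 0) (hβ₁ : β₀ ≠ 0)
    {s t l τ c : K} (hl : l ≠ 0) (hs : l * s = r * 1) (hτ : l * t = τ)
    (hτv : v.Vanishes τ)
    (h : β ^ 2 * Φ.a s t ^ 3 = α ^ 3 * Φ.b s t ^ 2) {d : ℤ} (hd : 0 < d)
    (ho : ord v (l ^ (6 * W.e) * c) = d) {q : Pt W k} (hx : q.x = Ψ.p 1 0)
    (hw : q.w = Ψ.om α₀ β₀ 1 0) (z' : Pt W' k) :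
    ctr (fun q => G.F q z') v (Φ.p s t) (Φ.om α β s t) c = d • G.F q z' := by
  obtain ⟨ha, hb, ho'⟩ := Φ.smul hl α β s t
  rw [hs, hτ] at ha hb ho'
  have h1 : β ^ 2 * Φ.a (r * 1) τ ^ 3 = α ^ 3 * Φ.b (r * 1) τ ^ 2 := by
    rw [ha, hb]
    have e1 : (l ^ (2 * W.e)) ^ 3 = l ^ (6 * W.e) := by
      rw [← pow_mul]
      congr 1
      ring
    have e2 : (l ^ (3 * W.e)) ^ 2 = l ^ (6 * W.e) := by
      rw [← pow_mul]
      congr 1
      ring
    rw [mul_pow, mul_pow, e1, e2]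
    linear_combination (l ^ (6 * W.e)) * h
  obtain ⟨hp, hA, hB⟩ := hr.hev (at_one v) (Place.at_zero_iff.2 hτv)
  obtain ⟨ω₀, hω, h2, h3⟩ := om_at hK Φ hα hβ hE hα₀ hβ₀ h1 hA hB
  have hω₀ : ω₀ = q.w := by
    rw [hw]
    exact Ψ.om_unique hα₁ hβ₁ h2 h3
  have hcoord : ∀ i, v.At (l * Φ.p s t i) (q.x i) := by
    intro i
    have e : l * Φ.p s t i = Φ.p (r * 1) τ i := by
      rw [← hs, ← hτ]
      show l * (algebraMap k K (z.x i) * t + Φ.x1 i * s) =
        algebraMap k K (z.x i) * (l * t) + Φ.x1 i * (l * s)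
      ring
    rw [e, hx]
    exact hp i
  have hom : v.At (l ^ W.e * Φ.om α β s t) q.w := by
    rw [← ho', ← hω₀]
    exact hω
  by_cases hq : q.w = 0
  · rw [CYU.Bi.zero1 G (by norm_num) hχ hq, smul_zero]
    apply CYU.ctr_zero
    refine CYU.not_spec hK (l := l) (ξ := q.x) hcoord q.ne (Or.inl ?_)
    rw [hq] at hom
    exact Place.at_zero_iff.1 hom
  · exact CYU.ctr_eq hK (g := fun q => G.F q z') (fun b hb q => G.scale1 b hb q z')
      ⟨l, hcoord, hom, hq, hd, ho⟩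

omit [IsAlgClosed k] [CharZero k] [NeZero m'] hK hr in
private lemma sum_smul_map (S : Multiset K) (u : K → ℤ) (x : V) (n : ℤ) :
    (S.map fun t => (n * u t) • x).sum = (n * (S.map u).sum) • x := by
  induction S using Multiset.induction with
  | empty => simp
  | cons a S ih => rw [Multiset.map_cons, Multiset.sum_cons, ih, Multiset.map_cons,
      Multiset.sum_cons, mul_add, add_smul]

end fin

theorem loc_fin (G : Bi χ χ' W W' V) (hm' : m' = 3 ∨ m' = 6) (hχ : Function.Injective χ)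
    (hχ' : Function.Injective χ') (hc : Cmp χ χ') (hn' : W'.e ≤ W'.n) {z : Pt W k}
    (hz : z.w ≠ 0) {K : Type} [Field K] [Algebra k K] (hK : IsCurve k K) {v : Place k K}
    {Φ : Fam W z K} {c' : K} (hc' : Ct Φ c') {r : K} {Ψ : Fam W z k} (hr : IsRed v r Φ Ψ)
    {α β : K} (hE : α ^ 3 + β ^ 2 = 1) (hα : α ≠ 0) (hβ : β ≠ 0) {α₀ β₀ : k}
    (hα₀ : v.At α α₀) (hβ₀ : v.At β β₀)
    (hcase : ¬ v.Vanishes (r ^ (6 * W.e) * c') ∨ (α₀ ≠ 0 ∧ β₀ ≠ 0)) (hQ : Ψ.Q α₀ β₀ ≠ 0)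
    (hQ0 : (Φ.Q α β).coeff 0 ≠ 0) (hs : (Φ.Q α β).roots.card = (Φ.Q α β).natDegree)
    {η : Mu k 6} (hη : v.Vanishes ((Φ.Q α β).coeff 0) → ∀ ω₀ : k,
      Ψ.A.coeff 0 = α₀ * ω₀ ^ 2 → Ψ.B.coeff 0 = β₀ * ω₀ ^ 3 → ω₀ = mu k η * z.w)
    (z' : Pt W' k) :
    ctv G Φ α β c' z' v = (6 * W.e * ord v ((Φ.Q α β).coeff 0)) • G.F (z.tw η) z' := by
  classical
  have hr0 := hr.r_ne
  have hc0 : c' ≠ 0 := hc'.1
  have hN0 : (0 : ℤ) < (6 * W.e : ℕ) := by
    have := W.pos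
    exact_mod_cast Nat.mul_pos (by norm_num) this
  have hcast : ((6 * W.e : ℕ) : ℤ) = 6 * W.e := by push_cast; rfl
  have hred : CYU.Red v ((Φ.Q α β).comp (C r * X)) (Ψ.Q α₀ β₀) := hr.q hα₀ hβ₀
  have hroots := hat_roots (Q := Φ.Q α β) hr0
  have hdeg := hat_deg (Q := Φ.Q α β) hr0
  have hco := hat_coeff (Φ.Q α β) r
  have hQne : Φ.Q α β ≠ 0 := by
    intro h
    apply hQ0
    rw [h, coeff_zero]
  have hctv : ctv G Φ α β c' z' v = (((Φ.Q α β).comp (C r * X)).roots.map fun t =>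
      ctr (fun q => G.F q z') v (Φ.p (r * t) 1) (Φ.om α β (r * t) 1)
        (c' * (r * t) ^ (6 * W.e))).sum + (6 * W.e - (Φ.Q α β).natDegree) •
      ctr (fun q => G.F q z') v (Φ.p 1 0) (Φ.om α β 1 0) (c' * 1 ^ (6 * W.e)) := by
    unfold ctv
    congr 2
    conv_lhs => rw [← hroots, Multiset.map_map]
    rfl
  generalize hQt : (Φ.Q α β).comp (C r * X) = Qt at hctv hred hroots hdeg hco
  have hcard : Qt.roots.card = Qt.natDegree := by
    rw [hdeg, ← hs, ← hroots, Multiset.card_map]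
  have hQtne : Qt ≠ 0 := by
    intro h
    apply hQ0
    rw [← hco, h, coeff_zero]
  have hroot : ∀ t ∈ Qt.roots,
      β ^ 2 * Φ.a (r * t) 1 ^ 3 = α ^ 3 * Φ.b (r * t) 1 ^ 2 := fun t ht =>
    (Φ.root hQne).1 _ (by
      rw [← hroots]
      exact Multiset.mem_map_of_mem _ ht)
  have ht0 : ∀ t ∈ Qt.roots, t ≠ 0 := by
    rintro t ht rfl
    rw [mem_roots hQtne, IsRoot.def, ← coeff_zero_eq_eval_zero, hco] at ht
    exact hQ0 ht
  have hE₀ : α₀ ^ 3 + β₀ ^ 2 = 1 := by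
    refine ((hα₀.pow 3).add (hβ₀.pow 2)).unique ?_
    rw [hE]
    exact at_one v
  have hrt : ∀ t ∈ Qt.roots, ∀ T, v.At t T → T ∈ (Ψ.Q α₀ β₀).roots := by
    intro t ht T hT
    have h1 := hred.eval hT
    rw [(mem_roots hQtne).1 ht] at h1
    rw [mem_roots hQ]
    exact h1.unique CYU.at_zero_zero
  have hvan : ∀ t ∈ Qt.roots, v.Vanishes t → v.Vanishes ((Φ.Q α β).coeff 0) := by
    intro t ht hv
    have h1 := hrt t ht 0 (Place.at_zero_iff.2 hv)
    rw [mem_roots hQ, IsRoot.def] at h1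
    have h3 := hred 0
    rw [hco, coeff_zero_eq_eval_zero (Ψ.Q α₀ β₀), h1] at h3
    exact Place.at_zero_iff.1 h3
  have hw0 : ∀ t ∈ Qt.roots, v.Vanishes t → ∀ ω₀ : k, Ψ.a 0 1 = α₀ * ω₀ ^ 2 →
      Ψ.b 0 1 = β₀ * ω₀ ^ 3 → ω₀ = mu k η * z.w := by
    intro t ht hv ω₀ h1 h2
    refine hη (hvan t ht hv) ω₀ ?_ ?_
    · rw [← h1]
      show _ = hev Ψ.A (2 * W.e) 0 1
      rw [CYU.hev_s_zero, one_pow, mul_one]
    · rw [← h2]
      show _ = hev Ψ.B (3 * W.e) 0 1
      rw [CYU.hev_s_zero, one_pow, mul_one]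
  have hx0 : ∀ i, (z.tw η).x i = Ψ.p 0 1 i := by
    intro i
    show z.x i = algebraMap k k (z.x i) * 1 + Ψ.x1 i * 0
    rw [mul_one, mul_zero, add_zero, Algebra.algebraMap_self, RingHom.id_apply]
  have hord := CYU.ord_roots hK hred hQ hcard (by rw [hco]; exact hQ0)
  rw [hco] at hord
  have hgoal : (Qt.roots.map fun t => (((6 * W.e : ℕ) : ℤ) *
      (if v.Vanishes t then ord v t else 0)) • G.F (z.tw η) z').sum =
      (6 * W.e * ord v ((Φ.Q α β).coeff 0)) • G.F (z.tw η) z' := by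
    rw [sum_smul_map, hord, hcast]
  by_cases hD : v.Vanishes (r ^ (6 * W.e) * c')
  · -- second case
    obtain ⟨hα₁, hβ₁⟩ := hcase.resolve_left (not_not.2 hD)
    have hDne : r ^ (6 * W.e) * c' ≠ 0 := mul_ne_zero (pow_ne_zero _ hr0) hc0
    have hDpos : 0 < ord v (r ^ (6 * W.e) * c') := (vanishes_iff_ord hK hDne).1 hD
    have hΨc : Ψ.c = 0 := (hr.ct hK hc').2 hD
    have hx1 : Ψ.x1 ≠ 0 := Ψ.x1_ne hz hΨc
    have honP : ∀ T ∈ (Ψ.Q α₀ β₀).roots,
        Ψ.om α₀ β₀ T 1 ^ 6 = MvPolynomial.aeval (Ψ.p T 1) W.f := by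
      intro T hT
      rw [Ψ.heval, hΨc, zero_mul, add_zero]
      exact (Ψ.om_spec hα₁ hβ₁ hE₀ ((Ψ.root hQ).1 T hT)).2.2
    have honP' : (Ψ.Q α₀ β₀).natDegree < 6 * W.e →
        Ψ.om α₀ β₀ 1 0 ^ 6 = MvPolynomial.aeval (Ψ.p 1 0) W.f := by
      intro h
      rw [Ψ.heval, hΨc, zero_mul, add_zero]
      exact (Ψ.om_spec hα₁ hβ₁ hE₀ ((Ψ.root hQ).2 h)).2.2
    have hne' : Ψ.p 1 0 ≠ 0 := by
      intro h
      apply hx1
      funext i
      have h1 := congrFun h i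
      have h2 : algebraMap k k (z.x i) * 0 + Ψ.x1 i * 1 = 0 := h1
      rwa [mul_zero, zero_add, mul_one] at h2
    obtain ⟨P, hP⟩ : ∃ P : k → Pt W k, ∀ T ∈ (Ψ.Q α₀ β₀).roots,
        (P T).x = Ψ.p T 1 ∧ (P T).w = Ψ.om α₀ β₀ T 1 := by
      refine ⟨fun T => if h : T ∈ (Ψ.Q α₀ β₀).roots then
        ⟨Ψ.p T 1, Ψ.om α₀ β₀ T 1, Ψ.p_ne one_ne_zero, honP T h⟩ else z, fun T hT => ?_⟩
      simp only [dif_pos hT, and_self]
    obtain ⟨P', hP'⟩ : ∃ P' : Pt W k, (Ψ.Q α₀ β₀).natDegree < 6 * W.e →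
        P'.x = Ψ.p 1 0 ∧ P'.w = Ψ.om α₀ β₀ 1 0 := by
      refine ⟨if h : (Ψ.Q α₀ β₀).natDegree < 6 * W.e then
        ⟨Ψ.p 1 0, Ψ.om α₀ β₀ 1 0, hne', honP' h⟩ else z, fun h => ?_⟩
      simp only [dif_pos h, and_self]
    have hC := lem_c G hm' hχ hχ' hc hn' hz Ψ hΨc hα₁ hβ₁ hE₀ hQ hP hP' z'
    have hdegN : Qt.natDegree ≤ 6 * W.e := by
      rw [hdeg]
      exact Φ.q_deg α β
    -- the regular roots
    have hreg : ∀ t ∈ Qt.roots, ∀ T, v.At t T →
        ctr (fun q => G.F q z') v (Φ.p (r * t) 1) (Φ.om α β (r * t) 1)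
          (c' * (r * t) ^ (6 * W.e)) =
        ord v (r ^ (6 * W.e) * c') • G.F (P T) z' + (((6 * W.e : ℕ) : ℤ) *
      (if v.Vanishes t then ord v t else 0)) • G.F (z.tw η) z' := by
      intro t ht T hT
      obtain ⟨ω₀, hω, h1, h2⟩ := reg_om hK hr hα hβ hE hα₀ hβ₀ hT (hroot t ht)
      obtain ⟨hPx, hPw⟩ := hP T (hrt t ht T hT)
      have h3 : ω₀ = Ψ.om α₀ β₀ T 1 := Ψ.om_unique hα₁ hβ₁ h1 h2
      have h4 := reg_two G hK hr hχ hc0 hDpos hT (ht0 t ht) (ω := Φ.om α β (r * t) 1) hPx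
        (by rw [hPw, ← h3]; exact hω) z'
      rw [h4, add_smul]
      congr 1
      by_cases hv : v.Vanishes t
      · rw [if_pos hv]
        have hT0 : T = 0 := hT.unique (Place.at_zero_iff.2 hv)
        subst hT0
        have h5 : P 0 = z.tw η := by
          ext
          · rw [hPx]
            exact (hx0 _).symm
          · rw [hPw, ← h3]
            exact hw0 t ht hv ω₀ h1 h2
        rw [h5]
      · rw [if_neg hv, mul_zero, zero_smul]
        have h5 : ord v t = 0 := by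
          refine ord_of_at hK hT ?_
          rintro rfl
          exact hv (Place.at_zero_iff.1 hT)
        rw [h5, mul_zero, zero_smul]
    -- the other roots
    have hpol : ∀ t ∈ Qt.roots, t ∉ v.ring →
        ctr (fun q => G.F q z') v (Φ.p (r * t) 1) (Φ.om α β (r * t) 1)
          (c' * (r * t) ^ (6 * W.e)) =
        ord v (r ^ (6 * W.e) * c') • G.F P' z' + (((6 * W.e : ℕ) : ℤ) *
      (if v.Vanishes t then ord v t else 0)) • G.F (z.tw η) z' := by
      intro t ht htr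
      have hnv : ¬ v.Vanishes t := fun h => htr h.mem
      rw [if_neg hnv, mul_zero, zero_smul, add_zero]
      have hlt : (Ψ.Q α₀ β₀).natDegree < 6 * W.e := by
        have h1 := CYU.card_regular hK hred hQ hcard
        have h2 : (Qt.roots.filter (· ∈ v.ring)).card < Qt.roots.card := by
          refine Multiset.card_lt_card (lt_of_le_of_ne (Multiset.filter_le _ _) ?_)
          intro h
          have h3 := ht
          rw [← h, Multiset.mem_filter] at h3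
          exact htr h3.2
        omega
      obtain ⟨hx', hw'⟩ := hP' hlt
      have htne := ht0 t ht
      refine inf_two G hK hr hχ hα hβ hE hα₀ hβ₀ hα₁ hβ₁ (l := t⁻¹) (τ := t⁻¹)
        (inv_ne_zero htne) ?_ (mul_one _) ?_ (hroot t ht) hDpos ?_ hx' hw' z'
      · field_simp
      · rw [Place.vanishes_iff_or, inv_inv]
        exact Or.inr htr
      · congr 1
        rw [mul_pow, inv_pow]
        have := pow_ne_zero (6 * W.e) htne
        field_simp
    -- the root at infinity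
    have hinf : (6 * W.e - (Φ.Q α β).natDegree) •
        ctr (fun q => G.F q z') v (Φ.p 1 0) (Φ.om α β 1 0) (c' * 1 ^ (6 * W.e)) =
        (6 * W.e - Qt.natDegree) • (ord v (r ^ (6 * W.e) * c') • G.F P' z') := by
      rw [hdeg]
      rcases (Φ.q_deg α β).lt_or_eq with h | h
      · have hlt : (Ψ.Q α₀ β₀).natDegree < 6 * W.e := by
          have h1 := CYU.red_natDegree hK hred hQ hcard
          omega
        obtain ⟨hx', hw'⟩ := hP' hlt
        congr 1
        refine inf_two G hK hr hχ hα hβ hE hα₀ hβ₀ hα₁ hβ₁ (l := r) (τ := 0)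
          hr0 rfl (mul_zero _) v.vanishes_zero ((Φ.root hQne).2 h) hDpos ?_ hx' hw' z'
        rw [one_pow, mul_one]
      · rw [h, Nat.sub_self, zero_smul, zero_smul]
    have hsum := CYU.red_roots_hom hK hred hQ hcard hdegN
      (f := fun t => ctr (fun q => G.F q z') v (Φ.p (r * t) 1) (Φ.om α β (r * t) 1)
          (c' * (r * t) ^ (6 * W.e)) - (((6 * W.e : ℕ) : ℤ) *
      (if v.Vanishes t then ord v t else 0)) • G.F (z.tw η) z')
      (g := fun T => ord v (r ^ (6 * W.e) * c') • G.F (P T) z')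
      (a := ord v (r ^ (6 * W.e) * c') • G.F P' z')
      (fun t ht T hT => by
        show _ - _ = _
        rw [hreg t ht T hT, add_sub_cancel_right])
      (fun t ht htr => by
        show _ - _ = _
        rw [hpol t ht htr, add_sub_cancel_right])
    have hz0 : ((Ψ.Q α₀ β₀).roots.map fun T =>
        ord v (r ^ (6 * W.e) * c') • G.F (P T) z').sum +
        (6 * W.e - (Ψ.Q α₀ β₀).natDegree) • (ord v (r ^ (6 * W.e) * c') • G.F P' z') = 0 := by
      have h6 : ∀ s : Multiset k, (s.map fun T =>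
          ord v (r ^ (6 * W.e) * c') • G.F (P T) z').sum =
          ord v (r ^ (6 * W.e) * c') • (s.map fun T => G.F (P T) z').sum := by
        intro s
        induction s using Multiset.induction_on with
        | empty => simp
        | cons a s ih => rw [Multiset.map_cons, Multiset.sum_cons, ih, Multiset.map_cons,
            Multiset.sum_cons, smul_add]
      rw [h6, smul_comm, ← smul_add, hC, smul_zero]
    rw [hz0, Multiset.sum_map_sub, hgoal] at hsum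
    rw [hctv, hinf]
    rw [sub_add_eq_add_sub, sub_eq_zero] at hsum
    exact hsum
  · -- first case
    have hDne : r ^ (6 * W.e) * c' ≠ 0 := mul_ne_zero (pow_ne_zero _ hr0) hc0
    have hD0 : ord v (r ^ (6 * W.e) * c') = 0 := by
      have h1 := (mem_iff_ord hK hDne).1 (hr.ct hK hc').1
      rw [vanishes_iff_ord hK hDne] at hD
      omega
    rw [hctv, inf_one hK hr hc0 hD0, smul_zero, add_zero, ← hgoal]
    congr 1
    refine Multiset.map_congr rfl fun t ht => ?_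
    by_cases htr : t ∈ v.ring
    · obtain ⟨T, hT⟩ := exists_at hK v htr
      by_cases hT0 : T = 0
      · subst hT0
        have hv : v.Vanishes t := Place.at_zero_iff.1 hT
        rw [if_pos hv]
        obtain ⟨ω₀, hω, h1, h2⟩ := reg_om hK hr hα hβ hE hα₀ hβ₀ hT (hroot t ht)
        have h3 := hw0 t ht hv ω₀ h1 h2
        have hpos : 0 < ord v t := (vanishes_iff_ord hK (ht0 t ht)).1 hv
        have h4 := reg_spec hK hr hc0 hT (ht0 t ht) (ω := Φ.om α β (r * t) 1) (q := z.tw η)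
          (funext hx0) (by
            show v.At _ (mu k η * z.w)
            rw [← h3]
            exact hω) (mul_ne_zero (CYU.mu_ne k η) hz) (g := fun q => G.F q z')
          (fun b hb q => G.scale1 b hb q z') (by
            rw [hD0, zero_add]
            exact mul_pos hN0 hpos)
        rw [h4, hD0, zero_add]
      · have hnv : ¬ v.Vanishes t := fun h => hT0 (hT.unique (Place.at_zero_iff.2 h))
        rw [if_neg hnv, mul_zero, zero_smul]
        exact unit_one hK hr hc0 hD0 hT hT0 _ _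
    · have hnv : ¬ v.Vanishes t := fun h => htr h.mem
      rw [if_neg hnv, mul_zero, zero_smul]
      exact pole_one hK hr hc0 hD0 htr _ _

end Pool.Agent.CYS
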