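import Pool.Agent.CYS.LocF
import Pool.Agent.CYS.IntS

/-!
# Coverings of order six: no contributions at the poles

Proof of `not_inf`. Let `l` be the factor in `Spec`, `X = Φ.p s t`, `ω = Φ.om α β s t`; `a = α ω ^ 2`,
`b = β ω ^ 3`, `ω ^ 6 = a ^ 3 + b ^ 2` (`Fam.om_spec`). `l t z.x i₀` is the coordinate `i₀` of `l X`, so
`l t` is regular; `l s x1 = l X - l t z.x` is regular. Let `A''(T) = A(l s T)`, `B''(T) = B(l s T)`,
`R = f(z.x + l s x1 T) - c (l s) ^ (6 e) T ^ (6 e)`, so `A'' ^ 3 + B'' ^ 2 = R` (`Φ.eq`), and `R` has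
regular coefficients (`c (l s) ^ (6 e)` is zero or `l ^ (6 e) c' s ^ (6 e)`, which vanishes at `v`).
`l ^ e ω` is a unit.
First alternative (`α` regular, so `β` is): at the point `(1, l t)` `A''` has the value
`Φ.a (l s) (l t) = l ^ (2 e) Φ.a s t = α (l ^ e ω) ^ 2`, regular, `B''` the value
`l ^ (3 e) Φ.b s t = β (l ^ e ω) ^ 3`, regular, and `R` the value `(l ^ e ω) ^ 6`, a unit. By `int_hom`
the coefficients of `A''` are regular, in particular `A.coeff 0`: contradiction.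
Second alternative: `A.coeff 0` is regular, so `B.coeff 0` is (`Fam.base`). At the point `(0, 1)` the
values are `A.coeff 0`, `B.coeff 0`, and `f(z.x) = z.w ^ 6 ≠ 0`. By `int_hom` the coefficients of
`A''`, `B''` are regular, so `α (l ^ e ω) ^ 2 = hev A'' (2 e) 1 (l t)` is regular, and `l ^ e ω` is a
unit: `α` is regular, contradiction.
`loc_inf`: all terms of `ctv` are zero (`Fam.root`, `CYU.ctr_zero`).
-/

set_option autoImplicit false

noncomputable section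

namespace Pool.Agent.CYS

open Pool.Agent.ZCyc Pool.Agent.Dess Pool.Agent.TInc Polynomial
open Pool.Agent.CYU (Cov Pt Mu mu hev Bi IsVal ctr Spec Inv)
open Pool.Agent.VFP (Om tt)

variable {k : Type} [Field k] [IsAlgClosed k] [CharZero k] {m' : ℕ} [NeZero m']
  {V : Type} [AddCommGroup V] [Module k V] {χ : Mu k 6 →* kˣ} {χ' : Mu k m' →* kˣ}
  {W : Cov k 6} {W' : Cov k m'}

theorem not_inf {z : Pt W k} (hz : z.w ≠ 0) {K : Type} [Field K] [Algebra k K]
    (hK : IsCurve k K) (φ : K →ₐ[k] Om k) {v : Place k K} {Φ : Fam W z K} {c' : K}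
    (hc' : Ct Φ c') {α β : K} (hE : α ^ 3 + β ^ 2 = 1) (hα : α ≠ 0) (hβ : β ≠ 0)
    (hinf : (α ∈ v.ring ∧ Φ.A.coeff 0 ∉ v.ring) ∨ (α ∉ v.ring ∧ Φ.A.coeff 0 ∈ v.ring))
    {s t : K} (h : β ^ 2 * Φ.a s t ^ 3 = α ^ 3 * Φ.b s t ^ 2) (d : ℤ) (q : Pt W k) :
    ¬ Spec v (Φ.p s t) (Φ.om α β s t) (c' * s ^ (6 * W.e)) d q := by
  rintro ⟨l, hx, hw, hq, hd, ho⟩
  obtain ⟨ha, hb, -⟩ := Φ.om_spec hα hβ hE h
  -- `l t` is regular
  have hp₀ : Φ.p s t Φ.i₀ = algebraMap k K (z.x Φ.i₀) * t := by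
    unfold Fam.p
    rw [Φ.h1, zero_mul, add_zero]
  have hlt : l * t ∈ v.ring := by
    have h1 := (hx Φ.i₀).mem
    rw [hp₀] at h1
    have h2 : l * t = algebraMap k K (z.x Φ.i₀)⁻¹ * (l * (algebraMap k K (z.x Φ.i₀) * t)) := by
      have h3 : algebraMap k K (z.x Φ.i₀) ≠ 0 := by
        rw [Ne, map_eq_zero]
        exact Φ.hi₀
      rw [map_inv₀]
      field_simp
    rw [h2]
    exact v.ring.mul_mem _ _ (v.const_mem _) h1
  have hlx : ∀ i, l * s * Φ.x1 i ∈ v.ring := by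
    intro i
    have h1 := (hx i).mem
    have h2 : l * s * Φ.x1 i = l * Φ.p s t i - algebraMap k K (z.x i) * (l * t) := by
      unfold Fam.p
      ring
    rw [h2]
    exact sub_mem h1 (v.ring.mul_mem _ _ (v.const_mem _) hlt)
  obtain ⟨u, hu⟩ : ∃ u, u = l ^ W.e * Φ.om α β s t := ⟨_, rfl⟩
  rw [← hu] at hw
  have hu0 : u ≠ 0 := by
    intro h0
    rw [h0] at hw
    exact hq (hw.unique CYU.at_zero_zero)
  have hlc : (l * s) ^ (6 * W.e) * Φ.c ∈ v.ring := by
    rcases hc'.2 with h1 | ⟨h1, -⟩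
    · rw [← h1]
      have hne : l ^ (6 * W.e) * (c' * s ^ (6 * W.e)) ≠ 0 := by
        intro h0
        rw [h0, ord_zero] at ho
        omega
      have h2 : (l * s) ^ (6 * W.e) * c' = l ^ (6 * W.e) * (c' * s ^ (6 * W.e)) := by
        rw [mul_pow]
        ring
      rw [h2, mem_iff_ord hK hne, ho]
      exact hd.le
    · rw [h1, mul_zero]
      exact v.ring.zero_mem
  set A' : K[X] := Φ.A.comp (C (l * s) * X) with hA'
  set B' : K[X] := Φ.B.comp (C (l * s) * X) with hB'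
  have heq := Φ.eq_comp (l * s)
  rw [← hA', ← hB'] at heq
  have hR : ∀ i, (A' ^ 3 + B' ^ 2).coeff i ∈ v.ring := by
    intro i
    have h1 : A' ^ 3 + B' ^ 2 = MvPolynomial.aeval
        (fun i => C (algebraMap k K (z.x i)) + C (l * s * Φ.x1 i) * X) W.f -
        C ((l * s) ^ (6 * W.e) * Φ.c) * X ^ (6 * W.e) := by
      rw [heq]
      ring
    rw [h1, coeff_sub]
    refine sub_mem (CYU.coeff_mem_aeval W.f ?_ i) ?_
    · intro i' l'
      rw [coeff_add, coeff_C, coeff_C_mul, coeff_X]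
      refine add_mem ?_ ?_
      · split_ifs
        · exact v.const_mem _
        · exact v.ring.zero_mem
      · split_ifs
        · rw [mul_one]
          exact hlx i'
        · rw [mul_zero]
          exact v.ring.zero_mem
    · rw [coeff_C_mul, coeff_X_pow]
      split_ifs
      · rw [mul_one]
        exact hlc
      · rw [mul_zero]
        exact v.ring.zero_mem
  -- the values at `(1, l t)`
  have hvA : hev A' (2 * W.e) 1 (l * t) = α * u ^ 2 := by
    have h1 : hev A' (2 * W.e) 1 (l * t) = l ^ (2 * W.e) * Φ.a s t := by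
      rw [hA', CYU.hev_comp, mul_one, CYU.hev_smul]
      rfl
    rw [h1, ha, hu]
    ring
  have hvB : hev B' (3 * W.e) 1 (l * t) = β * u ^ 3 := by
    have h1 : hev B' (3 * W.e) 1 (l * t) = l ^ (3 * W.e) * Φ.b s t := by
      rw [hB', CYU.hev_comp, mul_one, CYU.hev_smul]
      rfl
    rw [h1, hb, hu]
    ring
  have hdA : A'.natDegree ≤ 2 * W.e := CYU.natDegree_comp_lin_le Φ.degA _
  have hdB : B'.natDegree ≤ 3 * W.e := CYU.natDegree_comp_lin_le Φ.degB _
  have hvR : ∀ σ τ : K, hev (A' ^ 3 + B' ^ 2) (6 * W.e) σ τ =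
      hev A' (2 * W.e) σ τ ^ 3 + hev B' (3 * W.e) σ τ ^ 2 := by
    intro σ τ
    have h1 := CYU.hev_pow hdA 3 σ τ
    have h2 := CYU.hev_pow hdB 2 σ τ
    have e1 : 3 * (2 * W.e) = 6 * W.e := by ring
    have e2 : 2 * (3 * W.e) = 6 * W.e := by ring
    rw [e1] at h1
    rw [e2] at h2
    rw [CYU.hev_add, h1, h2]
  rcases hinf with ⟨hα1, hA0⟩ | ⟨hα1, hA0⟩
  · have hβ1 : β ∈ v.ring := by
      have h1 : β ^ 2 ∈ v.ring := by
        have h2 : β ^ 2 = 1 - α ^ 3 := by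
          rw [← hE]
          ring
        rw [h2]
        exact sub_mem v.ring.one_mem (pow_mem hα1 3)
      exact CYU.mem_of_pow v (by norm_num) h1
    have hnv : ¬ v.Vanishes (hev (A' ^ 3 + B' ^ 2) (6 * W.e) 1 (l * t)) := by
      have h2 : hev (A' ^ 3 + B' ^ 2) (6 * W.e) 1 (l * t) = u ^ 6 := by
        rw [hvR, hvA, hvB]
        calc (α * u ^ 2) ^ 3 + (β * u ^ 3) ^ 2 = (α ^ 3 + β ^ 2) * u ^ 6 := by ring
          _ = u ^ 6 := by rw [hE, one_mul]
      rw [h2]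
      intro h1
      have h3 := (Place.at_zero_iff.2 h1).unique (hw.pow 6)
      exact pow_ne_zero 6 hq h3.symm
    have key := int_hom hK φ (v := v) W.pos hdA hdB (R := A' ^ 3 + B' ^ 2) rfl hR
      v.ring.one_mem hlt hnv
      (by rw [hvA]; exact v.ring.mul_mem _ _ hα1 (pow_mem hw.mem 2))
      (by rw [hvB]; exact v.ring.mul_mem _ _ hβ1 (pow_mem hw.mem 3))
    apply hA0
    have h1 := key.1 0
    rwa [hA', comp_C_mul_X_coeff, pow_zero, mul_one] at h1
  · have hbase := Φ.base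
    have hB0 : Φ.B.coeff 0 ∈ v.ring := by
      have h1 : Φ.B.coeff 0 ^ 2 ∈ v.ring := by
        have h2 : Φ.B.coeff 0 ^ 2 = algebraMap k K (z.w ^ 6) - Φ.A.coeff 0 ^ 3 := by
          rw [← hbase]
          ring
        rw [h2]
        exact sub_mem (v.const_mem _) (pow_mem hA0 3)
      exact CYU.mem_of_pow v (by norm_num) h1
    have hcA : hev A' (2 * W.e) 0 1 = Φ.A.coeff 0 := by
      rw [CYU.hev_s_zero, one_pow, mul_one, hA', comp_C_mul_X_coeff, pow_zero, mul_one]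
    have hcB : hev B' (3 * W.e) 0 1 = Φ.B.coeff 0 := by
      rw [CYU.hev_s_zero, one_pow, mul_one, hB', comp_C_mul_X_coeff, pow_zero, mul_one]
    have hnv : ¬ v.Vanishes (hev (A' ^ 3 + B' ^ 2) (6 * W.e) 0 1) := by
      rw [hvR, hcA, hcB, hbase]
      exact v.const_unit (pow_ne_zero 6 hz)
    have key := int_hom hK φ (v := v) W.pos hdA hdB (R := A' ^ 3 + B' ^ 2) rfl hR
      v.ring.zero_mem v.ring.one_mem hnv (by rw [hcA]; exact hA0) (by rw [hcB]; exact hB0)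
    apply hα1
    have h1 : hev A' (2 * W.e) 1 (l * t) ∈ v.ring := CYU.hev_mem key.1 _ v.ring.one_mem hlt
    rw [hvA] at h1
    have h2 : α = α * u ^ 2 * (u⁻¹) ^ 2 := by
      rw [mul_assoc, ← mul_pow, mul_inv_cancel₀ hu0, one_pow, mul_one]
    rw [h2]
    exact v.ring.mul_mem _ _ h1 (pow_mem (hw.inv hq).mem 2)

theorem loc_inf (G : Bi χ χ' W W' V) {z : Pt W k} (hz : z.w ≠ 0) {K : Type} [Field K]
    [Algebra k K] (hK : IsCurve k K) (φ : K →ₐ[k] Om k) {v : Place k K} {Φ : Fam W z K} {c' : K}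
    (hc' : Ct Φ c') {α β : K} (hE : α ^ 3 + β ^ 2 = 1) (hα : α ≠ 0) (hβ : β ≠ 0)
    (hinf : (α ∈ v.ring ∧ Φ.A.coeff 0 ∉ v.ring) ∨ (α ∉ v.ring ∧ Φ.A.coeff 0 ∈ v.ring))
    (hQ : Φ.Q α β ≠ 0) (z' : Pt W' k) : ctv G Φ α β c' z' v = 0 := by
  obtain ⟨h1, h2⟩ := Φ.root hQ
  have e1 : ((Φ.Q α β).roots.map fun s => ctr (fun q => G.F q z') v (Φ.p s 1) (Φ.om α β s 1)
      (c' * s ^ (6 * W.e))).sum = 0 := by
    apply Multiset.sum_eq_zero
    intro x hx
    rw [Multiset.mem_map] at hx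
    obtain ⟨s, hs, rfl⟩ := hx
    exact CYU.ctr_zero fun d q => not_inf hz hK φ hc' hE hα hβ hinf (h1 s hs) d q
  unfold ctv
  rw [e1, zero_add]
  by_cases hd : (Φ.Q α β).natDegree < 6 * W.e
  · rw [CYU.ctr_zero fun d q => not_inf hz hK φ hc' hE hα hβ hinf (h2 hd) d q, smul_zero]
  · rw [Nat.sub_eq_zero_of_le (not_lt.1 hd), zero_smul]

end Pool.Agent.CYS
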