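import Pool.Agent.CYU.RelF
import Pool.Agent.CYU.DegC
import Pool.Agent.CYS.DegC

/-!
# Coverings of order six: a curve of points of the second covering over a curve of points of `E`

`E` is the curve `α ^ 3 + β ^ 2 = 1`. `par`: `z'` is a point of `W'` (`m' = 6` or `m' = 3`), `(α₀, β₀)` a point of `E`. Either `F z z' = 0`
for all `z`, or there is a function `s` (it is `tt k`) and a point `(α, β)` of `E`, `α` not constant, such that the divisor
of `s` gives the relation `∑ ord v s • F (p v) (z'.tw (a v)) = 0`, the sum over the zeros `v` of `s`, for every point `P` of `W` over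
the curve (`p v` is its value), and `(α, β)` has the value `(a ^ (-2) α₀, a ^ (-3) β₀)` at `v`, `a = a v`.

Proof for `m' = 6`. Let `a0 = z'.w ^ 2 α₀`, `b0 = z'.w ^ 3 β₀`, `a0 ^ 3 + b0 ^ 2 = z'.w ^ 6`, and `Φ'` the family of `exists_fam` for
`W'`, `z'` over `k`, `c'` as in `exists_ct`. If `Φ'.Q α₀ β₀ = 0` then `deg_c` for `G.flip` gives the first alternative. Otherwise let
`ω ∈ Om k`, `ω ^ 6 = A'(s) ^ 3 + B'(s) ^ 2` (`≠ 0`: its value at `s = 0` is `z'.w ^ 6`, `A' ^ 3 + B' ^ 2` is a polynomial `≠ 0` and `s` is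
transcendental), `α = A'(s) / ω ^ 2`, `β = B'(s) / ω ^ 3`, `S = {ω, w'}`, `w' ^ 6 = f'(p'(s))`. `α` is not algebraic over `k`:
otherwise `α` is a constant of `k` (`k` is algebraically closed), `α ^ 3 ω ^ 6 = A'(s) ^ 3`, so
`(1 - α ^ 3) A'(s) ^ 3 = α ^ 3 B'(s) ^ 2`, an identity of polynomials over `k`, at `0`: `(1 - α ^ 3) α₀ ^ 3 = α ^ 3 β₀ ^ 2`, i.e.
`α ^ 3 = α₀ ^ 3`, so `Φ'.Q α₀ β₀ = 0`. Let `v` be a zero of `s`; `ω ^ 6` has the value `z'.w ^ 6`, so `ω` has the value `a z'.w` for an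
`a : Mu k 6`; the values of `α`, `β` follow. The relation is `rel_fam` for `G.flip`, `Φ'.map`, `t = 1`, the point `P` in the other
factor, with `over_not` and `over_zero`, divided by `6 e'`.

Proof for `m' = 3`. Let `σ ^ 3 = 4`, `τ ^ 2 = -3` in `k`, the sign of `τ` such that `τ + β₀ ≠ 0`. If `a + b ≠ 0`,
`a ^ 3 + b ^ 3 = v ^ 3` then `(σ v / (a + b)) ^ 3 + (τ (a - b) / (a + b)) ^ 2 = (4 v ^ 3 - 3 (a - b) ^ 2 (a + b)) / (a + b) ^ 3 = 1`,
because `4 (a ^ 3 + b ^ 3) = (a + b) ^ 3 + 3 (a + b) (a - b) ^ 2`. Let `S₀ = σ z'.w / α₀ ≠ 0`, `D₀ = β₀ S₀ / τ`,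
`a0 = (S₀ + D₀) / 2`, `b0 = (S₀ - D₀) / 2`; then `a0 ^ 3 + b0 ^ 3 = z'.w ^ 3` and `a0 = S₀ (τ + β₀) / (2 τ) ≠ 0`. `Φ'` is the family of
`CYU.exists_fam` (`Ex 3 3 1`). If `B' = κ A'` for a `κ ∈ k` (`CYU.Fam.Q`) then `CYU.deg_c` for `G.flip` gives the first
alternative. Otherwise `ω ^ 3 = A'(s) ^ 3 + B'(s) ^ 3`,
`α = σ ω / (A'(s) + B'(s))`, `β = τ (A'(s) - B'(s)) / (A'(s) + B'(s))` (`A' + B' ≠ 0`, its value at `0` is `S₀ ≠ 0`). `β` is not
algebraic over `k`: otherwise it is constant, `A' - B' = c (A' + B')` for a `c ∈ k`, `(1 - c) A' = (1 + c) B'`, and `A' ≠ 0`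
(`A'(0) = a0`), so `1 + c ≠ 0` and `B'` is a multiple of `A'`. So `α` is not algebraic (`β ^ 2 = 1 - α ^ 3`). At a zero `v` of
`s`: `ω` has the value `a z'.w`, `a : Mu k 3`, `α` the value `a σ z'.w / S₀ = a α₀ = a ^ (-2) α₀`, and `β` the value
`τ D₀ / S₀ = β₀ = a ^ (-3) β₀`.
-/

set_option autoImplicit false

noncomputable section

namespace Pool.Agent.CYS

open Pool.Agent.ZCyc Pool.Agent.Dess Pool.Agent.TInc Polynomial
open Pool.Agent.CYU (Cov Pt Mu mu hev Bi IsVal ctr Spec Inv)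
open Pool.Agent.VFP (Om tt)

variable {k : Type} [Field k] [IsAlgClosed k] [CharZero k] {m' : ℕ} [NeZero m']
  {V : Type} [AddCommGroup V] [Module k V] {χ : Mu k 6 →* kˣ} {χ' : Mu k m' →* kˣ}
  {W : Cov k 6} {W' : Cov k m'}

open Classical in
/-- the second alternative -/
def Alt (G : Bi χ χ' W W' V) (z' : Pt W' k) (α₀ β₀ : k) : Prop :=
  ∃ (S : Set (Om k)) (α β : Om k), S.Finite ∧ α ^ 3 + β ^ 2 = 1 ∧ Transcendental k α ∧
    ∀ K : IntermediateField k (Om k), IsCurve k K → ∀ (ht : tt k ∈ K) (hα : α ∈ K) (hβ : β ∈ K),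
      S ⊆ K → ∃ a : Place k K → Mu k m',
        (∀ v : Place k K, v.Vanishes (⟨tt k, ht⟩ : K) →
          v.At (⟨α, hα⟩ : K) ((mu k (a v))⁻¹ ^ 2 * α₀) ∧
            v.At (⟨β, hβ⟩ : K) ((mu k (a v))⁻¹ ^ 3 * β₀)) ∧
        ∀ (P : Pt W K) (p : Place k K → Pt W k), (∀ v, IsVal v P (p v)) →
          ∑ᶠ v : Place k K, (if v.Vanishes (⟨tt k, ht⟩ : K) then
            ord v (⟨tt k, ht⟩ : K) • G.F (p v) (z'.tw (a v)) else 0) = 0

omit [IsAlgClosed k] [CharZero k] in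
private theorem pr_zero {K : Type} [Field K] [Algebra k K] {v : Place k K} {s : K}
    (hv : v.Vanishes s) (P : k[X]) : v.At (aeval s P) (P.coeff 0) := by
  have h1 := (Place.at_zero_iff.2 hv).aeval P
  rwa [← coeff_zero_eq_eval_zero] at h1

open Classical in
omit [IsAlgClosed k] in
private theorem pr_end {K : Type} [Field K] [Algebra k K] {s : K} {N : ℕ} (hN : 0 < N)
    {F F' : Place k K → V} (h0 : ∀ v, ¬ v.Vanishes s → F v = 0)
    (h1 : ∀ v, v.Vanishes s → F v = (N * ord v s) • F' v) (hsum : ∑ᶠ v, F v = 0) :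
    ∑ᶠ v : Place k K, (if v.Vanishes s then ord v s • F' v else 0) = 0 := by
  have h2 : (N : k) • ∑ᶠ v : Place k K, (if v.Vanishes s then ord v s • F' v else 0) = 0 := by
    rw [smul_finsum]
    refine Eq.trans (finsum_congr fun v => ?_) hsum
    by_cases hv : v.Vanishes s
    · rw [if_pos hv, h1 v hv, Nat.cast_smul_eq_nsmul, mul_smul, natCast_zsmul]
    · rw [if_neg hv, h0 v hv, smul_zero]
  exact (smul_eq_zero.1 h2).resolve_left (Nat.cast_ne_zero.2 hN.ne')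

omit [CharZero k] in
private theorem pr_const {K : Type} [Field K] [Algebra k K] {x : K} (h : IsAlgebraic k x) :
    ∃ c : k, algebraMap k K c = x :=
  minpoly.mem_range_of_degree_eq_one k x
    (IsAlgClosed.degree_eq_one_of_irreducible k (minpoly.irreducible h.isIntegral))

omit [IsAlgClosed k] [CharZero k] in
private theorem pr_inj {P Q : k[X]} (h : aeval (tt k) P = aeval (tt k) Q) : P = Q := by
  have h1 : aeval (tt k) (P - Q) = 0 := by
    rw [map_sub, h, sub_self]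
  have h2 := transcendental_iff.1 (CYU.transc_tt (k := k)) _ h1
  exact sub_eq_zero.1 h2

omit [IsAlgClosed k] [CharZero k] in
private theorem pr_val (K : IntermediateField k (Om k)) (s : K) (P : k[X]) :
    ((aeval s P : K) : Om k) = aeval (s : Om k) P := by
  have h1 := Polynomial.aeval_algHom_apply K.val s P
  exact h1.symm

omit [IsAlgClosed k] [CharZero k] in
private theorem pr_pow0 (P : k[X]) (n : ℕ) : (P ^ n).coeff 0 = P.coeff 0 ^ n := by
  rw [coeff_zero_eq_eval_zero, coeff_zero_eq_eval_zero, eval_pow]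

theorem par_six {χ' : Mu k 6 →* kˣ} {W' : Cov k 6} (G : Bi χ χ' W W' V)
    (hχ' : Function.Injective χ') (hn' : W'.e ≤ W'.n) {α₀ β₀ : k} (hα₀ : α₀ ≠ 0) (hβ₀ : β₀ ≠ 0)
    (hE₀ : α₀ ^ 3 + β₀ ^ 2 = 1) {z' : Pt W' k} (hz' : z'.w ≠ 0) :
    (∀ z, G.F z z' = 0) ∨ Alt G z' α₀ β₀ := by
  classical
  have hχf : Function.Injective (χ'⁻¹ : Mu k 6 →* kˣ) := CYU.inv_inj hχ'
  obtain ⟨Φ, hA0, hB0⟩ := exists_fam (K := k) hn' z' (a0 := z'.w ^ 2 * α₀) (b0 := z'.w ^ 3 * β₀)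
    (by
      rw [Algebra.algebraMap_self, RingHom.id_apply]
      linear_combination z'.w ^ 6 * hE₀)
  by_cases hQ : Φ.Q α₀ β₀ = 0
  · left
    intro z
    exact deg_c G.flip hχf hz' Φ hα₀ hβ₀ hE₀ hQ z
  right
  obtain ⟨c', hc'⟩ := exists_ct hz' Φ
  -- the functions
  set As : Om k := aeval (tt k) Φ.A with hAs
  set Bs : Om k := aeval (tt k) Φ.B with hBs
  obtain ⟨ω, hω⟩ := IsAlgClosed.exists_pow_nat_eq (As ^ 3 + Bs ^ 2) (show 0 < 6 by norm_num)
  obtain ⟨w0, hw0⟩ := IsAlgClosed.exists_pow_nat_eq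
    (MvPolynomial.aeval ((Φ.map (Algebra.ofId k (Om k))).p (tt k) 1) W'.f)
    (show 0 < 6 by norm_num)
  have hR0 : As ^ 3 + Bs ^ 2 ≠ 0 := by
    intro h
    have h1 : aeval (tt k) (Φ.A ^ 3 + Φ.B ^ 2) = aeval (tt k) (0 : k[X]) := by
      rw [map_add, map_pow, map_pow, map_zero]
      exact h
    have h2 := congrArg (fun P : k[X] => P.coeff 0) (pr_inj h1)
    simp only [coeff_add, pr_pow0, coeff_zero, hA0, hB0] at h2
    apply pow_ne_zero 6 hz'
    linear_combination h2 - z'.w ^ 6 * hE₀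
  have hω0 : ω ≠ 0 := by
    rintro rfl
    rw [zero_pow (by norm_num)] at hω
    exact hR0 hω.symm
  refine ⟨{ω, w0}, As / ω ^ 2, Bs / ω ^ 3, by simp, ?_, ?_, ?_⟩
  · rw [div_pow, div_pow, ← pow_mul, ← pow_mul, ← add_div, hω.symm]
    exact div_self (pow_ne_zero 6 hω0)
  · intro halg
    obtain ⟨c, hc⟩ := pr_const halg
    have h1 : algebraMap k (Om k) (c ^ 3) * (As ^ 3 + Bs ^ 2) = As ^ 3 := by
      rw [map_pow, hc, ← hω, div_pow, ← pow_mul]
      field_simp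
    have h2 : C (c ^ 3) * (Φ.A ^ 3 + Φ.B ^ 2) = Φ.A ^ 3 := by
      apply pr_inj
      rw [_root_.map_mul, aeval_C, _root_.map_add, _root_.map_pow (aeval (tt k)) Φ.A,
        _root_.map_pow (aeval (tt k)) Φ.B]
      exact h1
    have h3 := congrArg (fun P : k[X] => P.coeff 0) h2
    simp only [coeff_C_mul, coeff_add, pr_pow0, hA0, hB0] at h3
    have h4 : c ^ 3 = α₀ ^ 3 := by
      apply mul_left_cancel₀ (pow_ne_zero 6 hz')
      linear_combination h3 - z'.w ^ 6 * c ^ 3 * hE₀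
    apply hQ
    rw [Fam.Q]
    rw [h4] at h2
    have h5 : (C (β₀ ^ 2) : k[X]) = 1 - C (α₀ ^ 3) := by
      rw [← C_1, ← C_sub]
      congr 1
      linear_combination hE₀
    rw [h5]
    linear_combination -h2
  intro K hK ht hα hβ hS
  have hωK : ω ∈ K := hS (by simp)
  have hwK : w0 ∈ K := hS (by simp)
  set s : K := ⟨tt k, ht⟩ with hs
  set ωK : K := ⟨ω, hωK⟩ with hωKd
  have hs0 : s ≠ 0 := by
    intro h1
    have h2 : tt k = 0 := congrArg Subtype.val h1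
    have h3 := CYU.transc_tt (k := k)
    rw [h2] at h3
    exact h3 isAlgebraic_zero
  have hω6 : ωK ^ 6 = aeval s Φ.A ^ 3 + aeval s Φ.B ^ 2 := by
    apply K.val.injective
    show ω ^ 6 = ((aeval s Φ.A : K) : Om k) ^ 3 + ((aeval s Φ.B : K) : Om k) ^ 2
    rw [pr_val, pr_val]
    exact hω
  have hαK : (⟨As / ω ^ 2, hα⟩ : K) = aeval s Φ.A / ωK ^ 2 := by
    apply K.val.injective
    show As / ω ^ 2 = ((aeval s Φ.A : K) : Om k) / ω ^ 2
    rw [pr_val]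
  have hβK : (⟨Bs / ω ^ 3, hβ⟩ : K) = aeval s Φ.B / ωK ^ 3 := by
    apply K.val.injective
    show Bs / ω ^ 3 = ((aeval s Φ.B : K) : Om k) / ω ^ 3
    rw [pr_val]
  -- the values of `ω`
  have hval : ∀ v : Place k K, ∃ a : Mu k 6, v.Vanishes s → v.At ωK (mu k a * z'.w) := by
    intro v
    by_cases hv : v.Vanishes s
    · have h1 : v.At (ωK ^ 6) (z'.w ^ 6) := by
        rw [hω6]
        have h2 := ((pr_zero hv Φ.A).pow 3).add ((pr_zero hv Φ.B).pow 2)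
        have h3 : Φ.A.coeff 0 ^ 3 + Φ.B.coeff 0 ^ 2 = z'.w ^ 6 := by
          rw [hA0, hB0]
          linear_combination z'.w ^ 6 * hE₀
        rwa [h3] at h2
      obtain ⟨τ, hτ⟩ := exists_at hK v (CYU.mem_of_pow v (by norm_num) h1.mem)
      have h2 : τ ^ 6 = z'.w ^ 6 := (hτ.pow 6).unique h1
      obtain ⟨a, ha⟩ := CYU.exists_mu h2
      exact ⟨a, fun _ => ha ▸ hτ⟩
    · exact ⟨1, fun h => absurd h hv⟩
  choose a ha using hval
  refine ⟨a, fun v hv => ?_, fun P p hp => ?_⟩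
  · have hω' := ha v hv
    have hne : mu k (a v) * z'.w ≠ 0 := mul_ne_zero (CYU.mu_ne k _) hz'
    have hmu : mu k (a v) ≠ 0 := CYU.mu_ne k _
    rw [hαK, hβK]
    constructor
    · have h1 := (pr_zero hv Φ.A).div (hω'.pow 2) (pow_ne_zero 2 hne)
      rw [hA0] at h1
      have h2 : z'.w ^ 2 * α₀ / (mu k (a v) * z'.w) ^ 2 = (mu k (a v))⁻¹ ^ 2 * α₀ := by
        field_simp
      rwa [h2] at h1
    · have h1 := (pr_zero hv Φ.B).div (hω'.pow 3) (pow_ne_zero 3 hne)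
      rw [hB0] at h1
      have h2 : z'.w ^ 3 * β₀ / (mu k (a v) * z'.w) ^ 3 = (mu k (a v))⁻¹ ^ 3 * β₀ := by
        field_simp
      rwa [h2] at h1
  · set Ψ := Φ.map (Algebra.ofId k K) with hΨ
    have hwK' : (⟨w0, hwK⟩ : K) ^ 6 = MvPolynomial.aeval (Ψ.p s 1) W'.f := by
      apply K.val.injective
      have h1 : K.val (MvPolynomial.aeval (Ψ.p s 1) W'.f) =
          MvPolynomial.aeval (fun i => K.val (Ψ.p s 1 i)) W'.f :=
        DFunLike.congr_fun (MvPolynomial.comp_aeval (Ψ.p s 1) K.val) W'.f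
      show K.val (⟨w0, hwK⟩ ^ 6) = K.val (MvPolynomial.aeval (Ψ.p s 1) W'.f)
      rw [h1, map_pow]
      exact hw0
    have haE : Ψ.a s 1 = aeval s Φ.A := by
      have h1 : Ψ.a s 1 = (Φ.A.map (algebraMap k K)).eval s := CYU.hev_one Ψ.degA s
      rw [h1, eval_map_algebraMap]
    have hbE : Ψ.b s 1 = aeval s Φ.B := by
      have h1 : Ψ.b s 1 = (Φ.B.map (algebraMap k K)).eval s := CYU.hev_one Ψ.degB s
      rw [h1, eval_map_algebraMap]
    have hrel := rel_fam G.flip hχf hK (P' := P) (p' := p) hp Ψ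
      (hc'.map (Algebra.ofId k K)) hs0 hwK' (ω := ωK) (by rw [haE, hbE]; exact hω6)
    have hinv : ∀ v, Inv fun q => G.flip.F q (p v) := fun v b hb q => G.flip.scale1 b hb q (p v)
    refine pr_end (N := 6 * W'.e) (Nat.mul_pos (by norm_num) W'.pos)
      (F := fun v => ctr (fun q => G.flip.F q (p v)) v (Ψ.p s 1) ωK
        (algebraMap k K c' * s ^ (6 * W'.e))) (F' := fun v => G.F (p v) (z'.tw (a v)))
      (fun v hv => over_not hK Φ hv _ hc'.1 _) (fun v hv => ?_) hrel.2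
    have h1 := over_zero hK hz' Φ hv hs0 (ha v hv) hc'.1 (hinv v)
    push_cast
    exact h1

theorem par_three {χ' : Mu k 3 →* kˣ} {W' : Cov k 3} (G : Bi χ χ' W W' V)
    (hχ' : Function.Injective χ') (hn' : W'.e ≤ W'.n) {α₀ β₀ : k} (hα₀ : α₀ ≠ 0) (hβ₀ : β₀ ≠ 0)
    (hE₀ : α₀ ^ 3 + β₀ ^ 2 = 1) {z' : Pt W' k} (hz' : z'.w ≠ 0) :
    (∀ z, G.F z z' = 0) ∨ Alt G z' α₀ β₀ := by
  classical
  have hex : CYU.Ex 3 3 1 := Or.inl ⟨rfl, rfl, rfl⟩
  have hχf : Function.Injective (χ'⁻¹ : Mu k 3 →* kˣ) := CYU.inv_inj hχ'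
  obtain ⟨σ, hσ⟩ := IsAlgClosed.exists_pow_nat_eq (4 : k) (show 0 < 3 by norm_num)
  have hσ0 : σ ≠ 0 := by
    rintro rfl
    rw [zero_pow (by norm_num)] at hσ
    exact (by norm_num : (4 : k) ≠ 0) hσ.symm
  obtain ⟨τ, hτ, hτβ⟩ : ∃ τ : k, τ ^ 2 = -3 ∧ τ + β₀ ≠ 0 := by
    obtain ⟨τ, hτ⟩ := IsAlgClosed.exists_pow_nat_eq (-3 : k) (show 0 < 2 by norm_num)
    by_cases h : τ + β₀ = 0
    · refine ⟨-τ, by rw [neg_pow_two]; exact hτ, fun h1 => hβ₀ ?_⟩
      have h2 : 2 * β₀ = 0 := by linear_combination h + h1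
      exact (mul_eq_zero.1 h2).resolve_left two_ne_zero
    · exact ⟨τ, hτ, h⟩
  have hτ0 : τ ≠ 0 := by
    rintro rfl
    rw [zero_pow (by norm_num)] at hτ
    exact (by norm_num : (-3 : k) ≠ 0) hτ.symm
  obtain ⟨S₀, hS₀⟩ : ∃ S₀ : k, S₀ = σ * z'.w / α₀ := ⟨_, rfl⟩
  have hS0 : S₀ ≠ 0 := hS₀ ▸ div_ne_zero (mul_ne_zero hσ0 hz') hα₀
  have hSα : S₀ * α₀ = σ * z'.w := by
    rw [hS₀]
    field_simp
  obtain ⟨D₀, hD₀⟩ : ∃ D₀ : k, D₀ = β₀ * S₀ / τ := ⟨_, rfl⟩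
  have hDτ : τ * D₀ = β₀ * S₀ := by
    rw [hD₀]
    field_simp
  have h2ne : (2 : k) ≠ 0 := two_ne_zero
  have hcube : S₀ ^ 3 + 3 * S₀ * D₀ ^ 2 = 4 * z'.w ^ 3 := by
    have h1 : τ ^ 2 * (S₀ ^ 3 + 3 * S₀ * D₀ ^ 2) = τ ^ 2 * (4 * z'.w ^ 3) := by
      have h2 : (τ * D₀) ^ 2 = (β₀ * S₀) ^ 2 := by rw [hDτ]
      have h3 : (S₀ * α₀) ^ 3 = (σ * z'.w) ^ 3 := by rw [hSα]
      rw [hτ]
      have h4 : -3 * D₀ ^ 2 = (β₀ * S₀) ^ 2 := by
        rw [← h2, mul_pow, hτ]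
      linear_combination 3 * S₀ * h4 + 3 * S₀ ^ 3 * hE₀ - 3 * h3 - 3 * z'.w ^ 3 * hσ
    exact mul_left_cancel₀ (pow_ne_zero 2 hτ0) h1
  obtain ⟨Φ, hA0, hB0⟩ := CYU.exists_fam (K := k) hex hn' z' (a0 := (S₀ + D₀) / 2)
    (b0 := (S₀ - D₀) / 2)
    (by
      rw [Algebra.algebraMap_self, RingHom.id_apply]
      field_simp
      linear_combination 2 * hcube)
  have hA0ne : Φ.A ≠ 0 := by
    intro h
    rw [h, coeff_zero] at hA0
    have h1 : S₀ + D₀ = 0 := by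
      have h2 := hA0.symm
      rw [div_eq_zero_iff] at h2
      exact h2.resolve_right h2ne
    apply mul_ne_zero hS0 hτβ
    linear_combination τ * h1 - hDτ
  by_cases hQ : ∃ κ, Φ.Q κ = 0
  · left
    intro z
    obtain ⟨κ, hκ⟩ := hQ
    exact CYU.deg_c G.flip hex hχf hz' Φ hκ z
  right
  obtain ⟨c', hc'⟩ := CYU.exists_ct hex hz' Φ
  -- the functions
  set As : Om k := aeval (tt k) Φ.A with hAs
  set Bs : Om k := aeval (tt k) Φ.B with hBs
  obtain ⟨ω, hω⟩ := IsAlgClosed.exists_pow_nat_eq (As ^ 3 + Bs ^ 3) (show 0 < 3 by norm_num)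
  obtain ⟨w0, hw0⟩ := IsAlgClosed.exists_pow_nat_eq
    (MvPolynomial.aeval ((Φ.map (Algebra.ofId k (Om k))).p (tt k) 1) W'.f)
    (show 0 < 3 by norm_num)
  have hR0 : As + Bs ≠ 0 := by
    intro h
    have h1 : aeval (tt k) (Φ.A + Φ.B) = aeval (tt k) (0 : k[X]) := by
      rw [map_add, map_zero]
      exact h
    have h2 := congrArg (fun P : k[X] => P.coeff 0) (pr_inj h1)
    simp only [coeff_add, coeff_zero, hA0, hB0] at h2
    apply hS0
    rw [← h2]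
    field_simp
    ring
  set σ' : Om k := algebraMap k (Om k) σ with hσ'
  set τ' : Om k := algebraMap k (Om k) τ with hτ'
  have hσ3 : σ' ^ 3 = 4 := by
    rw [hσ', ← _root_.map_pow, hσ]
    exact map_ofNat _ 4
  have hτ2 : τ' ^ 2 = -3 := by
    rw [hτ', ← _root_.map_pow, hτ, map_neg, map_ofNat (algebraMap k (Om k)) 3]
  have hEE : (σ' * ω / (As + Bs)) ^ 3 + (τ' * (As - Bs) / (As + Bs)) ^ 2 = 1 := by
    rw [div_pow, div_pow, mul_pow, mul_pow, hσ3, hτ2, hω]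
    field_simp
    ring
  have hβtr : ¬ IsAlgebraic k (τ' * (As - Bs) / (As + Bs)) := by
    intro halg
    obtain ⟨c, hc⟩ := pr_const halg
    have h1 : algebraMap k (Om k) c * (As + Bs) = τ' * (As - Bs) := by
      rw [hc]
      field_simp
    have h2 : C (τ - c) * Φ.A = C (τ + c) * Φ.B := by
      apply pr_inj
      rw [map_mul, aeval_C, map_mul, aeval_C, map_sub, map_add]
      linear_combination -h1
    by_cases h3 : τ + c = 0
    · rw [h3, C_0, zero_mul, mul_eq_zero] at h2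
      rcases h2 with h2 | h2
      · have h4 : τ - c = 0 := C_eq_zero.1 h2
        have h5 : 2 * τ = 0 := by linear_combination h3 + h4
        exact hτ0 ((mul_eq_zero.1 h5).resolve_left two_ne_zero)
      · exact hA0ne h2
    · apply hQ
      refine ⟨(τ + c)⁻¹ * (τ - c), ?_⟩
      rw [CYU.Fam.Q, pow_one, C_mul, mul_assoc, h2, ← mul_assoc, ← C_mul, inv_mul_cancel₀ h3,
        C_1, one_mul, sub_self]
  refine ⟨{ω, w0}, σ' * ω / (As + Bs), τ' * (As - Bs) / (As + Bs), by simp, hEE, ?_, ?_⟩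
  · intro halg
    apply hβtr
    have h1 : IsAlgebraic k ((τ' * (As - Bs) / (As + Bs)) ^ 2) := by
      have h2 : (τ' * (As - Bs) / (As + Bs)) ^ 2 = 1 - (σ' * ω / (As + Bs)) ^ 3 := by
        linear_combination hEE
      rw [h2]
      exact isAlgebraic_one.sub (halg.pow 3)
    exact h1.of_pow (by norm_num)
  intro K hK ht hα hβ hS
  have hωK : ω ∈ K := hS (by simp)
  have hwK : w0 ∈ K := hS (by simp)
  set s : K := ⟨tt k, ht⟩ with hs
  set ωK : K := ⟨ω, hωK⟩ with hωKd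
  have hs0 : s ≠ 0 := by
    intro h1
    have h2 : tt k = 0 := congrArg Subtype.val h1
    have h3 := CYU.transc_tt (k := k)
    rw [h2] at h3
    exact h3 isAlgebraic_zero
  have hω3 : ωK ^ 3 = aeval s Φ.A ^ 3 + aeval s Φ.B ^ 3 := by
    apply K.val.injective
    show ω ^ 3 = ((aeval s Φ.A : K) : Om k) ^ 3 + ((aeval s Φ.B : K) : Om k) ^ 3
    rw [pr_val, pr_val]
    exact hω
  have hαK : (⟨σ' * ω / (As + Bs), hα⟩ : K) =
      algebraMap k K σ * ωK / (aeval s Φ.A + aeval s Φ.B) := by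
    apply K.val.injective
    show σ' * ω / (As + Bs) =
      algebraMap k (Om k) σ * ω / (((aeval s Φ.A : K) : Om k) + ((aeval s Φ.B : K) : Om k))
    rw [pr_val, pr_val]
  have hβK : (⟨τ' * (As - Bs) / (As + Bs), hβ⟩ : K) =
      algebraMap k K τ * (aeval s Φ.A - aeval s Φ.B) / (aeval s Φ.A + aeval s Φ.B) := by
    apply K.val.injective
    show τ' * (As - Bs) / (As + Bs) =
      algebraMap k (Om k) τ * (((aeval s Φ.A : K) : Om k) - ((aeval s Φ.B : K) : Om k)) /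
        (((aeval s Φ.A : K) : Om k) + ((aeval s Φ.B : K) : Om k))
    rw [pr_val, pr_val]
  have hAB : Φ.A.coeff 0 + Φ.B.coeff 0 = S₀ := by
    rw [hA0, hB0]
    field_simp
    ring
  have hAB' : Φ.A.coeff 0 - Φ.B.coeff 0 = D₀ := by
    rw [hA0, hB0]
    field_simp
    ring
  -- the values of `ω`
  have hval : ∀ v : Place k K, ∃ a : Mu k 3, v.Vanishes s → v.At ωK (mu k a * z'.w) := by
    intro v
    by_cases hv : v.Vanishes s
    · have h1 : v.At (ωK ^ 3) (z'.w ^ 3) := by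
        rw [hω3]
        have h2 := ((pr_zero hv Φ.A).pow 3).add ((pr_zero hv Φ.B).pow 3)
        have h3 : Φ.A.coeff 0 ^ 3 + Φ.B.coeff 0 ^ 3 = z'.w ^ 3 := by
          rw [hA0, hB0]
          field_simp
          linear_combination 2 * hcube
        rwa [h3] at h2
      obtain ⟨ρ, hρ⟩ := exists_at hK v (CYU.mem_of_pow v (by norm_num) h1.mem)
      have h2 : ρ ^ 3 = z'.w ^ 3 := (hρ.pow 3).unique h1
      obtain ⟨a, ha⟩ := CYU.exists_mu h2
      exact ⟨a, fun _ => ha ▸ hρ⟩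
    · exact ⟨1, fun h => absurd h hv⟩
  choose a ha using hval
  refine ⟨a, fun v hv => ?_, fun P p hp => ?_⟩
  · have hω' := ha v hv
    have hmu : mu k (a v) ≠ 0 := CYU.mu_ne k _
    have hmu3 : mu k (a v) ^ 3 = 1 := CYU.mu_pow k _
    have hsum := (pr_zero hv Φ.A).add (pr_zero hv Φ.B)
    rw [hAB] at hsum
    have hdif := (pr_zero hv Φ.A).sub (pr_zero hv Φ.B)
    rw [hAB'] at hdif
    rw [hαK, hβK]
    constructor
    · have h1 := ((Place.at_const σ).mul hω').div hsum hS0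
      have h2 : σ * (mu k (a v) * z'.w) / S₀ = (mu k (a v))⁻¹ ^ 2 * α₀ := by
        rw [div_eq_iff hS0]
        have h3 : (mu k (a v))⁻¹ ^ 2 = mu k (a v) := by
          rw [inv_pow]
          apply inv_eq_of_mul_eq_one_right
          rw [← hmu3]
          ring
        rw [h3]
        linear_combination -mu k (a v) * hSα
      rwa [h2] at h1
    · have h1 := ((Place.at_const τ).mul hdif).div hsum hS0
      have h2 : τ * D₀ / S₀ = (mu k (a v))⁻¹ ^ 3 * β₀ := by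
        rw [inv_pow, hmu3, inv_one, one_mul, div_eq_iff hS0, hDτ]
      rwa [h2] at h1
  · set Ψ := Φ.map (Algebra.ofId k K) with hΨ
    have hwK' : (⟨w0, hwK⟩ : K) ^ 3 = MvPolynomial.aeval (Ψ.p s 1) W'.f := by
      apply K.val.injective
      have h1 : K.val (MvPolynomial.aeval (Ψ.p s 1) W'.f) =
          MvPolynomial.aeval (fun i => K.val (Ψ.p s 1 i)) W'.f :=
        DFunLike.congr_fun (MvPolynomial.comp_aeval (Ψ.p s 1) K.val) W'.f
      show K.val (⟨w0, hwK⟩ ^ 3) = K.val (MvPolynomial.aeval (Ψ.p s 1) W'.f)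
      rw [h1, map_pow]
      exact hw0
    have haE : Ψ.a s 1 = aeval s Φ.A := by
      have h1 : Ψ.a s 1 = (Φ.A.map (algebraMap k K)).eval s := CYU.hev_one Ψ.degA s
      rw [h1, eval_map_algebraMap]
    have hbE : Ψ.b s 1 = aeval s Φ.B := by
      have h1 : Ψ.b s 1 = (Φ.B.map (algebraMap k K)).eval s := CYU.hev_one Ψ.degB s
      rw [h1, eval_map_algebraMap]
    have hrel := CYU.rel_fam G.flip hex hχf hK (P' := P) (p' := p) hp Ψ
      (hc'.map (Algebra.ofId k K)) hs0 hwK' (ω := ωK) (by rw [haE, hbE]; exact hω3)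
    have hinv : ∀ v, Inv fun q => G.flip.F q (p v) := fun v b hb q => G.flip.scale1 b hb q (p v)
    refine pr_end (N := 3 * W'.e) (Nat.mul_pos (by norm_num) W'.pos)
      (F := fun v => ctr (fun q => G.flip.F q (p v)) v (Ψ.p s 1) ωK
        (algebraMap k K c' * s ^ (3 * W'.e))) (F' := fun v => G.F (p v) (z'.tw (a v)))
      (fun v hv => CYU.over_not hK Φ hv _ hc'.1 _) (fun v hv => ?_) hrel.2
    have h1 := CYU.over_zero hK hz' Φ hv hs0 (ha v hv) hc'.1 (hinv v)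
    push_cast
    exact h1

theorem par (G : Bi χ χ' W W' V) (hm' : m' = 3 ∨ m' = 6) (hχ' : Function.Injective χ')
    (hn' : W'.e ≤ W'.n) {α₀ β₀ : k} (hα₀ : α₀ ≠ 0) (hβ₀ : β₀ ≠ 0)
    (hE₀ : α₀ ^ 3 + β₀ ^ 2 = 1) {z' : Pt W' k} (hz' : z'.w ≠ 0) :
    (∀ z, G.F z z' = 0) ∨ Alt G z' α₀ β₀ := by
  rcases hm' with rfl | rfl
  · exact par_three G hχ' hn' hα₀ hβ₀ hE₀ hz'
  · exact par_six G hχ' hn' hα₀ hβ₀ hE₀ hz'

end Pool.Agent.CYS
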