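import Pool.Agent.CYU.RelA
import Pool.Agent.CYU.RelB
import Pool.Agent.CYU.Over
import Pool.Agent.CYS.Fam

/-!
# Coverings of order six: the relation for a point of a family, families with constant coefficients

Proof of `rel_fam`. As `CYU.rel_fam`: `X = Φ.p s t`. If `X = 0` then no place is special (`q.x ≠ 0` in `Spec`). Otherwise
let `c'' = c' s ^ (6 e) ≠ 0`. If `c' = Φ.c`: `rel_a` with `w` and `c = c''` (`Fam.heval`). If `Φ.c = 0`,
`c' = x1 i ^ (6 e)`: `ω ^ 6 = f(X)` (`Fam.heval`), and `rel_b` with the linear form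
`L(x) = x_i - (z.x i / z.x i₀) x_(i₀)` (`i ≠ i₀`, because `x1 i ≠ 0`), `L(Φ.p s t) = x1 i s`.

`over_not`, `over_zero`: as in `CYU/Over.lean` (the proofs use only `z`, `x1`, `i₀`).
-/

set_option autoImplicit false

noncomputable section

namespace Pool.Agent.CYS

open Pool.Agent.ZCyc Pool.Agent.Dess Pool.Agent.TInc Polynomial
open Pool.Agent.CYU (Cov Pt Mu mu hev Bi IsVal ctr Spec Inv)
open Pool.Agent.VFP (Om tt)

variable {k : Type} [Field k] [IsAlgClosed k] [CharZero k] {m' : ℕ} [NeZero m']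
  {V : Type} [AddCommGroup V] [Module k V] {χ : Mu k 6 →* kˣ} {χ' : Mu k m' →* kˣ}
  {W : Cov k 6} {W' : Cov k m'}

omit [IsAlgClosed k] [CharZero k] in
private lemma relf_pi {K : Type} [Field K] [Algebra k K] {z : Pt W k} {Φ : Fam W z K} {s t : K} :
    Φ.p s t Φ.i₀ = algebraMap k K (z.x Φ.i₀) * t := by
  unfold Fam.p
  rw [Φ.h1, zero_mul, add_zero]

theorem rel_fam (G : Bi χ χ' W W' V) (hχ : Function.Injective χ) {K : Type} [Field K]
    [Algebra k K] (hK : IsCurve k K) {P' : Pt W' K} {p' : Place k K → Pt W' k}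
    (hp' : ∀ v, IsVal v P' (p' v)) {z : Pt W k} (Φ : Fam W z K) {c' : K} (hc' : Ct Φ c')
    {s t w ω : K} (hs : s ≠ 0) (hw : w ^ 6 = MvPolynomial.aeval (Φ.p s t) W.f)
    (hω : ω ^ 6 = Φ.a s t ^ 3 + Φ.b s t ^ 2) :
    (Function.support fun v => ctr (fun q => G.F q (p' v)) v (Φ.p s t) ω
        (c' * s ^ (6 * W.e))).Finite ∧
      ∑ᶠ v, ctr (fun q => G.F q (p' v)) v (Φ.p s t) ω (c' * s ^ (6 * W.e)) = 0 := by
  by_cases hX : Φ.p s t = 0
  · have h0 : ∀ v, ctr (fun q => G.F q (p' v)) v (Φ.p s t) ω (c' * s ^ (6 * W.e)) = 0 := by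
      intro v
      apply CYU.ctr_zero
      rintro d q ⟨l, h1, -, -, -, -⟩
      apply q.ne
      funext i
      have h2 := h1 i
      rw [hX, Pi.zero_apply, mul_zero] at h2
      have h4 := Place.at_const (v := v) (0 : k)
      rw [_root_.map_zero] at h4
      exact h2.unique h4
    have h1 : (fun v => ctr (fun q => G.F q (p' v)) v (Φ.p s t) ω (c' * s ^ (6 * W.e))) = 0 :=
      funext h0
    rw [h1]
    exact ⟨by rw [Function.support_zero]; exact Set.finite_empty, finsum_zero⟩
  have hev := Φ.heval s t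
  obtain ⟨hc0, hc1 | ⟨hc2, i, hi⟩⟩ := hc'
  · refine CYU.rel_a G (by norm_num) hχ hK hp' hX hw ?_ (mul_ne_zero hc0 (pow_ne_zero _ hs))
    rw [hw, hev, hω, hc1]
  · have hxi : Φ.x1 i ≠ 0 := by
      intro h
      apply hc0
      rw [hi, h, zero_pow (mul_ne_zero (by norm_num) W.pos.ne')]
    have hii : i ≠ Φ.i₀ := by
      rintro rfl
      exact hxi Φ.h1
    have hz0 : algebraMap k K (z.x Φ.i₀) ≠ 0 := by
      rw [Ne, map_eq_zero]
      exact Φ.hi₀
    have hsum : ∑ l, algebraMap k K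
        ((Pi.single i 1 - Pi.single Φ.i₀ (z.x i / z.x Φ.i₀) : Fin (W.n + 1) → k) l) * Φ.p s t l =
        Φ.x1 i * s := by
      have h1 : ∀ l, algebraMap k K
          ((Pi.single i 1 - Pi.single Φ.i₀ (z.x i / z.x Φ.i₀) : Fin (W.n + 1) → k) l) *
            Φ.p s t l = (if l = i then Φ.p s t l else 0) -
              if l = Φ.i₀ then algebraMap k K (z.x i / z.x Φ.i₀) * Φ.p s t l else 0 := by
        intro l
        rw [Pi.sub_apply, Pi.single_apply, Pi.single_apply, map_sub, sub_mul]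
        congr 1
        · split_ifs
          · rw [map_one, one_mul]
          · rw [map_zero, zero_mul]
        · split_ifs
          · rfl
          · rw [map_zero, zero_mul]
      rw [Finset.sum_congr rfl fun l _ => h1 l, Finset.sum_sub_distrib, Finset.sum_ite_eq',
        Finset.sum_ite_eq', if_pos (Finset.mem_univ _), if_pos (Finset.mem_univ _), relf_pi]
      unfold Fam.p
      rw [map_div₀]
      field_simp
      ring
    have hω' : ω ^ 6 = MvPolynomial.aeval (Φ.p s t) W.f := by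
      rw [hev, hω, hc2, zero_mul, add_zero]
    have h2 := CYU.rel_b G (by norm_num) hχ hK hp' hX hω'
      (Pi.single i 1 - Pi.single Φ.i₀ (z.x i / z.x Φ.i₀)) (by
        rw [hsum]
        exact mul_ne_zero hxi hs)
    rw [hsum, mul_pow, ← hi] at h2
    exact h2

variable {K : Type} [Field K] [Algebra k K]

omit [IsAlgClosed k] [CharZero k] in
private lemma relf_p {z : Pt W k} (Φ : Fam W z k) (s : K) (i : Fin (W.n + 1)) :
    (Φ.map (Algebra.ofId k K)).p s 1 i = algebraMap k K (z.x i) + algebraMap k K (Φ.x1 i) * s := by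
  show algebraMap k K (z.x i) * 1 + algebraMap k K (Φ.x1 i) * s = _
  rw [mul_one]

private lemma relf_ord (hK : IsCurve k K) {v : Place k K} {s : K} (hs : s ≠ 0) {c' : k}
    (hc' : c' ≠ 0) (N : ℕ) : ord v (algebraMap k K c' * s ^ N) = N * ord v s := by
  have h1 : algebraMap k K c' ≠ 0 := by
    rw [Ne, map_eq_zero]
    exact hc'
  rw [ord_mul hK v h1 (pow_ne_zero _ hs), ord_const hK, ord_pow hK, zero_add]

omit [Module k V] in
theorem over_not (hK : IsCurve k K) {z : Pt W k} (Φ : Fam W z k) {v : Place k K} {s : K}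
    (hs : ¬ v.Vanishes s) (ω : K) {c' : k} (hc' : c' ≠ 0) (g : Pt W k → V) :
    ctr g v ((Φ.map (Algebra.ofId k K)).p s 1) ω (algebraMap k K c' * s ^ (6 * W.e)) = 0 := by
  have hs0 : s ≠ 0 := by
    rintro rfl
    exact hs v.vanishes_zero
  have hle : ord v s ≤ 0 := by
    by_contra hcon
    exact hs ((vanishes_iff_ord hK hs0).2 (not_le.1 hcon))
  have hN : (0 : ℤ) ≤ (6 * W.e : ℕ) := Int.natCast_nonneg _
  apply CYU.ctr_zero
  by_cases hreg : s ∈ v.ring
  · obtain ⟨τ, hτ⟩ := exists_at hK v hreg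
    refine CYU.not_spec hK (l := 1) (ξ := fun i => z.x i + Φ.x1 i * τ) (fun i => ?_) ?_ (Or.inr ?_)
    · rw [one_mul, relf_p]
      exact (Place.at_const _).add ((Place.at_const _).mul hτ)
    · intro h
      apply Φ.hi₀
      have h1 := congrFun h Φ.i₀
      simpa [Φ.h1] using h1
    · rw [one_pow, one_mul, relf_ord hK hs0 hc']
      exact mul_nonpos_of_nonneg_of_nonpos hN hle
  · have hinv : v.At s⁻¹ 0 := by
      rw [Place.at_zero_iff, Place.vanishes_iff_or, inv_inv]
      exact Or.inr hreg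
    by_cases hx : Φ.x1 = 0
    · refine CYU.not_spec hK (l := 1) (ξ := z.x) (fun i => ?_) z.ne (Or.inr ?_)
      · rw [one_mul, relf_p, hx, Pi.zero_apply, _root_.map_zero, zero_mul, add_zero]
        exact Place.at_const _
      · rw [one_pow, one_mul, relf_ord hK hs0 hc']
        exact mul_nonpos_of_nonneg_of_nonpos hN hle
    · refine CYU.not_spec hK (l := s⁻¹) (ξ := Φ.x1) (fun i => ?_) hx (Or.inr ?_)
      · have e : s⁻¹ * (Φ.map (Algebra.ofId k K)).p s 1 i =
            s⁻¹ * algebraMap k K (z.x i) + algebraMap k K (Φ.x1 i) := by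
          rw [relf_p]
          field_simp
        rw [e]
        have h2 := (hinv.mul (Place.at_const (z.x i))).add (Place.at_const (v := v) (Φ.x1 i))
        rwa [zero_mul, zero_add] at h2
      · have h1 : algebraMap k K c' ≠ 0 := by
          rw [Ne, map_eq_zero]
          exact hc'
        rw [ord_mul hK v (pow_ne_zero _ (inv_ne_zero hs0)) (mul_ne_zero h1 (pow_ne_zero _ hs0)),
          relf_ord hK hs0 hc', ord_pow hK, ord_inv hK]
        apply le_of_eq
        ring

omit [Module k V] in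
theorem over_zero (hK : IsCurve k K) {z : Pt W k} (hz : z.w ≠ 0) (Φ : Fam W z k)
    {v : Place k K} {s : K} (hs : v.Vanishes s) (hs0 : s ≠ 0) {ω : K} {a : Mu k 6}
    (hω : v.At ω (mu k a * z.w)) {c' : k} (hc' : c' ≠ 0) {g : Pt W k → V} (hg : Inv g) :
    ctr g v ((Φ.map (Algebra.ofId k K)).p s 1) ω (algebraMap k K c' * s ^ (6 * W.e)) =
      (6 * W.e * ord v s) • g (z.tw a) := by
  have hat : ∀ i, v.At (1 * (Φ.map (Algebra.ofId k K)).p s 1 i) (z.x i) := by
    intro i
    rw [one_mul, relf_p]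
    have h2 := (Place.at_const (v := v) (z.x i)).add
      ((Place.at_const (Φ.x1 i)).mul (Place.at_zero_iff.2 hs))
    rwa [mul_zero, add_zero] at h2
  have hpos : 0 < ord v s := (vanishes_iff_ord hK hs0).1 hs
  have hN : 0 < 6 * W.e := Nat.mul_pos (by norm_num) W.pos
  have hord : ord v (1 ^ (6 * W.e) * (algebraMap k K c' * s ^ (6 * W.e))) =
      6 * W.e * ord v s := by
    rw [one_pow, one_mul, relf_ord hK hs0 hc']
    push_cast
    ring
  have hne : (z.tw a).w ≠ 0 := by
    show mu k a * z.w ≠ 0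
    refine mul_ne_zero ?_ hz
    intro h
    have h1 := CYU.mu_pow k a
    rw [h, zero_pow ((by norm_num : (6:ℕ) ≠ 0))] at h1
    exact zero_ne_one h1
  have hspec : Spec v ((Φ.map (Algebra.ofId k K)).p s 1) ω (algebraMap k K c' * s ^ (6 * W.e))
      (6 * W.e * ord v s) (z.tw a) := by
    refine ⟨1, hat, ?_, hne, ?_, hord⟩
    · rw [one_pow, one_mul]
      exact hω
    · have h3 : (0 : ℤ) < (6 : ℤ) * W.e := by exact_mod_cast hN
      exact mul_pos h3 hpos
  exact CYU.ctr_eq hK hg hspec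

end Pool.Agent.CYS
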